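import Pool.Agent.CPG.StP

/-!
Project CPG (problem MP_5e85fc_lc): module ABS, the lower bound for block machines (union bound).
-/

set_option autoImplicit false

namespace Pool.Agent.CPG

open Pool.Agent.Heads Pool.Agent.NQ2

namespace ABSx

/-! ### Indicators and averages -/

theorem ind_true {P : Prop} (h : P) : ind P = 1 := by
  unfold ind
  rw [if_pos h]

theorem ind_false {P : Prop} (h : ¬ P) : ind P = 0 := by
  unfold ind
  rw [if_neg h]

theorem ind_nonneg (P : Prop) : 0 ≤ ind P := by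
  by_cases h : P
  · rw [ind_true h]
    exact zero_le_one
  · rw [ind_false h]

theorem ind_mono {P Q : Prop} (h : P → Q) : ind P ≤ ind Q := by
  by_cases hP : P
  · rw [ind_true hP, ind_true (h hP)]
  · rw [ind_false hP]
    exact ind_nonneg Q

theorem ind_ex {ι : Type} [Fintype ι] (P : ι → Prop) : ind (∃ i, P i) ≤ ∑ i, ind (P i) := by
  by_cases h : ∃ i, P i
  · obtain ⟨i, hi⟩ := h
    rw [ind_true ⟨i, hi⟩, ← ind_true hi]
    exact Finset.single_le_sum (f := fun i => ind (P i)) (fun j _ => ind_nonneg _)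
      (Finset.mem_univ i)
  · rw [ind_false h]
    exact Finset.sum_nonneg fun i _ => ind_nonneg _

theorem avg_mono {X : Type} [Fintype X] {f g : X → ℝ} (h : ∀ x, f x ≤ g x) : avg f ≤ avg g := by
  unfold avg
  exact div_le_div_of_nonneg_right (Finset.sum_le_sum fun x _ => h x) (Nat.cast_nonneg _)

theorem avg_add {X : Type} [Fintype X] (f g : X → ℝ) :
    avg (fun x => f x + g x) = avg f + avg g := by
  unfold avg
  rw [Finset.sum_add_distrib, add_div]

theorem avg_sum {X ι : Type} [Fintype X] [Fintype ι] (f : ι → X → ℝ) :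
    avg (fun x => ∑ i, f i x) = ∑ i, avg (f i) := by
  unfold avg
  rw [Finset.sum_comm, Finset.sum_div]

theorem avg_le_const {X : Type} [Fintype X] {f : X → ℝ} {c : ℝ} (hc : 0 ≤ c)
    (h : ∀ x, f x ≤ c) : avg f ≤ c := by
  unfold avg
  rcases (Nat.cast_nonneg (Fintype.card X) : (0 : ℝ) ≤ _).eq_or_lt with h0 | h0
  · rw [← h0, div_zero]
    exact hc
  · rw [div_le_iff₀ h0]
    calc ∑ x, f x ≤ ∑ _x : X, c := Finset.sum_le_sum fun x _ => h x
      _ = c * (Fintype.card X : ℝ) := by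
        rw [Finset.sum_const, nsmul_eq_mul, Finset.card_univ, mul_comm]

/-- The average over pairs of a function of the first entry. -/
theorem avg_fst {X O : Type} [Fintype X] [Fintype O] [Nonempty O] (f : X → ℝ) :
    avg (fun xo : X × O => f xo.1) = avg f := by
  unfold avg
  have h1 : ∑ xo : X × O, f xo.1 = (Fintype.card O : ℝ) * ∑ x, f x := by
    rw [Fintype.sum_prod_type, Finset.mul_sum]
    refine Finset.sum_congr rfl fun x _ => ?_
    show ∑ _y : O, f x = _
    rw [Finset.sum_const, Finset.card_univ, nsmul_eq_mul]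
  have h2 : (Fintype.card O : ℝ) ≠ 0 := by
    exact_mod_cast Fintype.card_ne_zero
  rw [h1, Fintype.card_prod, Nat.cast_mul, mul_comm (Fintype.card X : ℝ),
    mul_div_mul_left _ _ h2]

theorem avg_ex_le {X ι : Type} [Fintype X] [Fintype ι] (P : ι → X → Prop) (b : ι → ℝ)
    (h : ∀ i, avg (fun x => ind (P i x)) ≤ b i) :
    avg (fun x => ind (∃ i, P i x)) ≤ ∑ i, b i := by
  calc avg (fun x => ind (∃ i, P i x)) ≤ avg (fun x => ∑ i, ind (P i x)) :=
        avg_mono fun x => ind_ex _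
    _ = ∑ i, avg (fun x => ind (P i x)) := avg_sum _
    _ ≤ ∑ i, b i := Finset.sum_le_sum fun i _ => h i

theorem wt_nonneg {T k S : ℕ} (m th th' : ℕ) (κ : Kd T k S) : 0 ≤ wt m th th' κ := by
  rcases κ with κ | κ | κ
  · show (0 : ℝ) ≤ (1 / 2) ^ (2 * m - 1)
    positivity
  · show (0 : ℝ) ≤ (1 / 2) ^ (m - 1)
    positivity
  · show (0 : ℝ) ≤ (th' : ℝ) / th
    positivity

/-- The inputs for which the root is hidden. -/
theorem partOne (hJ1 : J1_Stmt) {k m d l th T : ℕ} (M : BM k (Zt m d) (Fin l → Bool)) :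
    avg (fun x : Inp m d l => ind (Hid M x [] 0 M.c0 T th ∧
      (M.out (M.run x 0 M.c0 T) ↔ btD x [] = true))) ≤
      1 / 2 + (Fintype.card M.C : ℝ) ^ th * Poly.bet 1 ^ l := by
  classical
  have h1 := hJ1 k m d l M 0 T th M.c0 ⟨[], Nat.zero_le _⟩ (fun _ _ => 1)
    (fun tr => decide (M.out (tr (Fin.last T)))) (fun _ _ => ⟨zero_le_one, le_rfl⟩)
    (fun _ _ _ _ => rfl)
  have h2 : avg (fun _ : Inp m d l => (1 : ℝ)) ≤ 1 := avg_le_const zero_le_one fun _ => le_rfl
  refine le_trans (avg_mono fun x => ?_) (h1.trans (by linarith))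
  rw [mul_one]
  refine ind_mono fun hx => ⟨hx.1, ?_⟩
  have h3 : (M.out (M.run x 0 M.c0 T)) ↔ btD x [] = true := hx.2
  show btD x [] = decide (M.out (M.run x 0 M.c0 T))
  by_cases h4 : M.out (M.run x 0 M.c0 T)
  · rw [decide_eq_true h4]
    exact h3.1 h4
  · rw [decide_eq_false h4]
    exact Bool.eq_false_iff.2 fun h5 => h4 (h3.2 h5)

/-- One hint. -/
theorem partThree (hHNT : HNT_Stmt) (hWTS : WTS_Stmt) {k m d l th th' T S : ℕ}
    (M : BM k (Zt m d) (Fin l → Bool)) (ρ : Fin S → ℕ) (hm : 2 ≤ m) (hth : 0 < th)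
    (hth' : th' ≤ th) :
    avg (fun xo : Inp m d l × (Nd m d → Fin th) =>
      ind (∃ η : Ht m d T k S, HEv M xo.1 xo.2 th' ρ 0 M.c0 η)) ≤
      Gh m d T k S th th' + Gn m d T k S *
        (2 * m * ((Fintype.card M.C : ℝ) ^ th * Poly.bet 1 ^ l)) := by
  classical
  obtain ⟨hw1, hw2, -, -⟩ := hWTS m d T k S th th'
  have h1 : ∀ η : Ht m d T k S, avg (fun xo : Inp m d l × (Nd m d → Fin th) =>
      ind (HEv M xo.1 xo.2 th' ρ 0 M.c0 η)) ≤
      wt m th th' η.2.2 + 2 * m * ((Fintype.card M.C : ℝ) ^ th * Poly.bet 1 ^ l) := by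
    intro η
    have h2 := hHNT k m d l th th' T S 1 M ρ 0 M.c0 (fun _ => η) hm hth hth' ?_
    · rw [Fin.prod_univ_one, Nat.cast_one, mul_one] at h2
      exact le_trans (avg_mono fun xo => ind_mono fun h _ => h) h2
    · intro t t' i i' _ _ hne hsuf
      have h5 : i :: η.1.1 = i' :: η.1.1 := hsuf.eq_of_length rfl
      apply hne
      injection h5 with h6 _
      rw [h6, Subsingleton.elim t t']
  refine (avg_ex_le _ _ h1).trans (le_of_eq ?_)
  rw [Finset.sum_add_distrib, hw1, Finset.sum_const, Finset.card_univ, nsmul_eq_mul, hw2]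

/-- A separated family of hints. -/
theorem partFour (hHNT : HNT_Stmt) (hWTS : WTS_Stmt) {k m d l th th' T S : ℕ}
    (M : BM k (Zt m d) (Fin l → Bool)) (ρ : Fin S → ℕ) (hm : 2 ≤ m) (hth : 0 < th)
    (hth' : th' ≤ th) :
    avg (fun xo : Inp m d l × (Nd m d → Fin th) =>
      ind (∃ q : Fin (T + 1) × M.C × (Fin d → Ht m d T k S), Sep q.2.2 ∧
        ∀ t, HEv M xo.1 xo.2 th' ρ (q.1 : ℕ) q.2.1 (q.2.2 t))) ≤
      (T + 1) * (Fintype.card M.C : ℝ) * (Gh m d T k S th th' ^ d + Gn m d T k S ^ d *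
        (2 * m * d * ((Fintype.card M.C : ℝ) ^ th * Poly.bet 1 ^ l))) := by
  classical
  have hb : 0 ≤ Poly.bet 1 := Poly.bet_nonneg 1
  obtain ⟨-, -, hw3, hw4⟩ := hWTS m d T k S th th'
  have h1 : ∀ q : Fin (T + 1) × M.C × (Fin d → Ht m d T k S),
      avg (fun xo : Inp m d l × (Nd m d → Fin th) => ind (Sep q.2.2 ∧
        ∀ t, HEv M xo.1 xo.2 th' ρ (q.1 : ℕ) q.2.1 (q.2.2 t))) ≤
      (∏ t, wt m th th' (q.2.2 t).2.2) +
        2 * m * d * ((Fintype.card M.C : ℝ) ^ th * Poly.bet 1 ^ l) := by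
    intro q
    by_cases hs : Sep q.2.2
    · refine le_trans (avg_mono fun xo => ind_mono fun h => h.2) ?_
      exact hHNT k m d l th th' T S d M ρ (q.1 : ℕ) q.2.1 q.2.2 hm hth hth' hs
    · have h2 : avg (fun xo : Inp m d l × (Nd m d → Fin th) => ind (Sep q.2.2 ∧
          ∀ t, HEv M xo.1 xo.2 th' ρ (q.1 : ℕ) q.2.1 (q.2.2 t))) ≤ 0 :=
        avg_le_const le_rfl fun xo => by
          rw [ind_false fun h => hs h.1]
      have h3 : 0 ≤ ∏ t, wt m th th' (q.2.2 t).2.2 :=
        Finset.prod_nonneg fun t _ => wt_nonneg m th th' _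
      have h4 : (0 : ℝ) ≤ 2 * m * d * ((Fintype.card M.C : ℝ) ^ th * Poly.bet 1 ^ l) := by
        positivity
      linarith
  refine (avg_ex_le _ _ h1).trans (le_of_eq ?_)
  rw [Fintype.sum_prod_type]
  have h5 : ∀ j : Fin (T + 1), ∑ y : M.C × (Fin d → Ht m d T k S),
      ((∏ t, wt m th th' (y.2 t).2.2) +
        2 * m * d * ((Fintype.card M.C : ℝ) ^ th * Poly.bet 1 ^ l)) =
      (Fintype.card M.C : ℝ) * (Gh m d T k S th th' ^ d + Gn m d T k S ^ d *
        (2 * m * d * ((Fintype.card M.C : ℝ) ^ th * Poly.bet 1 ^ l))) := by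
    intro j
    rw [Fintype.sum_prod_type]
    have h6 : ∀ c : M.C, ∑ y : Fin d → Ht m d T k S,
        ((∏ t, wt m th th' (y t).2.2) +
          2 * m * d * ((Fintype.card M.C : ℝ) ^ th * Poly.bet 1 ^ l)) =
        Gh m d T k S th th' ^ d + Gn m d T k S ^ d *
          (2 * m * d * ((Fintype.card M.C : ℝ) ^ th * Poly.bet 1 ^ l)) := by
      intro c
      rw [Finset.sum_add_distrib, hw3 d, Finset.sum_const, Finset.card_univ, nsmul_eq_mul, hw4 d]
    rw [Finset.sum_congr rfl fun c _ => h6 c, Finset.sum_const, Finset.card_univ, nsmul_eq_mul]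
  rw [Finset.sum_congr rfl fun j _ => h5 j, Finset.sum_const, Finset.card_univ, Fintype.card_fin,
    nsmul_eq_mul]
  push_cast
  ring

end ABSx

open ABSx in
/-- MODULE ABS. -/
theorem t_ABS (hJ1 : J1_Stmt) (hP1 : P1_Stmt) (hSMP : SMP_Stmt) (hHNT : HNT_Stmt)
    (hCOV : COV_Stmt) (hWTS : WTS_Stmt) : ABS_Stmt := by
  classical
  intro k m d l th th' q T S M hm hT hq hth hth' hqq
  obtain ⟨ρ, hρ⟩ := hSMP k m d l T S q M hT hq
  have : Nonempty (Nd m d → Fin th) := ⟨fun _ => ⟨0, hth⟩⟩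
  let E1 : Inp m d l → Prop := fun x => Hid M x [] 0 M.c0 T th ∧
      (M.out (M.run x 0 M.c0 T) ↔ btD x [] = true)
  let E2 : Inp m d l → Prop := fun x => ¬ Smp M x T q ρ
  let E3 : Inp m d l × (Nd m d → Fin th) → Prop := fun xo =>
    ∃ η : Ht m d T k S, HEv M xo.1 xo.2 th' ρ 0 M.c0 η
  let E4 : Inp m d l × (Nd m d → Fin th) → Prop := fun xo =>
    ∃ q : Fin (T + 1) × M.C × (Fin d → Ht m d T k S), Sep q.2.2 ∧
        ∀ t, HEv M xo.1 xo.2 th' ρ (q.1 : ℕ) q.2.1 (q.2.2 t)
  have hsplit : ∀ xo : Inp m d l × (Nd m d → Fin th),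
      ind (M.out (M.run xo.1 0 M.c0 T) ↔ btD xo.1 [] = true) ≤
      ((ind (E1 xo.1) + ind (E2 xo.1)) + ind (E3 xo)) + ind (E4 xo) := by
    intro xo
    have n1 := ind_nonneg (E1 xo.1)
    have n2 := ind_nonneg (E2 xo.1)
    have n3 := ind_nonneg (E3 xo)
    have n4 := ind_nonneg (E4 xo)
    by_cases hW : (M.out (M.run xo.1 0 M.c0 T) ↔ btD xo.1 [] = true)
    swap
    · rw [ind_false hW]
      linarith
    rw [ind_true hW]
    by_cases h2 : Smp M xo.1 T q ρ
    swap
    · have h3 : ind (E2 xo.1) = 1 := ind_true h2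
      linarith
    by_cases hR : ∃ j < T, Rq M xo.1 xo.2 [] j
    · rcases hCOV k m d l th th' q T S M ρ xo.1 xo.2 (by omega) hqq h2 hR with hA | hB
      · have h3 : ind (E3 xo) = 1 := ind_true hA
        linarith
      · obtain ⟨j0, hj0, η, hsep, hη⟩ := hB
        have h3 : ind (E4 xo) = 1 :=
          ind_true ⟨(⟨j0, by omega⟩, M.run xo.1 0 M.c0 j0, η), hsep, hη⟩
        linarith
    · have h3 : ind (E1 xo.1) = 1 := by
        refine ind_true ⟨?_, hW⟩
        exact hP1 k m d l th M xo.1 xo.2 [] 0 T fun j hj h4 => hR ⟨j, hj, by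
          rw [Nat.zero_add] at h4
          exact h4⟩
      linarith
  have h1 : avg (fun x => ind (E1 x)) ≤ _ := partOne (th := th) (T := T) hJ1 M
  have h3 : avg (fun xo => ind (E3 xo)) ≤ _ :=
    partThree (th := th) (th' := th') (T := T) (S := S) hHNT hWTS M ρ hm hth hth'
  have h4 : avg (fun xo => ind (E4 xo)) ≤ _ :=
    partFour (th := th) (th' := th') (T := T) (S := S) hHNT hWTS M ρ hm hth hth'
  calc avg (fun x : Inp m d l => ind (M.out (M.run x 0 M.c0 T) ↔ btD x [] = true))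
      = avg (fun xo : Inp m d l × (Nd m d → Fin th) =>
          ind (M.out (M.run xo.1 0 M.c0 T) ↔ btD xo.1 [] = true)) :=
        (avg_fst (O := Nd m d → Fin th)
          (fun x : Inp m d l => ind (M.out (M.run x 0 M.c0 T) ↔ btD x [] = true))).symm
    _ ≤ avg (fun xo : Inp m d l × (Nd m d → Fin th) =>
          ((ind (E1 xo.1) + ind (E2 xo.1)) + ind (E3 xo)) + ind (E4 xo)) := avg_mono hsplit
    _ = ((avg (fun xo : Inp m d l × (Nd m d → Fin th) => ind (E1 xo.1)) +
          avg (fun xo : Inp m d l × (Nd m d → Fin th) => ind (E2 xo.1))) +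
          avg (fun xo => ind (E3 xo))) + avg (fun xo => ind (E4 xo)) := by
        rw [avg_add, avg_add, avg_add]
    _ = ((avg (fun x => ind (E1 x)) + avg (fun x => ind (E2 x))) +
          avg (fun xo => ind (E3 xo))) + avg (fun xo => ind (E4 xo)) := by
        rw [avg_fst (O := Nd m d → Fin th) (fun x => ind (E1 x)),
          avg_fst (O := Nd m d → Fin th) (fun x => ind (E2 x))]
    _ ≤ 1 / 2 + Er m d l T k S th th' q (Fintype.card M.C) := by
      unfold Er
      linarith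

end Pool.Agent.CPG
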