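import Pool.Agent.CPG.StP

/-!
Project CPG (MP_5e85fc_lc), module ACB: the machine on the list of one side.
-/

set_option autoImplicit false

namespace Pool.Agent.CPG

open Pool.Agent.Heads Pool.Agent.NQ2

namespace ACBx

lemma run_append {α Q Γ : Type} (st : α → Q → Option Γ → Q × Op Γ) (u v : List α)
    (c : Q × List Γ) : RLT.run st (u ++ v) c = RLT.run st v (RLT.run st u c) := by
  unfold RLT.run
  rw [List.foldl_append]

lemma run_cons {α Q Γ : Type} (st : α → Q → Option Γ → Q × Op Γ) (a : α) (v : List α)
    (c : Q × List Γ) : RLT.run st (a :: v) c =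
      RLT.run st v ((st a c.1 c.2.head?).1, (st a c.1 c.2.head?).2.apply c.2) := rfl

lemma run_nil {α Q Γ : Type} (st : α → Q → Option Γ → Q × Op Γ) (c : Q × List Γ) :
    RLT.run st [] c = c := rfl

lemma run_fill (ga : ℕ) (q : Bool × Md) (σ : List Sk) :
    RLT.run stp (List.replicate ga Lt.fill) (q, σ) = (q, σ) := by
  induction ga with
  | zero => rfl
  | succ n ih =>
    rw [List.replicate_succ, run_cons]
    have h : stp Lt.fill q σ.head? = (q, Op.none) := by
      obtain ⟨f, md⟩ := q
      cases md <;> cases σ.head? <;> rfl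
    simp only [h]
    exact ih

lemma run_bits_S (L : List Bool) (f : Bool) (σ : List Sk) :
    RLT.run stp (L.map Lt.bit) ((f, Md.S), σ) = ((f, Md.S), σ) := by
  induction L with
  | nil => rfl
  | cons a L ih =>
    rw [List.map_cons, run_cons]
    exact ih

lemma run_bits_K (L : List Bool) (f : Bool) (σ : List Sk) :
    RLT.run stp (L.map Lt.bit) ((f, Md.K), σ) = ((f, Md.K), σ) := by
  induction L with
  | nil => rfl
  | cons a L ih =>
    rw [List.map_cons, run_cons]
    exact ih

lemma run_bits_F (L : List Bool) (f : Bool) (σ : List Sk) :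
    RLT.run stp (L.map Lt.bit) ((f, Md.B false), σ) =
      ((f, Md.B false), L.reverse.map Sk.bt ++ σ) := by
  induction L generalizing σ with
  | nil => rfl
  | cons a L ih =>
    rw [List.map_cons, run_cons]
    have h := ih (Sk.bt a :: σ)
    rw [List.reverse_cons, List.map_append, List.append_assoc]
    exact h

lemma ip_zero (g c : Fin 0 → Bool) : ip g c = false := by
  simp [ip]

lemma ip_succ {l : ℕ} (g c : Fin (l + 1) → Bool) :
    ip g c = xor (g (Fin.last l) && c (Fin.last l))
      (ip (fun i : Fin l => g i.castSucc) (fun i => c i.castSucc)) := by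
  unfold ip
  rw [Finset.card_filter, Finset.card_filter, Fin.sum_univ_castSucc]
  cases h : (g (Fin.last l) && c (Fin.last l))
  · simp
  · simp only [if_true]
    rw [Bool.true_xor, ← decide_not]
    exact decide_eq_decide.2 Nat.odd_add_one

lemma run_bits_T (l : ℕ) : ∀ (g c : Fin l → Bool) (f : Bool) (σ : List Sk),
    RLT.run stp ((List.ofFn c).reverse.map Lt.bit)
      ((f, Md.B true), (List.ofFn g).reverse.map Sk.bt ++ σ) =
      ((xor f (ip g c), Md.B true), σ) := by
  induction l with
  | zero =>
    intro g c f σ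
    rw [ip_zero]
    simp [run_nil]
  | succ l ih =>
    intro g c f σ
    have h1 : (List.ofFn c).reverse =
        c (Fin.last l) :: (List.ofFn fun i : Fin l => c i.castSucc).reverse := by
      rw [List.ofFn_succ', List.concat_eq_append, List.reverse_append]
      rfl
    have h2 : (List.ofFn g).reverse =
        g (Fin.last l) :: (List.ofFn fun i : Fin l => g i.castSucc).reverse := by
      rw [List.ofFn_succ', List.concat_eq_append, List.reverse_append]
      rfl
    rw [h1, h2, List.map_cons, run_cons, List.map_cons]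
    have h3 := ih (fun i => g i.castSucc) (fun i => c i.castSucc)
      (xor f (g (Fin.last l) && c (Fin.last l))) σ
    rw [ip_succ g c, ← Bool.xor_assoc]
    exact h3

lemma block_S {l : ℕ} (ga : ℕ) (s : Bool) (c : Fin l → Bool) (f : Bool) (σ : List Sk) :
    RLT.run stp (blockW ga s c) ((f, Md.S), Sk.un :: σ) = ((f, Md.S), σ) := by
  unfold blockW
  rw [run_cons, run_append]
  have h : RLT.run stp (List.replicate ga Lt.fill)
      ((stp (Lt.mark s) (f, Md.S) (Sk.un :: σ).head?).1,
        (stp (Lt.mark s) (f, Md.S) (Sk.un :: σ).head?).2.apply (Sk.un :: σ)) =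
      ((f, Md.S), σ) := run_fill ga (f, Md.S) σ
  simp only [h]
  exact run_bits_S _ f σ

lemma block_K {l : ℕ} (ga : ℕ) (s : Bool) (c : Fin l → Bool) (f : Bool) (md : Md)
    (hmd : md ≠ Md.S) (σ : List Sk) :
    RLT.run stp (blockW ga s c) ((f, md), σ) = ((f, Md.K), σ) := by
  unfold blockW
  rw [run_cons, run_append]
  have h : RLT.run stp (List.replicate ga Lt.fill)
      ((stp (Lt.mark s) (f, md) σ.head?).1,
        (stp (Lt.mark s) (f, md) σ.head?).2.apply σ) =
      ((f, Md.K), σ) := by
    have h1 : stp (Lt.mark s) (f, md) σ.head? = ((f, Md.K), Op.none) := by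
      cases md with
      | S => exact absurd rfl hmd
      | B s' => cases σ.head? <;> rfl
      | K => cases σ.head? <;> rfl
    simp only [h1]
    exact run_fill ga (f, Md.K) σ
  simp only [h]
  exact run_bits_K _ f σ

lemma tail_K {ι : Type} {l : ℕ} (ga : ℕ) (s : Bool) (c : ι → Fin l → Bool) (f : Bool)
    (σ : List Sk) (L : List ι) : ∀ md : Md, md ≠ Md.S →
    RLT.run stp ((L.flatMap fun j => blockW ga s (c j)) ++ [Lt.en]) ((f, md), σ) =
      ((f, Md.S), σ) := by
  induction L with
  | nil =>
    intro md hmd
    rw [List.flatMap_nil, List.nil_append, run_cons, run_nil]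
    cases md <;> cases σ.head? <;> rfl
  | cons j L ih =>
    intro md hmd
    rw [List.flatMap_cons, List.append_assoc, run_append, block_K ga s (c j) f md hmd σ]
    exact ih Md.K (fun h => by cases h)

lemma skip_S {ι : Type} {l : ℕ} (ga : ℕ) (s : Bool) (c : ι → Fin l → Bool) (f : Bool)
    (σ : List Sk) (L : List ι) :
    RLT.run stp (L.flatMap fun j => blockW ga s (c j))
      ((f, Md.S), List.replicate L.length Sk.un ++ σ) = ((f, Md.S), σ) := by
  induction L with
  | nil => rfl
  | cons j L ih =>
    rw [List.flatMap_cons, run_append, List.length_cons, List.replicate_succ, List.cons_append,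
      block_S ga s (c j) f]
    exact ih

lemma block_F {l : ℕ} (ga : ℕ) (c : Fin l → Bool) (f : Bool) (σ : List Sk) :
    RLT.run stp (blockW ga false c) ((f, Md.S), Sk.mk :: σ) =
      ((false, Md.B false), (List.ofFn c).reverse.map Sk.bt ++ σ) := by
  unfold blockW
  rw [run_cons, run_append]
  have h : RLT.run stp (List.replicate ga Lt.fill)
      ((stp (Lt.mark false) (f, Md.S) (Sk.mk :: σ).head?).1,
        (stp (Lt.mark false) (f, Md.S) (Sk.mk :: σ).head?).2.apply (Sk.mk :: σ)) =
      ((false, Md.B false), σ) := run_fill ga (false, Md.B false) σ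
  simp only [h]
  rw [if_neg (by decide)]
  exact run_bits_F _ false σ

lemma block_T {l : ℕ} (ga : ℕ) (g c : Fin l → Bool) (f : Bool) (σ : List Sk) :
    RLT.run stp (blockW ga true c)
      ((f, Md.S), Sk.mk :: ((List.ofFn g).reverse.map Sk.bt ++ σ)) =
      ((ip g c, Md.B true), σ) := by
  unfold blockW
  rw [run_cons, run_append]
  have h : RLT.run stp (List.replicate ga Lt.fill)
      ((stp (Lt.mark true) (f, Md.S)
          (Sk.mk :: ((List.ofFn g).reverse.map Sk.bt ++ σ)).head?).1,
        (stp (Lt.mark true) (f, Md.S)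
          (Sk.mk :: ((List.ofFn g).reverse.map Sk.bt ++ σ)).head?).2.apply
          (Sk.mk :: ((List.ofFn g).reverse.map Sk.bt ++ σ))) =
      ((false, Md.B true), (List.ofFn g).reverse.map Sk.bt ++ σ) :=
    run_fill ga (false, Md.B true) _
  simp only [h]
  rw [if_pos trivial, run_bits_T l g c false σ, Bool.false_xor]

/-- The list of one side: the skipped blocks, the selected block, the other blocks. -/
lemma listW_split (hDIG : DIG_Stmt) {m l : ℕ} (ga : ℕ) (s : Bool) (D : Idx m → Fin l → Bool)
    (A : Idx m) : ∃ L : List ℕ, listW ga s D =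
      ((List.range (val A)).flatMap fun j => blockW ga s (D (bitsOf m j))) ++
        (blockW ga s (D A) ++ ((L.flatMap fun j => blockW ga s (D (bitsOf m j))) ++ [Lt.en])) := by
  obtain ⟨h1, h2, -⟩ := hDIG
  have hA := h1 m A
  obtain ⟨r, hr⟩ : ∃ r, 2 ^ m = val A + (r + 1) := ⟨2 ^ m - val A - 1, by omega⟩
  refine ⟨((List.range r).map Nat.succ).map (fun x => val A + x), ?_⟩
  unfold listW
  rw [hr, List.range_add, List.range_succ_eq_map, List.map_cons, List.flatMap_append,
    List.flatMap_cons, Nat.add_zero, h2 m A, List.append_assoc, List.append_assoc]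

end ACBx

open ACBx in
theorem t_ACB (hDIG : NQ2.DIG_Stmt) : ACB_Stmt := by
  intro m l ga D A f σ
  constructor
  · obtain ⟨L, hL⟩ := listW_split hDIG ga false D A
    have h := skip_S ga false (fun j => D (bitsOf m j)) f (Sk.mk :: σ) (List.range (val A))
    rw [List.length_range] at h
    rw [hL, run_append, h, run_append, block_F]
    exact tail_K ga false (fun j => D (bitsOf m j)) false _ L (Md.B false) (fun h => by cases h)
  · intro g
    obtain ⟨L, hL⟩ := listW_split hDIG ga true D A
    have h := skip_S ga true (fun j => D (bitsOf m j)) f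
      (Sk.mk :: ((List.ofFn g).reverse.map Sk.bt ++ σ)) (List.range (val A))
    rw [List.length_range] at h
    rw [hL, run_append, h, run_append, block_T]
    exact tail_K ga true (fun j => D (bitsOf m j)) _ _ L (Md.B true) (fun h => by cases h)

end Pool.Agent.CPG
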