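import Pool.Agent.CPG.StP

/-!
Project CPG, module ACC: the machine finds the bit of the root.
-/

set_option autoImplicit false

namespace Pool.Agent.CPG

open Pool.Agent.Heads Pool.Agent.NQ2

namespace ACCx

lemma run_append (A B : List Lt) (c : (Bool × Md) × List Sk) :
    RLT.run stp (A ++ B) c = RLT.run stp B (RLT.run stp A c) := by
  simp only [RLT.run, List.foldl_append]

lemma run_op (w : List Lt) (f : Bool) (md : Md) (σ : List Sk) :
    RLT.run stp (Lt.op :: w) ((f, md), σ) = RLT.run stp w ((f, Md.S), Sk.mk :: σ) := by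
  simp only [RLT.run, List.foldl_cons, stp, Op.apply]

lemma run_nil (c : (Bool × Md) × List Sk) : RLT.run stp [] c = c := rfl

lemma run_pads (j : ℕ) (f : Bool) (md : Md) (σ : List Sk) :
    RLT.run stp (List.replicate j Lt.pad) ((f, md), σ) =
      ((f, md), List.replicate (if f = true then j else 0) Sk.un ++ σ) := by
  induction j generalizing σ with
  | zero => simp [run_nil]
  | succ j ih =>
    have h1 : List.replicate (j + 1) Lt.pad = [Lt.pad] ++ List.replicate j Lt.pad := by
      rw [List.replicate_succ]; rfl
    rw [h1, run_append]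
    cases f with
    | false =>
      have h2 : RLT.run stp [Lt.pad] ((false, md), σ) = ((false, md), σ) := by
        simp [RLT.run, stp, Op.apply]
      rw [h2, ih]
      simp
    | true =>
      have h2 : RLT.run stp [Lt.pad] ((true, md), σ) = ((true, md), Sk.un :: σ) := by
        simp [RLT.run, stp, Op.apply]
      rw [h2, ih]
      simp only [if_true]
      have h3 : List.replicate (j + 1) Sk.un = List.replicate j Sk.un ++ [Sk.un] := by
        rw [List.replicate_succ']
      rw [h3, List.append_assoc]
      rfl

lemma run_fills (j : ℕ) (c : (Bool × Md) × List Sk) :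
    RLT.run stp (List.replicate j Lt.fill) c = c := by
  induction j with
  | zero => rfl
  | succ j ih =>
    have h1 : List.replicate (j + 1) Lt.fill = [Lt.fill] ++ List.replicate j Lt.fill := by
      rw [List.replicate_succ]; rfl
    have h2 : RLT.run stp [Lt.fill] c = c := by
      obtain ⟨q, σ⟩ := c
      simp [RLT.run, stp, Op.apply]
    rw [h1, run_append, h2, ih]

lemma run_children {m : ℕ} (T : Fin m → List Lt) (g : Fin m → Bool)
    (hT : ∀ b f σ, RLT.run stp (T b) ((f, Md.S), σ) = ((g b, Md.S), σ)) (L : List (Fin m))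
    (f : Bool) (σ : List Sk) :
    ∃ f' : Bool, RLT.run stp (L.flatMap fun b => T b ++ List.replicate (2 ^ (b : ℕ)) Lt.pad)
        ((f, Md.S), σ) =
      ((f', Md.S), List.replicate ((L.map fun b => if g b = true then 2 ^ (b : ℕ) else 0).sum)
        Sk.un ++ σ) := by
  induction L generalizing f σ with
  | nil => exact ⟨f, by simp [run_nil]⟩
  | cons b L ih =>
    obtain ⟨f', hf'⟩ := ih (g b)
      (List.replicate (if g b = true then 2 ^ (b : ℕ) else 0) Sk.un ++ σ)
    refine ⟨f', ?_⟩
    rw [List.flatMap_cons, run_append, run_append, hT, run_pads, hf', ← List.append_assoc,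
      List.replicate_append_replicate, List.map_cons, List.sum_cons, Nat.add_comm]

lemma run_side {m : ℕ} (T : Fin m → List Lt) (g : Fin m → Bool)
    (hT : ∀ b f σ, RLT.run stp (T b) ((f, Md.S), σ) = ((g b, Md.S), σ))
    (f : Bool) (σ : List Sk) :
    ∃ f' : Bool, RLT.run stp
        ((List.finRange m).flatMap fun b => T b ++ List.replicate (2 ^ (b : ℕ)) Lt.pad)
        ((f, Md.S), σ) = ((f', Md.S), List.replicate (val g) Sk.un ++ σ) := by
  obtain ⟨f', hf'⟩ := run_children T g hT (List.finRange m) f σ
  refine ⟨f', ?_⟩
  rw [hf']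
  have h1 : val g = ((List.finRange m).map fun b : Fin m =>
      if g b = true then 2 ^ (b : ℕ) else 0).sum := by
    unfold val
    exact Fin.sum_univ_def _
  rw [h1]

lemma run_tree (hACB : ACB_Stmt) (hDIG : NQ2.DIG_Stmt) {m l : ℕ} (ga : ℕ)
    (x : List (Dr m) → Bool → Idx m → Fin l → Bool) (h : ℕ) :
    ∀ (v : List (Dr m)) (f : Bool) (σ : List Sk),
      RLT.run stp (treeW ga x h v) ((f, Md.S), σ) = ((bt x h v, Md.S), σ) := by
  induction h with
  | zero =>
    intro v f σ
    have hv0 : val (fun _ : Fin m => false) = 0 := hDIG.2.2.2.1 m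
    have h1 := (hACB m l ga (x v false) (fun _ => false) f σ).1
    have h2 := (hACB m l ga (x v true) (fun _ => false) false σ).2
      (x v false fun _ => false)
    rw [hv0, List.replicate_zero, List.nil_append] at h1 h2
    have e1 : RLT.run stp (Lt.op :: listW ga false (x v false)) ((f, Md.S), σ) =
        ((false, Md.S), (List.ofFn (x v false fun _ => false)).reverse.map Sk.bt ++ σ) := by
      rw [run_op, h1]
    have e2 := run_op (listW ga true (x v true)) false Md.S
      ((List.ofFn (x v false fun _ => false)).reverse.map Sk.bt ++ σ)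
    unfold treeW
    rw [run_append, e1, e2, h2]
    rfl
  | succ h ih =>
    intro v f σ
    obtain ⟨f1, hf1⟩ := run_side (fun b : Fin m => treeW ga x h ((false, b) :: v))
      (fun b => bt x h ((false, b) :: v)) (fun b f σ => ih ((false, b) :: v) f σ) f
      (Sk.mk :: σ)
    have h1 := (hACB m l ga (x v false) (fun b => bt x h ((false, b) :: v)) f1 σ).1
    obtain ⟨f2, hf2⟩ := run_side (fun b : Fin m => treeW ga x h ((true, b) :: v))
      (fun b => bt x h ((true, b) :: v)) (fun b f σ => ih ((true, b) :: v) f σ) false
      (Sk.mk :: ((List.ofFn (x v false fun b => bt x h ((false, b) :: v))).reverse.map Sk.bt ++ σ))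
    have h2 := (hACB m l ga (x v true) (fun b => bt x h ((true, b) :: v)) f2 σ).2
      (x v false fun b => bt x h ((false, b) :: v))
    have e1 : RLT.run stp (Lt.op :: (((List.finRange m).flatMap fun b : Fin m =>
        treeW ga x h ((false, b) :: v) ++ List.replicate (2 ^ (b : ℕ)) Lt.pad) ++
          listW ga false (x v false))) ((f, Md.S), σ) =
        ((false, Md.S), (List.ofFn (x v false fun b => bt x h ((false, b) :: v))).reverse.map
          Sk.bt ++ σ) := by
      rw [run_op, run_append, hf1, h1]
    have e2 : RLT.run stp (Lt.op :: (((List.finRange m).flatMap fun b : Fin m =>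
        treeW ga x h ((true, b) :: v) ++ List.replicate (2 ^ (b : ℕ)) Lt.pad) ++
          listW ga true (x v true))) ((false, Md.S),
            (List.ofFn (x v false fun b => bt x h ((false, b) :: v))).reverse.map Sk.bt ++ σ) =
        ((ip (x v false fun b => bt x h ((false, b) :: v))
          (x v true fun b => bt x h ((true, b) :: v)), Md.S), σ) := by
      rw [run_op, run_append, hf2, h2]
    unfold treeW
    rw [run_append, e1, e2]
    rfl

end ACCx

theorem t_ACC (hACB : ACB_Stmt) (hDIG : NQ2.DIG_Stmt) : ACC_Stmt := by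
  intro m l ga d n x
  unfold wordW
  show (RLT.run stp _ ((false, Md.S), [])).1.1 = true ↔ _
  rw [ACCx.run_append, ACCx.run_tree hACB hDIG, ACCx.run_fills]

end Pool.Agent.CPG
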