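import Pool.Agent.CPG.St

/-!
Project CPG: module COV (every run is covered by hints).
-/

set_option autoImplicit false

namespace Pool.Agent.CPG

open Pool.Agent.Heads Pool.Agent.NQ2

namespace COVx

theorem run_split {k : ℕ} {Z B : Type} (M : BM k Z B) (x : Z → B) (j0 n : ℕ) :
    M.run x j0 (M.run x 0 M.c0 j0) n = M.run x 0 M.c0 (j0 + n) := by
  rw [run_add M x 0 M.c0 j0 n, Nat.zero_add]

/-- One group of hints. -/
theorem group (hP1 : P1_Stmt) (hP2 : P2_Stmt) (hDPN : DPN_Stmt) {k m d l th th' q T S : ℕ}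
    (M : BM k (Zt m d) (Fin l → Bool)) (ρ : Fin S → ℕ) (x : Inp m d l) (o : Nd m d → Fin th)
    (hq : 2 * q ≤ th') (hS : Smp M x T q ρ) (j0 : ℕ) (v : List (Dr m)) (e : Dr m) (tau : ℕ)
    (hv : v.length < d) (htau : j0 + tau < T) (hR : Rq M x o v (j0 + tau))
    (hno : ∀ i, i ≠ e → ∀ j < tau, ¬ Rq M x o (i :: v) (j0 + j)) :
    ∃ κ : Kd T k S, HEv M x o th' ρ j0 (M.run x 0 M.c0 j0) (⟨v, hv.le⟩, e, κ) := by
  obtain ⟨-, -, -, hD4⟩ := hDPN m d l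
  rcases hP2 k m d l th S M x o ρ v j0 tau T th' q hq htau hS hR with hco | hbad | hsam
  · choose hv' h hh using hco
    refine ⟨Sum.inl (⟨tau, by omega⟩, h), hv, ?_⟩
    intro i hi
    refine ⟨hP1 k m d l th M x o (i :: v) j0 tau (hno i hi), ?_⟩
    refine ⟨(⟨v, hv' i.1⟩, i.1, idx x v i.1), ?_, ?_⟩
    · rw [run_split]
      exact hh i.1
    · exact hD4 x v i.1 i.2 hv
  · refine ⟨Sum.inr (Sum.inr ()), ?_⟩
    have h1 : ofs o v = (o ⟨v, hv.le⟩ : ℕ) := dif_pos hv.le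
    rw [h1] at hbad
    exact hbad
  · obtain ⟨s, i, h1, h2, hv', h, hh⟩ := hsam
    refine ⟨Sum.inr (Sum.inl (s, i, h)), hv, ?_⟩
    intro b hb
    refine ⟨(hP1 k m d l th M x o ((s, b) :: v) j0 tau (hno (s, b) hb)).mono (by omega), ?_⟩
    refine ⟨(⟨v, hv'⟩, s, idx x v s), ?_, ?_⟩
    · rw [run_split, Nat.add_sub_cancel' h1]
      exact hh
    · exact hD4 x v s b hv

end COVx

open COVx

theorem t_COV (hPBL : PBL_Stmt) (hP1 : P1_Stmt) (hP2 : P2_Stmt) (hDPN : DPN_Stmt) :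
    COV_Stmt := by
  intro k m d l th th' q T S M ρ x o hm hq hS hroot
  obtain ⟨jr, hjr, hRr⟩ := hroot
  rcases hPBL m d T (fun v j => j < T ∧ Rq M x o v j) hm (fun v j h => h.1) ⟨jr, hjr, hRr⟩ with
    ⟨v, e, tau, hv, htau, hR, hno⟩ | ⟨j0, v, e, tau, hj0, hgr, hsep⟩
  · left
    obtain ⟨κ, hκ⟩ := group hP1 hP2 hDPN M ρ x o hq hS 0 v e tau hv (by omega)
      (by rw [Nat.zero_add]; exact hR.2)
      (fun i hi j hj hc => hno i hi j hj ⟨by omega, by rw [Nat.zero_add] at hc; exact hc⟩)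
    exact ⟨_, hκ⟩
  · right
    refine ⟨j0, hj0, ?_⟩
    have hg : ∀ t : Fin d, ∃ κ : Kd T k S,
        HEv M x o th' ρ j0 (M.run x 0 M.c0 j0) (⟨v t, (hgr t).1.le⟩, e t, κ) := by
      intro t
      obtain ⟨h1, h2, h3, h4⟩ := hgr t
      exact group hP1 hP2 hDPN M ρ x o hq hS j0 (v t) (e t) (tau t) h1 h2 h3.2
        (fun i hi j hj hc => h4 i hi j hj ⟨by omega, hc⟩)
    choose κ hκ using hg
    refine ⟨fun t => (⟨v t, (hgr t).1.le⟩, e t, κ t), ?_, hκ⟩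
    intro t t' i i' hi hi' hne
    exact hsep t t' i i' hi hi' hne

end Pool.Agent.CPG
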