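import Pool.Agent.CPG.StP

/-!
Project CPG (MP_5e85fc_lc): the lower bound for time dependent automata, assembled.
-/

set_option autoImplicit false

namespace Pool.Agent.CPG

open Pool.Agent.Heads Pool.Agent.NQ2 Filter

lemma avg_ind {X : Type} [Fintype X] (P : X → Prop) :
    avg (fun x => ind (P x)) = ({x | P x}.ncard : ℝ) / (Fintype.card X : ℝ) := by
  classical
  unfold avg ind
  congr 1
  rw [Finset.sum_ite, Finset.sum_const_zero, add_zero, Finset.sum_const, nsmul_eq_mul, mul_one]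
  congr 1
  rw [← Set.ncard_coe_finset]
  congr 1
  ext x
  simp

/-- The bound on the number of states and heads. -/
noncomputable def bnd (c : ℝ) (n : ℕ) : ℝ :=
  Real.exp (c * (Real.log n) ^ 2 / Real.log (Real.log n))

/-- The language is hard on average for time dependent deterministic automata. -/
def Hard (e c : ℝ) (n : ℕ) (H : Finset (List Lt)) : Prop :=
  H.Nonempty ∧ (∀ w ∈ H, w.length = n) ∧
    ∀ (k : ℕ) (Q : Type) (_ : Finite Q) (q0 : Q) (acc : Set Q)
      (δ : ℕ → Q → (Fin k → Sym Lt) → Q × (Fin k → Dir)) (t : ℕ),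
      (Nat.card Q : ℝ) * ((n : ℝ) + 2) ^ k ≤ bnd c n →
      (t : ℝ) ≤ (n : ℝ) ^ (3 / 2 - e) →
      ({w | w ∈ H ∧ (w ∈ Lang ↔ ∃ i ≤ t, (grun δ q0 w i).1 ∈ acc)}.ncard : ℝ) ≤
        (1 / 2 + (n : ℝ) ^ (-c)) * H.card

theorem core (hABS : ABS_Stmt) (hGM : GMACH_Stmt) (hLEN : LEN_Stmt) (hLAY : LAY_Stmt)
    (hINJ : INJ_Stmt) (hPAR : PAR_Stmt) (hACC : ACC_Stmt) (e : ℝ) (he : 0 < e) (he2 : e ≤ 1 / 4) :
    ∃ c : ℝ, 0 < c ∧ ∀ᶠ n : ℕ in atTop, ∃ H, Hard e c n H := by
  classical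
  obtain ⟨c, hc, hev⟩ := hPAR e he he2
  refine ⟨c, hc, ?_⟩
  filter_upwards [hev] with n hn
  obtain ⟨d, m, l, la, th, th', q, S, hm, hla, hq, hth, hth', hqq, hlen, herr⟩ := hn
  set W : Inp m d l → List Lt := fun x => wordW (2 * la) d n (ext x) with hW
  have hWlen : ∀ x, (W x).length = n := fun x => (hLEN m l (2 * la)).2.2.2 _ d n hlen
  have hWinj : Function.Injective W := fun x x' h => hINJ m d l (2 * la) n x x' h
  haveI : Nonempty (Inp m d l) := ⟨fun _ _ => false⟩
  refine ⟨Finset.univ.image W, ?_, ?_, ?_⟩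
  · exact Finset.univ_nonempty.image W
  · intro w hw
    obtain ⟨x, -, rfl⟩ := Finset.mem_image.1 hw
    exact hWlen x
  · intro k Q hQ q0 acc δ t h1 h2
    obtain ⟨own, ho1, ho2⟩ := hLAY m d l (2 * la) n
    obtain ⟨N, hN1, hN2⟩ := hGM Lt k Q q0 acc δ (Zt m d) (Fin l → Bool) W n la t own
      hWlen hla ho1 ho2
    have hA := hABS k m d l th th' q (t / la + 1) S N hm (Nat.succ_pos _) hq hth hth' hqq
    have hcQ : (1 : ℝ) ≤ Nat.card Q := by
      haveI : Nonempty Q := ⟨q0⟩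
      exact_mod_cast Nat.card_pos
    have hcN : (1 : ℝ) ≤ Fintype.card N.C := by
      haveI : Nonempty N.C := ⟨N.c0⟩
      exact_mod_cast Fintype.card_pos
    have hE := herr k t (Nat.card Q) (Fintype.card N.C) hcQ h1 hcN hN1 h2
    rw [avg_ind] at hA
    have hX : (0 : ℝ) < Fintype.card (Inp m d l) := by exact_mod_cast Fintype.card_pos
    have hcard : ((Finset.univ.image W).card : ℝ) = Fintype.card (Inp m d l) := by
      rw [Finset.card_image_of_injective _ hWinj, Finset.card_univ]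
    have hset : {w | w ∈ Finset.univ.image W ∧ (w ∈ Lang ↔
        ∃ i ≤ t, (grun δ q0 w i).1 ∈ acc)} = W '' {x | N.out (N.run x 0 N.c0 (t / la + 1)) ↔
          btD x [] = true} := by
      ext w
      simp only [Set.mem_setOf_eq, Finset.mem_image, Finset.mem_univ, true_and, Set.mem_image]
      constructor
      · rintro ⟨⟨x, rfl⟩, h⟩
        refine ⟨x, ?_, rfl⟩
        rw [hN2 x, ← h, hACC m l (2 * la) d n (ext x)]
        simp [btD]
      · rintro ⟨x, h, rfl⟩
        refine ⟨⟨x, rfl⟩, ?_⟩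
        rw [← hN2 x, h, hACC m l (2 * la) d n (ext x)]
        simp [btD]
    rw [hset, Set.ncard_image_of_injective _ hWinj, hcard]
    rw [div_le_iff₀ hX] at hA
    refine hA.trans ?_
    exact mul_le_mul_of_nonneg_right (by linarith) hX.le

end Pool.Agent.CPG
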