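import Pool.Agent.CPG.St

/-!
Project CPG (MP_5e85fc_lc), module DPN: which blocks a bit and an index depend on.
-/

set_option autoImplicit false

namespace Pool.Agent.CPG

open Pool.Agent.Heads Pool.Agent.NQ2

namespace DPNx

theorem bt_congr {m l : ℕ} (x x' : List (Dr m) → Bool → Idx m → Fin l → Bool) (h : ℕ) :
    ∀ v : List (Dr m), (∀ u, v <:+ u → x u = x' u) → bt x h v = bt x' h v := by
  induction h with
  | zero =>
    intro v H
    show ip (x v false fun _ => false) (x v true fun _ => false) =
      ip (x' v false fun _ => false) (x' v true fun _ => false)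
    rw [H v (List.suffix_refl v)]
  | succ h ih =>
    intro v H
    have h1 : ∀ s : Bool, (fun b => bt x h ((s, b) :: v)) = fun b => bt x' h ((s, b) :: v) :=
      fun s => funext fun b =>
        ih ((s, b) :: v) fun u hu => H u ((List.suffix_cons (s, b) v).trans hu)
    show ip (x v false fun b => bt x h ((false, b) :: v))
        (x v true fun b => bt x h ((true, b) :: v)) =
      ip (x' v false fun b => bt x' h ((false, b) :: v))
        (x' v true fun b => bt x' h ((true, b) :: v))
    rw [H v (List.suffix_refl v), h1 false, h1 true]

theorem ext_congr {m d l : ℕ} {x x' : Inp m d l} {v : List (Dr m)}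
    (h : ∀ z : Zt m d, v <:+ z.1.1 → x z = x' z) (u : List (Dr m)) (hu : v <:+ u) :
    ext x u = ext x' u := by
  funext s a
  unfold ext
  split_ifs with hl
  · exact h (⟨u, hl⟩, s, a) hu
  · rfl

theorem btD_congr {m d l : ℕ} {x x' : Inp m d l} {v : List (Dr m)}
    (h : ∀ z : Zt m d, v <:+ z.1.1 → x z = x' z) : btD x v = btD x' v :=
  bt_congr _ _ _ v (ext_congr h)

end DPNx

open DPNx in
theorem t_DPN : DPN_Stmt := by
  intro m d l
  refine ⟨fun x x' v h => btD_congr h, fun x x' v s h => ?_, fun x v hv => ?_,
    fun x v s b hv => ?_⟩
  · unfold idx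
    split_ifs with hl
    · funext b
      refine btD_congr fun z hz => h z ((List.suffix_cons (s, b) v).trans hz) fun e => ?_
      have h1 := hz.length_le
      rw [← e, List.length_cons] at h1
      omega
    · rfl
  · rcases Nat.lt_or_ge v.length d with hl | hl
    · have e : d - v.length = (d - (v.length + 1)) + 1 := by omega
      have h1 : ∀ s : Bool, idx x v s = fun b => bt (ext x) (d - (v.length + 1)) ((s, b) :: v) := by
        intro s
        unfold idx
        rw [if_pos hl]
        rfl
      rw [h1 false, h1 true]
      unfold btD
      rw [e]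
      show ip (ext x v false fun b => bt (ext x) (d - (v.length + 1)) ((false, b) :: v))
        (ext x v true fun b => bt (ext x) (d - (v.length + 1)) ((true, b) :: v)) = _
      have h2 : ∀ (s : Bool) (a : Idx m), ext x v s a = x (⟨v, hv⟩, s, a) := by
        intro s a
        unfold ext
        rw [dif_pos hv]
      rw [h2, h2]
    · have e : d - v.length = 0 := by omega
      have h1 : ∀ s : Bool, idx x v s = fun _ => false := by
        intro s
        unfold idx
        rw [if_neg (by omega)]
      rw [h1 false, h1 true]
      unfold btD
      rw [e]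
      show ip (ext x v false fun _ => false) (ext x v true fun _ => false) = _
      have h2 : ∀ (s : Bool) (a : Idx m), ext x v s a = x (⟨v, hv⟩, s, a) := by
        intro s a
        unfold ext
        rw [dif_pos hv]
      rw [h2, h2]
  · unfold idx
    rw [if_pos hv]

end Pool.Agent.CPG
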