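import Pool.Agent.NQ2.St2
import Pool.Agent.NQ2.PFAC
import Pool.Agent.RLT.St3

/-!
Project CPG (problem MP_5e85fc_lc): definitions.
-/

set_option autoImplicit false

namespace Pool.Agent.CPG

open Pool.Agent.Heads Pool.Agent.NQ2

/-! ### The tree and its bits -/

/-- The directions: a side and the number of a bit of an index. -/
abbrev Dr (m : ℕ) := Bool × Fin m

/-- The inner product modulo 2. -/
def ip {l : ℕ} (f g : Fin l → Bool) : Bool :=
  decide (Odd (Finset.univ.filter fun t : Fin l => (f t && g t) = true).card)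

/-- The bit of the node `v` of height `h`; the children of `v` are the words `(s, b) :: v`. The data
`x v s a` is the content of the block number `a` in the list of the side `s` of the node `v`; the bit
of `v` is the inner product of the two blocks whose indices are made of the bits of the children. -/
def bt {m l : ℕ} (x : List (Dr m) → Bool → Idx m → Fin l → Bool) : ℕ → List (Dr m) → Bool
  | 0, v => ip (x v false fun _ => false) (x v true fun _ => false)
  | h + 1, v => ip (x v false fun b => bt x h ((false, b) :: v))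
      (x v true fun b => bt x h ((true, b) :: v))

/-- The nodes of the tree of depth `d`. -/
abbrev Nd (m d : ℕ) := {v : List (Dr m) // v.length ≤ d}

noncomputable instance Nd.fintype (m d : ℕ) : Fintype (Nd m d) :=
  (List.finite_length_le (Dr m) d).fintype

/-- The blocks: a node, a side, the index in the list. -/
abbrev Zt (m d : ℕ) := Nd m d × Bool × Idx m

/-- The inputs: the contents of all blocks. -/
abbrev Inp (m d l : ℕ) := Zt m d → Fin l → Bool

/-- An input as a function on all words. -/
def ext {m d l : ℕ} (x : Inp m d l) : List (Dr m) → Bool → Idx m → Fin l → Bool :=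
  fun v s a => if h : v.length ≤ d then x (⟨v, h⟩, s, a) else fun _ => false

/-- The bit of the node `v` in the tree of depth `d`. -/
def btD {m d l : ℕ} (x : Inp m d l) (v : List (Dr m)) : Bool := bt (ext x) (d - v.length) v

/-- The index of the right block of the side `s` of the node `v`. -/
def idx {m d l : ℕ} (x : Inp m d l) (v : List (Dr m)) (s : Bool) : Idx m :=
  if v.length < d then fun b => btD x ((s, b) :: v) else fun _ => false

/-! ### Visits -/

/-- The number of the `j < n` with `P j`. -/
noncomputable def cnt (P : ℕ → Prop) (n : ℕ) : ℕ := by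
  classical exact ((Finset.range n).filter P).card

/-- The right block of the side `s` of the node `v` is covered in the configuration `c`. -/
def cv {k m d l : ℕ} (M : BM k (Zt m d) (Fin l → Bool)) (x : Inp m d l) (v : List (Dr m))
    (s : Bool) (c : M.C) : Prop :=
  ∃ (hv : v.length ≤ d) (h : Fin k), M.cov c h = some (⟨v, hv⟩, s, idx x v s)

/-- The node `v` is hidden in the `n` steps from the configuration `c` at time `j0`: the two right
blocks are never covered at the same time, and there are fewer than `th` times at which one of them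
is covered. -/
def Hid {k m d l : ℕ} (M : BM k (Zt m d) (Fin l → Bool)) (x : Inp m d l) (v : List (Dr m))
    (j0 : ℕ) (c : M.C) (n th : ℕ) : Prop :=
  (∀ j < n, ¬ ∀ s, cv M x v s (M.run x j0 c j)) ∧
    cnt (fun j => ∃ s, cv M x v s (M.run x j0 c j)) n < th

/-- The event for the node `u`: it is hidden before the time `tau`, and at time `tau` the head `h`
covers a block whose index has the bit of `u` as bit number `b`. -/
def EvU {k m d l : ℕ} (M : BM k (Zt m d) (Fin l → Bool)) (j0 : ℕ) (c : M.C) (x : Inp m d l)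
    (u : List (Dr m)) (tau : ℕ) (h : Fin k) (b : Fin m) (th : ℕ) : Prop :=
  Hid M x u j0 c tau th ∧ ∃ z : Zt m d, M.cov (M.run x j0 c tau) h = some z ∧ z.2.2 b = btD x u

/-- The number of the visits of the node `v` before the time `j`. -/
noncomputable def nv {k m d l : ℕ} (M : BM k (Zt m d) (Fin l → Bool)) (x : Inp m d l)
    (v : List (Dr m)) (j : ℕ) : ℕ :=
  cnt (fun i => ∃ s, cv M x v s (M.run x 0 M.c0 i)) j

/-- The offset of `v`. -/
def ofs {m d th : ℕ} (o : Nd m d → Fin th) (v : List (Dr m)) : ℕ :=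
  if h : v.length ≤ d then (o ⟨v, h⟩ : ℕ) else 0

/-- The point event of the node `v` at the time `j`: both right blocks are covered, or one of them
is and the number of this visit is the offset of `v` modulo `th`. -/
def Rq {k m d l th : ℕ} (M : BM k (Zt m d) (Fin l → Bool)) (x : Inp m d l)
    (o : Nd m d → Fin th) (v : List (Dr m)) (j : ℕ) : Prop :=
  (∀ s, cv M x v s (M.run x 0 M.c0 j)) ∨
    ((∃ s, cv M x v s (M.run x 0 M.c0 j)) ∧ (nv M x v j + 1) % th = ofs o v)

/-- The offset `a` is bad after `n` visits. -/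
def Bad (th th' n a : ℕ) : Prop := ∃ i, 1 ≤ i ∧ i < th' ∧ (n + i) % th = a

/-- The sample times `ρ` are good: if one of the right blocks is covered at least `q` times during
`n` steps from the time `j0` on, then it is covered at a sample time. -/
def Smp {k m d l S : ℕ} (M : BM k (Zt m d) (Fin l → Bool)) (x : Inp m d l) (T q : ℕ)
    (ρ : Fin S → ℕ) : Prop :=
  ∀ (v : List (Dr m)) (s : Bool) (j0 n : ℕ), j0 + n ≤ T →
    q ≤ cnt (fun j => cv M x v s (M.run x 0 M.c0 (j0 + j))) n →
    ∃ i, j0 ≤ ρ i ∧ ρ i < j0 + n ∧ cv M x v s (M.run x 0 M.c0 (ρ i))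

/-! ### Hints -/

/-- The kinds of hints: a time and two heads; a side, the number of a sample time and a head;
nothing. -/
abbrev Kd (T k S : ℕ) := (Fin T × (Bool → Fin k)) ⊕ ((Bool × Fin S × Fin k) ⊕ Unit)

/-- The hints: a node, a direction, a kind. -/
abbrev Ht (m d T k S : ℕ) := Nd m d × Dr m × Kd T k S

/-- The event of a hint. -/
def HEv {k m d l th T S : ℕ} (M : BM k (Zt m d) (Fin l → Bool)) (x : Inp m d l)
    (o : Nd m d → Fin th) (th' : ℕ) (ρ : Fin S → ℕ) (j0 : ℕ) (c : M.C) : Ht m d T k S → Prop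
  | (v, e, Sum.inl (tau, h)) =>
    v.1.length < d ∧ ∀ i : Dr m, i ≠ e → EvU M j0 c x (i :: v.1) tau (h i.1) i.2 th
  | (v, e, Sum.inr (Sum.inl (s, i, h))) =>
    v.1.length < d ∧ ∀ b : Fin m, (s, b) ≠ e → EvU M j0 c x ((s, b) :: v.1) (ρ i - j0) h b th
  | (v, _, Sum.inr (Sum.inr _)) => Bad th th' (nv M x v.1 j0) (o v)

/-- The weight of a hint. -/
noncomputable def wt {T k S : ℕ} (m th th' : ℕ) : Kd T k S → ℝ
  | Sum.inl _ => (1 / 2) ^ (2 * m - 1)
  | Sum.inr (Sum.inl _) => (1 / 2) ^ (m - 1)
  | Sum.inr (Sum.inr _) => (th' : ℝ) / th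

/-- No node of the hints is in the subtree of another one. -/
def Sep {m d T k S G : ℕ} (η : Fin G → Ht m d T k S) : Prop :=
  ∀ t t' i i', i ≠ (η t).2.1 → i' ≠ (η t').2.1 → (t, i) ≠ (t', i') →
    ¬ ((i :: (η t).1.1) <:+ (i' :: (η t').1.1))

/-- The total weight of the hints. -/
noncomputable def Gh (m d T k S th th' : ℕ) : ℝ :=
  (Fintype.card (Nd m d) : ℝ) * (2 * m) *
    (T * (k : ℝ) ^ 2 * (1 / 2) ^ (2 * m - 1) + 2 * S * k * (1 / 2) ^ (m - 1) + (th' : ℝ) / th)

/-- The number of the hints. -/
noncomputable def Gn (m d T k S : ℕ) : ℝ :=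
  (Fintype.card (Nd m d) : ℝ) * (2 * m) * (T * (k : ℝ) ^ 2 + 2 * S * k + 1)

/-- The error of the lower bound for a machine with `N` configurations and `T` steps. -/
noncomputable def Er (m d l T k S th th' q : ℕ) (N : ℝ) : ℝ :=
  N ^ th * Poly.bet 1 ^ l +
  2 * (Fintype.card (Nd m d) : ℝ) * T * Real.exp (-((q : ℝ) * S / T)) +
  (Gh m d T k S th th' + Gn m d T k S * (2 * m * (N ^ th * Poly.bet 1 ^ l))) +
  (T + 1) * N * (Gh m d T k S th th' ^ d +
    Gn m d T k S ^ d * (2 * m * d * (N ^ th * Poly.bet 1 ^ l)))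

/-! ### Words -/

/-- The letters. -/
inductive Lt where
  | op : Lt
  | pad : Lt
  | mark : Bool → Lt
  | bit : Bool → Lt
  | en : Lt
  | fill : Lt
  deriving DecidableEq

/-- A block of the side `s` with a gap of length `ga`; on the side `true` the bits are written in
reverse order. -/
def blockW {l : ℕ} (ga : ℕ) (s : Bool) (f : Fin l → Bool) : List Lt :=
  Lt.mark s :: (List.replicate ga Lt.fill ++
    (if s = true then (List.ofFn f).reverse else List.ofFn f).map Lt.bit)

/-- The list of the blocks of one side. -/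
def listW {m l : ℕ} (ga : ℕ) (s : Bool) (D : Idx m → Fin l → Bool) : List Lt :=
  ((List.range (2 ^ m)).flatMap fun j => blockW ga s (D (bitsOf m j))) ++ [Lt.en]

/-- The word of the tree with root `v` and height `h`. -/
def treeW {m l : ℕ} (ga : ℕ) (x : List (Dr m) → Bool → Idx m → Fin l → Bool) :
    ℕ → List (Dr m) → List Lt
  | 0, v => (Lt.op :: listW ga false (x v false)) ++ (Lt.op :: listW ga true (x v true))
  | h + 1, v =>
    (Lt.op :: (((List.finRange m).flatMap fun b : Fin m =>
      treeW ga x h ((false, b) :: v) ++ List.replicate (2 ^ (b : ℕ)) Lt.pad) ++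
        listW ga false (x v false))) ++
    (Lt.op :: (((List.finRange m).flatMap fun b : Fin m =>
      treeW ga x h ((true, b) :: v) ++ List.replicate (2 ^ (b : ℕ)) Lt.pad) ++
        listW ga true (x v true)))

/-- The word of length `n` of a tree. -/
def wordW {m l : ℕ} (ga d n : ℕ) (x : List (Dr m) → Bool → Idx m → Fin l → Bool) : List Lt :=
  treeW ga x d [] ++ List.replicate (n - (treeW ga x d []).length) Lt.fill

/-- The length of the list of one side. -/
def listLen (m l ga : ℕ) : ℕ := 2 ^ m * (1 + ga + l) + 1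

/-- The length of the word of a tree of height `h`. -/
def treeLen (m l ga : ℕ) : ℕ → ℕ
  | 0 => 2 * (1 + listLen m l ga)
  | h + 1 => 2 * (1 + (m * treeLen m l ga h + (2 ^ m - 1)) + listLen m l ga)

/-! ### The real-time machine -/

/-- The modes: search, selected block of a side, block selected and over. -/
inductive Md where
  | S : Md
  | B : Bool → Md
  | K : Md
  deriving DecidableEq

/-- The stack symbols: unit, marker, bit. -/
inductive Sk where
  | un : Sk
  | mk : Sk
  | bt : Bool → Sk
  deriving DecidableEq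

/-- The real-time machine; the states are a flag and a mode. -/
def stp : Lt → Bool × Md → Option Sk → (Bool × Md) × Op Sk
  | .op, (f, _), _ => ((f, .S), .push .mk)
  | .pad, (f, md), _ => ((f, md), if f = true then .push .un else .none)
  | .mark _, (f, .S), some .un => ((f, .S), .pop)
  | .mark s, (_, .S), some .mk => ((false, .B s), .pop)
  | .mark _, (f, .S), _ => ((f, .K), .none)
  | .mark _, (f, _), _ => ((f, .K), .none)
  | .bit v, (f, .B false), _ => ((f, .B false), .push (.bt v))
  | .bit v, (f, .B true), some (.bt u) => ((xor f (u && v), .B true), .pop)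
  | .bit _, q, _ => (q, .none)
  | .en, (f, _), _ => ((f, .S), .none)
  | .fill, q, _ => (q, .none)

/-- The language: the flag is `true` after the word. -/
def Lang : Set (List Lt) := {w | (RLT.run stp w ((false, Md.S), [])).1.1 = true}

instance Lt.finite : Finite Lt := by
  refine Finite.of_surjective (α := Fin 4 ⊕ Bool ⊕ Bool)
    (fun x => match x with
      | Sum.inl 0 => Lt.op
      | Sum.inl 1 => Lt.pad
      | Sum.inl 2 => Lt.en
      | Sum.inl 3 => Lt.fill
      | Sum.inr (Sum.inl v) => Lt.mark v
      | Sum.inr (Sum.inr v) => Lt.bit v) ?_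
  intro q
  cases q with
  | op => exact ⟨Sum.inl 0, rfl⟩
  | pad => exact ⟨Sum.inl 1, rfl⟩
  | en => exact ⟨Sum.inl 2, rfl⟩
  | fill => exact ⟨Sum.inl 3, rfl⟩
  | mark v => exact ⟨Sum.inr (Sum.inl v), rfl⟩
  | bit v => exact ⟨Sum.inr (Sum.inr v), rfl⟩

instance Md.finite : Finite Md := by
  refine Finite.of_surjective (α := Bool ⊕ Bool)
    (fun x => match x with
      | Sum.inl true => Md.S
      | Sum.inl false => Md.K
      | Sum.inr v => Md.B v) ?_
  intro q
  cases q with
  | S => exact ⟨Sum.inl true, rfl⟩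
  | K => exact ⟨Sum.inl false, rfl⟩
  | B v => exact ⟨Sum.inr v, rfl⟩

instance Sk.finite : Finite Sk := by
  refine Finite.of_surjective (α := Bool ⊕ Bool)
    (fun x => match x with
      | Sum.inl true => Sk.un
      | Sum.inl false => Sk.mk
      | Sum.inr v => Sk.bt v) ?_
  intro q
  cases q with
  | un => exact ⟨Sum.inl true, rfl⟩
  | mk => exact ⟨Sum.inl false, rfl⟩
  | bt v => exact ⟨Sum.inr v, rfl⟩

/-! ### Counting -/

lemma cnt_zero (P : ℕ → Prop) : cnt P 0 = 0 := by simp [cnt]

open scoped Classical in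
lemma cnt_succ (P : ℕ → Prop) (n : ℕ) : cnt P (n + 1) = cnt P n + if P n then 1 else 0 := by
  unfold cnt
  rw [Finset.range_add_one, Finset.filter_insert]
  split_ifs with h
  · rw [Finset.card_insert_of_notMem (by simp)]
  · rfl

lemma cnt_succ_of (P : ℕ → Prop) (n : ℕ) (h : P n) : cnt P (n + 1) = cnt P n + 1 := by
  rw [cnt_succ, if_pos h]

lemma cnt_succ_of_not (P : ℕ → Prop) (n : ℕ) (h : ¬ P n) : cnt P (n + 1) = cnt P n := by
  rw [cnt_succ, if_neg h, add_zero]

lemma cnt_add (P : ℕ → Prop) (a b : ℕ) : cnt P (a + b) = cnt P a + cnt (fun j => P (a + j)) b := by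
  induction b with
  | zero => rw [cnt_zero, add_zero, add_zero]
  | succ b ih => rw [← add_assoc, cnt_succ, cnt_succ, ih, add_assoc]

lemma cnt_mono (P : ℕ → Prop) {a b : ℕ} (h : a ≤ b) : cnt P a ≤ cnt P b := by
  obtain ⟨c, rfl⟩ := Nat.exists_eq_add_of_le h
  rw [cnt_add]
  exact Nat.le_add_right _ _

lemma cnt_congr {P P' : ℕ → Prop} {n : ℕ} (h : ∀ j < n, (P j ↔ P' j)) : cnt P n = cnt P' n := by
  induction n with
  | zero => rw [cnt_zero, cnt_zero]
  | succ n ih =>
    rw [cnt_succ, cnt_succ, ih fun j hj => h j (by omega)]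
    have h1 := h n (by omega)
    by_cases hp : P n
    · rw [if_pos hp, if_pos (h1.1 hp)]
    · rw [if_neg hp, if_neg fun h2 => hp (h1.2 h2)]

lemma cnt_or_le (P P' : ℕ → Prop) (n : ℕ) :
    cnt (fun j => P j ∨ P' j) n ≤ cnt P n + cnt P' n := by
  induction n with
  | zero => simp [cnt_zero]
  | succ n ih =>
    rw [cnt_succ, cnt_succ, cnt_succ]
    by_cases h1 : P n <;> by_cases h2 : P' n <;> simp [h1, h2] <;> omega

lemma run_add {k : ℕ} {Z B : Type} (M : BM k Z B) (x : Z → B) (j0 : ℕ) (c : M.C) (a b : ℕ) :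
    M.run x j0 c (a + b) = M.run x (j0 + a) (M.run x j0 c a) b := by
  induction b with
  | zero => rfl
  | succ b ih =>
    show M.F (j0 + (a + b)) (M.run x j0 c (a + b)) x = _
    rw [ih, ← add_assoc]
    rfl

lemma Hid.mono {k m d l : ℕ} {M : BM k (Zt m d) (Fin l → Bool)} {x : Inp m d l}
    {v : List (Dr m)} {j0 : ℕ} {c : M.C} {n n' th : ℕ} (h : Hid M x v j0 c n th) (hn : n' ≤ n) :
    Hid M x v j0 c n' th :=
  ⟨fun j hj => h.1 j (by omega), (cnt_mono _ hn).trans_lt h.2⟩

end Pool.Agent.CPG
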