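import Pool.Agent.CPG.Core
import Pool.Agent.NQ2.Fin2

/-!
Project CPG (MP_5e85fc_lc): the final theorem from the module statements.
-/

set_option autoImplicit false

namespace Pool.Agent.CPG

open Pool.Agent.Heads Pool.Agent.NQ2 Filter Asymptotics

/-- Polynomials are below `bnd`. -/
lemma poly_le_bnd (c : ℝ) (hc : 0 < c) (A : ℝ) (k : ℕ) :
    ∀ᶠ n : ℕ in atTop, A * ((n : ℝ) + 2) ^ k ≤ bnd c n := by
  have hlog : Tendsto (fun n : ℕ => Real.log (n : ℝ)) atTop atTop :=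
    Real.tendsto_log_atTop.comp tendsto_natCast_atTop_atTop
  have hlog2 : Tendsto (fun n : ℕ => Real.log (Real.log (n : ℝ))) atTop atTop :=
    Real.tendsto_log_atTop.comp hlog
  set B : ℝ := Real.log (|A| + 1) + 2 * k with hB
  have hB0 : 0 ≤ B := by
    have : 0 ≤ Real.log (|A| + 1) := Real.log_nonneg (by linarith [abs_nonneg A])
    positivity
  have h0 : ∀ᶠ n : ℕ in atTop,
      Real.log (Real.log (n : ℝ)) ≤ c / (B + 1) * Real.log (n : ℝ) := by
    have h1 : ∀ᶠ x : ℝ in atTop, Real.log x ≤ c / (B + 1) * x := by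
      have h2 := (Real.isLittleO_log_id_atTop.bound (show 0 < c / (B + 1) by positivity))
      filter_upwards [h2, eventually_ge_atTop 1] with x hx hx1
      have h3 : ‖id x‖ = x := by simp only [id]; exact Real.norm_of_nonneg (by linarith)
      rw [h3] at hx
      exact (le_abs_self _).trans hx
    exact hlog.eventually h1
  filter_upwards [h0, eventually_ge_atTop 2, hlog.eventually_ge_atTop 1,
    hlog2.eventually_ge_atTop 1] with n h1 h2 h3 h4
  have hn2 : (2 : ℝ) ≤ n := by exact_mod_cast h2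
  have hA1 : (0 : ℝ) < |A| + 1 := by positivity
  have e1 : ((n : ℝ) + 2) ≤ Real.exp (2 * Real.log n) := by
    rw [two_mul, Real.exp_add, Real.exp_log (by linarith)]
    nlinarith
  have e2 : A * ((n : ℝ) + 2) ^ k ≤ (|A| + 1) * (Real.exp (2 * Real.log n)) ^ k := by
    have : ((n : ℝ) + 2) ^ k ≤ (Real.exp (2 * Real.log n)) ^ k :=
      pow_le_pow_left₀ (by linarith) e1 k
    calc A * ((n : ℝ) + 2) ^ k ≤ (|A| + 1) * ((n : ℝ) + 2) ^ k :=
          mul_le_mul_of_nonneg_right (by linarith [le_abs_self A]) (by positivity)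
      _ ≤ _ := mul_le_mul_of_nonneg_left this hA1.le
  refine e2.trans ?_
  rw [← Real.exp_nat_mul]
  unfold bnd
  calc (|A| + 1) * Real.exp ((k : ℝ) * (2 * Real.log n))
      = Real.exp (Real.log (|A| + 1) + (k : ℝ) * (2 * Real.log n)) := by
        rw [Real.exp_add, Real.exp_log hA1]
    _ ≤ Real.exp (B * Real.log n) := by
        apply Real.exp_le_exp.2
        have hl : 0 ≤ Real.log (|A| + 1) := Real.log_nonneg (by linarith [abs_nonneg A])
        rw [hB]
        nlinarith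
    _ ≤ _ := by
        apply Real.exp_le_exp.2
        have hY : 0 < Real.log (Real.log (n : ℝ)) := by linarith
        have hX : 0 < Real.log (n : ℝ) := by linarith
        rw [le_div_iff₀ hY]
        have h5 : (B + 1) * Real.log (Real.log (n : ℝ)) ≤ c * Real.log (n : ℝ) := by
          have h6 := mul_le_mul_of_nonneg_left h1 (show 0 ≤ B + 1 by linarith)
          have h7 : (B + 1) * (c / (B + 1) * Real.log (n : ℝ)) = c * Real.log (n : ℝ) := by
            have : B + 1 ≠ 0 := by linarith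
            field_simp
          linarith
        have h8 : B * Real.log (Real.log (n : ℝ)) ≤ c * Real.log (n : ℝ) := by linarith
        have h9 := mul_le_mul_of_nonneg_left h8 hX.le
        nlinarith

/-- The lower bound on average over `H` for two-way `k`-head automata, deterministic and
probabilistic, in time `t`; the number of states satisfies `P`. -/
def AvgLow {α : Type} (L : Set (List α)) (H : Finset (List α)) (k t : ℕ) (P : ℕ → Prop)
    (b : ℝ) : Prop :=
  (∀ M : FA α k, M.Det → P (Nat.card M.Q) →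
    ({w | w ∈ H ∧ (w ∈ L ↔ NQ2.AcceptsIn M w t)}.ncard : ℝ) ≤ b * H.card) ∧
  (∀ M : RFA α k, P (Nat.card M.Q) → ∑ w ∈ H, M.right L w t ≤ b * H.card)

/-- The lower bounds for `Lang`. -/
theorem lang_low (hABS : ABS_Stmt) (hGM : GMACH_Stmt) (hDF : DFAC_Stmt) (hLEN : LEN_Stmt)
    (hLAY : LAY_Stmt) (hINJ : INJ_Stmt) (hPAR : PAR_Stmt) (hACC : ACC_Stmt) (e : ℝ) (he : 0 < e) :
    ∃ c : ℝ, 0 < c ∧ ∀ᶠ n : ℕ in atTop, ∃ H : Finset (List Lt), H.Nonempty ∧
      (∀ w ∈ H, w.length = n) ∧ ∀ k t : ℕ, (t : ℝ) ≤ (n : ℝ) ^ (3 / 2 - e) →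
        AvgLow Lang H k t (fun q => (q : ℝ) * ((n : ℝ) + 2) ^ k ≤ bnd c n)
          (1 / 2 + (n : ℝ) ^ (-c)) := by
  classical
  set e' : ℝ := min e (1 / 4) with he'
  have he'0 : 0 < e' := lt_min he (by norm_num)
  have he'1 : e' ≤ 1 / 4 := min_le_right _ _
  have he'2 : e' ≤ e := min_le_left _ _
  obtain ⟨c, hc, hev⟩ := core hABS hGM hLEN hLAY hINJ hPAR hACC e' he'0 he'1
  -- the lower bound for deterministic automata on a hard set
  have hFA : ∀ n H, Hard e' c n H → ∀ (k : ℕ) (M : FA Lt k) (t : ℕ), M.Det →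
      (Nat.card M.Q : ℝ) * ((n : ℝ) + 2) ^ k ≤ bnd c n →
      (t : ℝ) ≤ (n : ℝ) ^ (3 / 2 - e') →
      ({w | w ∈ H ∧ (w ∈ Lang ↔ NQ2.AcceptsIn M w t)}.ncard : ℝ) ≤
        (1 / 2 + (n : ℝ) ^ (-c)) * H.card := by
    intro n H hH k M t hM h1 h2
    obtain ⟨δ, hδ⟩ := hDF _ k M hM
    have := hH.2.2 k M.Q M.finQ M.start M.accept δ t h1 h2
    simpa only [hδ] using this
  have hbb : ∀ n : ℕ, bnd (c / 2) n * bnd (c / 2) n = bnd c n := by
    intro n
    unfold bnd
    rw [← Real.exp_add]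
    congr 1
    ring
  -- the lower bound for probabilistic automata on a hard set
  have hPF : ∀ n H, Hard e' c n H → 2 ≤ bnd (c / 2) n →
      ∀ (k : ℕ) (M : RFA Lt k) (t : ℕ),
      (Nat.card M.Q : ℝ) * ((n : ℝ) + 2) ^ k ≤ bnd (c / 2) n →
      (t : ℝ) ≤ (n : ℝ) ^ (3 / 2 - e') →
      ∑ w ∈ H, M.right Lang w t ≤ (1 / 2 + (n : ℝ) ^ (-c)) * H.card := by
    intro n H hH hn k M t h1 h2
    have hQ1 : (1 : ℝ) ≤ Nat.card M.Q := by
      haveI : Nonempty M.Q := ⟨M.start⟩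
      haveI := M.finQ
      exact_mod_cast Nat.card_pos
    refine RFA.sum_right_le M _ H t _ fun Q hfQ q0 acc δ hcard => ?_
    refine hH.2.2 k Q hfQ q0 acc δ t ?_ h2
    rw [hcard]
    push_cast
    have h3 : (0 : ℝ) < ((n : ℝ) + 2) ^ k := by positivity
    have h4 : 0 < bnd (c / 2) n := Real.exp_pos _
    calc ((Nat.card M.Q : ℝ) + 1) * ((n : ℝ) + 2) ^ k ≤
          2 * ((Nat.card M.Q : ℝ) * ((n : ℝ) + 2) ^ k) := by nlinarith
      _ ≤ bnd (c / 2) n * bnd (c / 2) n := mul_le_mul hn h1 (by positivity) h4.le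
      _ = bnd c n := hbb n
  have hpow : ∀ n : ℕ, 1 ≤ n → (n : ℝ) ^ (3 / 2 - e) ≤ (n : ℝ) ^ (3 / 2 - e') := fun n hn =>
    Real.rpow_le_rpow_of_exponent_le (by exact_mod_cast hn) (by linarith)
  have hbig : ∀ᶠ n : ℕ in atTop, 2 ≤ bnd (c / 2) n := by
    filter_upwards [poly_le_bnd (c / 2) (by linarith) 2 0] with n hn
    simpa using hn
  have hhalf : ∀ n : ℕ, 2 ≤ bnd (c / 2) n → bnd (c / 2) n ≤ bnd c n := by
    intro n hn
    rw [← hbb n]
    nlinarith
  refine ⟨c / 2, by linarith, ?_⟩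
  filter_upwards [hev, eventually_ge_atTop 1, hbig] with n hn h1 hb
  obtain ⟨H, hH⟩ := hn
  have hn1 : (1 : ℝ) ≤ n := by exact_mod_cast h1
  have hle : (1 / 2 + (n : ℝ) ^ (-c)) * H.card ≤ (1 / 2 + (n : ℝ) ^ (-(c / 2))) * H.card := by
    refine mul_le_mul_of_nonneg_right ?_ (Nat.cast_nonneg _)
    have : (n : ℝ) ^ (-c) ≤ (n : ℝ) ^ (-(c / 2)) :=
      Real.rpow_le_rpow_of_exponent_le hn1 (by linarith)
    linarith
  refine ⟨H, hH.1, hH.2.1, fun k t h3 => ⟨?_, ?_⟩⟩
  · intro M hM h2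
    exact (hFA n H hH k M t hM (h2.trans (hhalf n hb)) (h3.trans (hpow n h1))).trans hle
  · intro M h2
    exact (hPF n H hH hb k M t h2 (h3.trans (hpow n h1))).trans hle

end Pool.Agent.CPG
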