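import Pool.Agent.CPG.St

/-!
# HNT: the probability of a family of hints
-/

set_option autoImplicit false

namespace Pool.Agent.CPG

open Pool.Agent.Heads Pool.Agent.NQ2

namespace HNTx

/-! ### Indicators and averages -/

theorem ind_true {P : Prop} (h : P) : ind P = 1 := by
  unfold ind
  rw [if_pos h]

theorem ind_false {P : Prop} (h : ¬ P) : ind P = 0 := by
  unfold ind
  rw [if_neg h]

theorem ind_nonneg (P : Prop) : 0 ≤ ind P := by
  by_cases h : P
  · rw [ind_true h]
    exact zero_le_one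
  · rw [ind_false h]

theorem ind_mono {P Q : Prop} (h : P → Q) : ind P ≤ ind Q := by
  by_cases hP : P
  · rw [ind_true hP, ind_true (h hP)]
  · rw [ind_false hP]
    exact ind_nonneg Q

theorem ind_and (P Q : Prop) : ind (P ∧ Q) = ind P * ind Q := by
  by_cases hP : P
  · by_cases hQ : Q
    · rw [ind_true hP, ind_true hQ, ind_true ⟨hP, hQ⟩, mul_one]
    · rw [ind_true hP, ind_false hQ, ind_false fun h => hQ h.2, mul_zero]
  · rw [ind_false hP, ind_false fun h => hP h.1, zero_mul]

theorem avg_mono {X : Type} [Fintype X] {f g : X → ℝ} (h : ∀ x, f x ≤ g x) : avg f ≤ avg g := by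
  unfold avg
  exact div_le_div_of_nonneg_right (Finset.sum_le_sum fun x _ => h x) (Nat.cast_nonneg _)

theorem avg_mul {X : Type} [Fintype X] (c : ℝ) (f : X → ℝ) :
    avg (fun x => c * f x) = c * avg f := by
  unfold avg
  rw [← Finset.mul_sum, mul_div_assoc]

theorem avg_zero {X : Type} [Fintype X] : avg (fun _ : X => (0 : ℝ)) = 0 := by
  unfold avg
  rw [Finset.sum_const_zero, zero_div]

/-- The average over pairs is the average of the averages. -/
theorem avg_prod {X O : Type} [Fintype X] [Fintype O] (f : X × O → ℝ) :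
    avg f = avg (fun x => avg (fun o => f (x, o))) := by
  unfold avg
  rw [Fintype.sum_prod_type, Fintype.card_prod, Nat.cast_mul, ← Finset.sum_div, div_div,
    mul_comm (Fintype.card X : ℝ)]

/-! ### The directions of a hint -/

/-- The directions used by a hint. -/
def dirs {m T k S : ℕ} (e : Dr m) : Kd T k S → Finset (Dr m)
  | Sum.inl _ => Finset.univ.filter fun i => i ≠ e
  | Sum.inr (Sum.inl (s, _, _)) => Finset.univ.filter fun i => i ≠ e ∧ i.1 = s
  | Sum.inr (Sum.inr _) => ∅

/-- The time of a hint. -/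
def tm {T k S : ℕ} (ρ : Fin S → ℕ) (j0 : ℕ) : Kd T k S → ℕ
  | Sum.inl (tau, _) => tau
  | Sum.inr (Sum.inl (_, i, _)) => ρ i - j0
  | Sum.inr (Sum.inr _) => 0

/-- The head of a hint. -/
def hd {m T k S : ℕ} (e i : Dr m) : (κ : Kd T k S) → i ∈ dirs e κ → Fin k
  | Sum.inl (_, h), _ => h i.1
  | Sum.inr (Sum.inl (_, _, h)), _ => h
  | Sum.inr (Sum.inr _), hi => absurd hi (Finset.notMem_empty _)

/-- The kind is nothing. -/
def isB {T k S : ℕ} : Kd T k S → Bool
  | Sum.inl _ => false
  | Sum.inr (Sum.inl _) => false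
  | Sum.inr (Sum.inr _) => true

theorem dirs_ne {m T k S : ℕ} {e i : Dr m} {κ : Kd T k S} (h : i ∈ dirs e κ) : i ≠ e := by
  rcases κ with κ | κ | κ
  · exact (Finset.mem_filter.1 h).2
  · exact (Finset.mem_filter.1 h).2.1
  · exact absurd h (Finset.notMem_empty _)

theorem isB_dirs {m T k S : ℕ} {e i : Dr m} {κ : Kd T k S} (h : i ∈ dirs e κ) :
    isB κ = false := by
  rcases κ with κ | κ | κ
  · rfl
  · rfl
  · exact absurd h (Finset.notMem_empty _)

/-- The events of a hint for its directions. -/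
theorem HEv.dir {k m d l th T S : ℕ} {M : BM k (Zt m d) (Fin l → Bool)} {x : Inp m d l}
    {o : Nd m d → Fin th} {th' : ℕ} {ρ : Fin S → ℕ} {j0 : ℕ} {c : M.C} {v : Nd m d} {e : Dr m}
    {κ : Kd T k S} (h : HEv M x o th' ρ j0 c (v, e, κ)) (i : Dr m) (hi : i ∈ dirs e κ) :
    EvU M j0 c x (i :: v.1) (tm ρ j0 κ) (hd e i κ hi) i.2 th := by
  rcases κ with ⟨tau, h'⟩ | ⟨s, j, h'⟩ | κ
  · exact h.2 i (Finset.mem_filter.1 hi).2
  · have h1 := (Finset.mem_filter.1 hi).2
    have h2 := h.2 i.2
    rw [← h1.2] at h2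
    exact h2 h1.1
  · exact absurd hi (Finset.notMem_empty _)

theorem HEv.len {k m d l th T S : ℕ} {M : BM k (Zt m d) (Fin l → Bool)} {x : Inp m d l}
    {o : Nd m d → Fin th} {th' : ℕ} {ρ : Fin S → ℕ} {j0 : ℕ} {c : M.C} {v : Nd m d} {e : Dr m}
    {κ : Kd T k S} (h : HEv M x o th' ρ j0 c (v, e, κ)) (hκ : isB κ = false) :
    v.1.length < d := by
  rcases κ with ⟨tau, h'⟩ | ⟨s, j, h'⟩ | κ
  · exact h.1
  · exact h.1
  · exact absurd hκ (by simp [isB])

theorem HEv.bad {k m d l th T S : ℕ} {M : BM k (Zt m d) (Fin l → Bool)} {x : Inp m d l}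
    {o : Nd m d → Fin th} {th' : ℕ} {ρ : Fin S → ℕ} {j0 : ℕ} {c : M.C} {v : Nd m d} {e : Dr m}
    {κ : Kd T k S} (h : HEv M x o th' ρ j0 c (v, e, κ)) (hκ : isB κ = true) :
    Bad th th' (nv M x v.1 j0) (o v) := by
  rcases κ with ⟨tau, h'⟩ | ⟨s, j, h'⟩ | κ
  · exact absurd hκ (by simp [isB])
  · exact absurd hκ (by simp [isB])
  · exact h

/-- The weight bounds the factor of a hint. -/
theorem fac_le_wt {m T k S : ℕ} (th th' : ℕ) (e : Dr m) (κ : Kd T k S) :
    (if isB κ = true then (th' : ℝ) / th else 1) * (1 / 2) ^ (dirs e κ).card ≤ wt m th th' κ := by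
  rcases κ with κ | ⟨s, j, h⟩ | κ
  · have h1 : (dirs (k := k) (S := S) e (Sum.inl κ)).card = 2 * m - 1 := by
      show (Finset.univ.filter fun i => i ≠ e).card = 2 * m - 1
      rw [Finset.filter_ne', Finset.card_erase_of_mem (Finset.mem_univ _), Finset.card_univ,
        Fintype.card_prod, Fintype.card_bool, Fintype.card_fin]
    rw [h1]
    show (if false = true then (th' : ℝ) / th else 1) * (1 / 2) ^ (2 * m - 1) ≤
      (1 / 2) ^ (2 * m - 1)
    simp
  · have h1 : m - 1 ≤ (dirs (k := k) (T := T) e (Sum.inr (Sum.inl (s, j, h)))).card := by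
      show m - 1 ≤ (Finset.univ.filter fun i : Dr m => i ≠ e ∧ i.1 = s).card
      have h2 : ((Finset.univ.erase e.2).image fun b : Fin m => ((s, b) : Dr m)).card = m - 1 := by
        rw [Finset.card_image_of_injective _ (fun a b hab => (Prod.mk.inj hab).2),
          Finset.card_erase_of_mem (Finset.mem_univ _), Finset.card_univ, Fintype.card_fin]
      rw [← h2]
      refine Finset.card_le_card fun i hi => ?_
      obtain ⟨b, hb, rfl⟩ := Finset.mem_image.1 hi
      refine Finset.mem_filter.2 ⟨Finset.mem_univ _, fun h3 => ?_, rfl⟩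
      exact (Finset.mem_erase.1 hb).1 (by rw [← h3])
    show (if false = true then (th' : ℝ) / th else 1) * (1 / 2) ^ _ ≤ (1 / 2) ^ (m - 1)
    rw [if_neg (by decide), one_mul]
    exact pow_le_pow_of_le_one (by norm_num) (by norm_num) h1
  · show (if true = true then (th' : ℝ) / th else 1) * (1 / 2) ^ (∅ : Finset (Dr m)).card ≤
      (th' : ℝ) / th
    rw [if_pos rfl, Finset.card_empty, pow_zero, mul_one]

/-- A direction different from two given ones. -/
theorem exists_dir {m : ℕ} (hm : 2 ≤ m) (e e' : Dr m) : ∃ i : Dr m, i ≠ e ∧ i ≠ e' := by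
  by_contra hcon
  push Not at hcon
  have h1 : (Finset.univ : Finset (Dr m)) ⊆ {e, e'} := by
    intro i _
    by_cases hi : i = e
    · exact Finset.mem_insert.2 (Or.inl hi)
    · exact Finset.mem_insert.2 (Or.inr (Finset.mem_singleton.2 (hcon i hi)))
  have h2 := Finset.card_le_card h1
  rw [Finset.card_univ, Fintype.card_prod, Fintype.card_bool, Fintype.card_fin] at h2
  have h3 : ({e, e'} : Finset (Dr m)).card ≤ 2 := Finset.card_le_two
  omega

end HNTx

open HNTx in
theorem t_HNT (hJNT : JNT_Stmt) (hOFF : OFF_Stmt) : HNT_Stmt := by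
  intro k m d l th th' T S G M ρ j0 c η hm hth hth' hsep
  classical
  have hth0 : (0 : ℝ) < (th : ℝ) := by exact_mod_cast hth
  have hq0 : (0 : ℝ) ≤ (th' : ℝ) / th := by positivity
  have hq1 : (th' : ℝ) / th ≤ 1 := by
    rw [div_le_one hth0]
    exact_mod_cast hth'
  set E : ℝ := (Fintype.card M.C : ℝ) ^ th * Poly.bet 1 ^ l with hE
  have hb : 0 ≤ Poly.bet 1 := Poly.bet_nonneg 1
  have hE0 : 0 ≤ E := by positivity
  have hwt0 : ∀ t, 0 ≤ wt m th th' (η t).2.2 := by
    intro t
    refine le_trans ?_ (fac_le_wt th th' (η t).2.1 (η t).2.2)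
    have h1 : (0 : ℝ) ≤ if isB (η t).2.2 = true then (th' : ℝ) / th else 1 := by
      split_ifs
      · exact hq0
      · exact zero_le_one
    positivity
  by_cases hlen : ∀ t, isB (η t).2.2 = false → (η t).1.1.length < d
  swap
  · push Not at hlen
    obtain ⟨t0, ht0, ht0'⟩ := hlen
    have h1 : avg (fun xo : Inp m d l × (Nd m d → Fin th) =>
        ind (∀ t, HEv M xo.1 xo.2 th' ρ j0 c (η t))) ≤ 0 := by
      refine le_of_le_of_eq (avg_mono fun xo => ?_) avg_zero
      rw [ind_false]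
      intro h
      exact absurd (HEv.len (h t0) ht0) (by omega)
    have h2 : 0 ≤ ∏ t, wt m th th' (η t).2.2 := Finset.prod_nonneg fun t _ => hwt0 t
    have h3 : 0 ≤ 2 * (m : ℝ) * G * E := by positivity
    linarith
  -- the pairs
  set U : Finset (Fin G × Dr m) :=
    Finset.univ.filter fun p => p.2 ∈ dirs (η p.1).2.1 (η p.1).2.2 with hU
  have hmem : ∀ p : {p // p ∈ U}, p.1.2 ∈ dirs (η p.1.1).2.1 (η p.1.1).2.2 :=
    fun p => (Finset.mem_filter.1 p.2).2
  have hUcard : U.card = ∑ t, (dirs (η t).2.1 (η t).2.2).card := by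
    have h1 : U = (Finset.univ.sigma fun t : Fin G => dirs (η t).2.1 (η t).2.2).map
        (Equiv.sigmaEquivProd (Fin G) (Dr m)).toEmbedding := by
      ext p
      simp only [hU, Finset.mem_filter, Finset.mem_univ, true_and, Finset.mem_map,
        Finset.mem_sigma, Equiv.coe_toEmbedding]
      constructor
      · intro h
        exact ⟨⟨p.1, p.2⟩, h, rfl⟩
      · rintro ⟨⟨t, i⟩, h, rfl⟩
        exact h
    rw [h1, Finset.card_map, Finset.card_sigma]
  have hUle : U.card ≤ 2 * m * G := by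
    calc U.card ≤ (Finset.univ : Finset (Fin G × Dr m)).card :=
          Finset.card_le_card (Finset.filter_subset _ _)
      _ = 2 * m * G := by
        rw [Finset.card_univ, Fintype.card_prod, Fintype.card_prod, Fintype.card_bool,
          Fintype.card_fin, Fintype.card_fin, mul_comm]
  -- the average over the inputs
  have hJ := hJNT k m d l th M j0 c {p // p ∈ U} Finset.univ
    (fun p => p.1.2 :: (η p.1.1).1.1) (fun p => tm ρ j0 (η p.1.1).2.2)
    (fun p => hd (η p.1.1).2.1 p.1.2 (η p.1.1).2.2 (hmem p)) (fun p => p.1.2.2)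
    (fun p _ => by
      have h1 := hlen p.1.1 (isB_dirs (hmem p))
      simp only [List.length_cons]
      omega)
    (fun p _ p' _ hne => hsep p.1.1 p'.1.1 p.1.2 p'.1.2 (dirs_ne (hmem p)) (dirs_ne (hmem p'))
      fun h => hne (Subtype.ext h))
  rw [Finset.card_univ, Fintype.card_coe] at hJ
  -- the bad hints
  set W : Finset (Fin G) := Finset.univ.filter fun t => isB (η t).2.2 = true with hW
  set Wn : Finset (Nd m d) := W.image fun t => (η t).1 with hWn
  have hWcard : Wn.card = W.card := by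
    refine Finset.card_image_of_injOn ?_
    intro t ht t' ht' htt
    by_contra hne
    obtain ⟨i, hi, hi'⟩ := exists_dir hm (η t).2.1 (η t').2.1
    have htt' : (η t).1 = (η t').1 := htt
    refine hsep t t' i i hi hi' (fun h => hne (Prod.mk.inj h).1) ?_
    rw [htt']
  -- the bound for a fixed input
  set Q : Inp m d l → Prop := fun x => ∀ p ∈ (Finset.univ : Finset {p // p ∈ U}),
    EvU M j0 c x (p.1.2 :: (η p.1.1).1.1) (tm ρ j0 (η p.1.1).2.2)
      (hd (η p.1.1).2.1 p.1.2 (η p.1.1).2.2 (hmem p)) p.1.2.2 th with hQ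
  have hfix : ∀ x : Inp m d l, avg (fun o : Nd m d → Fin th =>
      ind (∀ t, HEv M x o th' ρ j0 c (η t))) ≤ ((th' : ℝ) / th) ^ W.card * ind (Q x) := by
    intro x
    have h1 : ∀ o : Nd m d → Fin th, ind (∀ t, HEv M x o th' ρ j0 c (η t)) ≤
        ind (Q x) * ind (∀ v ∈ Wn, Bad th th' (nv M x v.1 j0) (o v)) := by
      intro o
      rw [← ind_and]
      refine ind_mono fun h => ⟨fun p _ => HEv.dir (h p.1.1) p.1.2 (hmem p), ?_⟩
      intro v hv
      obtain ⟨t, ht, rfl⟩ := Finset.mem_image.1 hv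
      exact HEv.bad (h t) (Finset.mem_filter.1 ht).2
    refine (avg_mono h1).trans ?_
    rw [avg_mul, mul_comm, ← hWcard]
    exact mul_le_mul_of_nonneg_right
      (hOFF (Nd m d) th th' Wn (fun v => nv M x v.1 j0) hth) (ind_nonneg _)
  have hmain : avg (fun xo : Inp m d l × (Nd m d → Fin th) =>
      ind (∀ t, HEv M xo.1 xo.2 th' ρ j0 c (η t))) ≤
      ((th' : ℝ) / th) ^ W.card * ((1 / 2) ^ U.card + (U.card : ℝ) * E) := by
    rw [avg_prod]
    refine (avg_mono hfix).trans ?_
    rw [avg_mul]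
    exact mul_le_mul_of_nonneg_left hJ (pow_nonneg hq0 _)
  refine hmain.trans ?_
  rw [mul_add]
  refine add_le_add ?_ ?_
  · -- the product
    have h1 : ((th' : ℝ) / th) ^ W.card * (1 / 2) ^ U.card =
        ∏ t, ((if isB (η t).2.2 = true then (th' : ℝ) / th else 1) *
          (1 / 2) ^ (dirs (η t).2.1 (η t).2.2).card) := by
      rw [Finset.prod_mul_distrib, Finset.prod_pow_eq_pow_sum, ← hUcard]
      congr 1
      rw [Finset.prod_ite, Finset.prod_const, Finset.prod_const_one, mul_one]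
    rw [h1]
    refine Finset.prod_le_prod (fun t _ => ?_) fun t _ => fac_le_wt th th' _ _
    have h2 : (0 : ℝ) ≤ if isB (η t).2.2 = true then (th' : ℝ) / th else 1 := by
      split_ifs
      · exact hq0
      · exact zero_le_one
    positivity
  · have h1 : ((th' : ℝ) / th) ^ W.card ≤ 1 := pow_le_one₀ hq0 hq1
    have h2 : (U.card : ℝ) ≤ 2 * m * G := by exact_mod_cast hUle
    calc ((th' : ℝ) / th) ^ W.card * ((U.card : ℝ) * E) ≤ 1 * ((U.card : ℝ) * E) :=
          mul_le_mul_of_nonneg_right h1 (by positivity)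
      _ = (U.card : ℝ) * E := one_mul _
      _ ≤ 2 * m * G * E := mul_le_mul_of_nonneg_right h2 hE0

end Pool.Agent.CPG
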