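import Pool.Agent.CPG.St

/-!
# CPG, module INJ: the word determines the input
-/

set_option autoImplicit false

namespace Pool.Agent.CPG

open Pool.Agent.Heads Pool.Agent.NQ2

namespace INJx

theorem flatMap_length {α β : Type} (L : List α) (f g : α → List β)
    (h : ∀ a ∈ L, (f a).length = (g a).length) : (L.flatMap f).length = (L.flatMap g).length := by
  induction L with
  | nil => rfl
  | cons a L ih =>
    rw [List.flatMap_cons, List.flatMap_cons, List.length_append, List.length_append,
      h a (by simp), ih (fun b hb => h b (by simp [hb]))]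

theorem flatMap_inj {α β : Type} (L : List α) (f g : α → List β)
    (h : ∀ a ∈ L, (f a).length = (g a).length) (e : L.flatMap f = L.flatMap g) :
    ∀ a ∈ L, f a = g a := by
  induction L with
  | nil => intro a ha; simp at ha
  | cons a L ih =>
    rw [List.flatMap_cons, List.flatMap_cons] at e
    obtain ⟨e1, e2⟩ := List.append_inj e (h a (by simp))
    intro b hb
    rcases List.mem_cons.1 hb with rfl | hb
    · exact e1
    · exact ih (fun c hc => h c (by simp [hc])) e2 b hb

theorem bit_inj : Function.Injective Lt.bit := by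
  intro a b h
  injection h

theorem blockW_inj {l : ℕ} (ga : ℕ) (s : Bool) (f f' : Fin l → Bool)
    (h : blockW ga s f = blockW ga s f') : f = f' := by
  unfold blockW at h
  obtain ⟨_, h1⟩ := List.cons_eq_cons.1 h
  have h2 := List.append_cancel_left h1
  have h3 := List.map_injective_iff.2 bit_inj h2
  apply List.ofFn_injective
  cases s with
  | false => simpa using h3
  | true => simpa using h3

theorem listW_inj {m l : ℕ} (hLEN : LEN_Stmt) (ga : ℕ) (s : Bool) (D D' : Idx m → Fin l → Bool)
    (h : listW ga s D = listW ga s D') (j : ℕ) (hj : j < 2 ^ m) :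
    D (bitsOf m j) = D' (bitsOf m j) := by
  unfold listW at h
  have h1 := List.append_cancel_right h
  have hb := (hLEN m l ga).1
  have h2 := flatMap_inj _ _ _ (fun j _ => by rw [hb, hb]) h1 j (List.mem_range.2 hj)
  exact blockW_inj ga s _ _ h2

/-- one half of the word of a node -/
def half {m l : ℕ} (ga : ℕ) (x : List (Dr m) → Bool → Idx m → Fin l → Bool) (h : ℕ)
    (v : List (Dr m)) (s : Bool) : List Lt :=
  ((List.finRange m).flatMap fun b : Fin m =>
    treeW ga x h ((s, b) :: v) ++ List.replicate (2 ^ (b : ℕ)) Lt.pad) ++ listW ga s (x v s)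

theorem treeW_succ {m l : ℕ} (ga : ℕ) (x : List (Dr m) → Bool → Idx m → Fin l → Bool) (h : ℕ)
    (v : List (Dr m)) : treeW ga x (h + 1) v =
      (Lt.op :: half ga x h v false) ++ (Lt.op :: half ga x h v true) := rfl

theorem half_length {m l : ℕ} (hLEN : LEN_Stmt) (ga : ℕ)
    (x x' : List (Dr m) → Bool → Idx m → Fin l → Bool) (h : ℕ) (v : List (Dr m)) (s : Bool) :
    (half ga x h v s).length = (half ga x' h v s).length := by
  have ht := (hLEN m l ga).2.2.1
  have hl := (hLEN m l ga).2.1
  unfold half
  rw [List.length_append, List.length_append, hl, hl,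
    flatMap_length _ _ (fun b : Fin m =>
      treeW ga x' h ((s, b) :: v) ++ List.replicate (2 ^ (b : ℕ)) Lt.pad)
      (fun b _ => by rw [List.length_append, List.length_append, ht, ht])]

theorem half_inj {m l : ℕ} (hLEN : LEN_Stmt) (ga : ℕ)
    (x x' : List (Dr m) → Bool → Idx m → Fin l → Bool) (h : ℕ) (v : List (Dr m)) (s : Bool)
    (e : half ga x h v s = half ga x' h v s) :
    (∀ b : Fin m, treeW ga x h ((s, b) :: v) = treeW ga x' h ((s, b) :: v)) ∧
      ∀ j < 2 ^ m, x v s (bitsOf m j) = x' v s (bitsOf m j) := by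
  have ht := (hLEN m l ga).2.2.1
  have hlen : ∀ b ∈ List.finRange m,
      (treeW ga x h ((s, b) :: v) ++ List.replicate (2 ^ (b : ℕ)) Lt.pad).length =
        (treeW ga x' h ((s, b) :: v) ++ List.replicate (2 ^ (b : ℕ)) Lt.pad).length :=
    fun b _ => by rw [List.length_append, List.length_append, ht, ht]
  unfold half at e
  obtain ⟨e1, e2⟩ := List.append_inj e (flatMap_length _ _ _ hlen)
  refine ⟨fun b => ?_, fun j hj => listW_inj hLEN ga s _ _ e2 j hj⟩
  exact List.append_cancel_right (flatMap_inj _ _ _ hlen e1 b (List.mem_finRange b))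

theorem treeW_inj {m l : ℕ} (hLEN : LEN_Stmt) (ga : ℕ)
    (x x' : List (Dr m) → Bool → Idx m → Fin l → Bool) : ∀ (h : ℕ) (v : List (Dr m)),
    treeW ga x h v = treeW ga x' h v → ∀ w : List (Dr m), w.length ≤ h → ∀ (s : Bool) (j : ℕ),
      j < 2 ^ m → x (w ++ v) s (bitsOf m j) = x' (w ++ v) s (bitsOf m j) := by
  have hl := (hLEN m l ga).2.1
  intro h
  induction h with
  | zero =>
    intro v e w hw s j hj
    have hw0 : w = [] := List.length_eq_zero_iff.1 (Nat.le_zero.1 hw)
    subst hw0
    unfold treeW at e
    obtain ⟨e1, e2⟩ := List.append_inj e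
      (by rw [List.length_cons, List.length_cons, hl, hl])
    cases s with
    | false => exact listW_inj hLEN ga _ _ _ (List.cons_eq_cons.1 e1).2 j hj
    | true => exact listW_inj hLEN ga _ _ _ (List.cons_eq_cons.1 e2).2 j hj
  | succ h ih =>
    intro v e w hw s j hj
    rw [treeW_succ, treeW_succ] at e
    obtain ⟨e1, e2⟩ := List.append_inj e
      (by rw [List.length_cons, List.length_cons, half_length hLEN ga x x'])
    have e3 : ∀ s, half ga x h v s = half ga x' h v s := by
      intro s
      cases s with
      | false => exact (List.cons_eq_cons.1 e1).2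
      | true => exact (List.cons_eq_cons.1 e2).2
    rcases List.eq_nil_or_concat w with rfl | ⟨w', a, rfl⟩
    · exact (half_inj hLEN ga x x' h v s (e3 s)).2 j hj
    · obtain ⟨s', b⟩ := a
      have e4 := (half_inj hLEN ga x x' h v s' (e3 s')).1 b
      have hw' : w'.length ≤ h := by
        rw [List.length_concat] at hw
        omega
      have e5 := ih ((s', b) :: v) e4 w' hw' s j hj
      rw [List.concat_eq_append, List.append_assoc, List.singleton_append]
      exact e5

end INJx

theorem t_INJ (hLEN : LEN_Stmt) (hDIG : NQ2.DIG_Stmt) : INJ_Stmt := by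
  intro m d l ga n x x' h
  have ht := (hLEN m l ga).2.2.1
  unfold wordW at h
  obtain ⟨h1, _⟩ := List.append_inj h (by rw [ht, ht])
  funext z
  obtain ⟨⟨v, hv⟩, s, a⟩ := z
  have h2 := INJx.treeW_inj hLEN ga (ext x) (ext x') d [] h1 v hv s (val a) (hDIG.1 m a)
  rw [List.append_nil, hDIG.2.1 m a] at h2
  unfold ext at h2
  rw [dif_pos hv, dif_pos hv] at h2
  exact h2

end Pool.Agent.CPG
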