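import Pool.Agent.CPG.St

/-!
# CPG, module J1

The bit of a hidden node is almost uniform even if the transcript and the blocks of all other nodes
are known.
-/

set_option autoImplicit false

namespace Pool.Agent.CPG.J1x

open Pool.Agent.Heads Pool.Agent.NQ2

lemma ind_congr {P Q : Prop} (h : P ↔ Q) : ind P = ind Q := by
  rw [propext h]

lemma avg_mono {X : Type} [Fintype X] {f g : X → ℝ} (h : ∀ x, f x ≤ g x) : avg f ≤ avg g :=
  div_le_div_of_nonneg_right (Finset.sum_le_sum fun x _ => h x) (Nat.cast_nonneg _)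

lemma avg_div {X : Type} [Fintype X] (c : ℝ) (f : X → ℝ) :
    avg (fun x => f x / c) = avg f / c := by
  unfold avg
  rw [← Finset.sum_div, div_right_comm]

lemma avg_add_const {X : Type} [Fintype X] [Nonempty X] (f : X → ℝ) (c : ℝ) :
    avg (fun x => f x + c) = avg f + c := by
  unfold avg
  have h : (Fintype.card X : ℝ) ≠ 0 := by exact_mod_cast Fintype.card_ne_zero
  rw [Finset.sum_add_distrib, Finset.sum_const, Finset.card_univ, nsmul_eq_mul, add_div,
    mul_div_cancel_left₀ c h]

variable {k d m l : ℕ}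

/-- The component of the side `s`. -/
def sd (y : (Fin l → Bool) × (Fin l → Bool)) (s : Bool) : Fin l → Bool :=
  if s = true then y.2 else y.1

/-- The two right blocks of `u` are replaced by `y`. -/
def rep (u : Nd m d) (x : Inp m d l) (y : (Fin l → Bool) × (Fin l → Bool)) : Inp m d l := fun z =>
  if z.1 = u ∧ z.2.2 = idx x u.1 z.2.1 then sd y z.2.1 else x z

/-- The two right blocks of `u`. -/
def old (u : Nd m d) (x : Inp m d l) : (Fin l → Bool) × (Fin l → Bool) :=
  (x (u, false, idx x u.1 false), x (u, true, idx x u.1 true))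

lemma sd_old (u : Nd m d) (x : Inp m d l) (s : Bool) : sd (old u x) s = x (u, s, idx x u.1 s) := by
  cases s
  · rfl
  · rfl

lemma rep_at (u : Nd m d) (x : Inp m d l) (y : (Fin l → Bool) × (Fin l → Bool)) (s : Bool) :
    rep u x y (u, s, idx x u.1 s) = sd y s :=
  if_pos ⟨rfl, rfl⟩

lemma rep_node (u : Nd m d) (x : Inp m d l) (y : (Fin l → Bool) × (Fin l → Bool))
    (z : Zt m d) (h : z.1 ≠ u) : rep u x y z = x z :=
  if_neg fun t => h t.1

lemma idx_rep (hDPN : DPN_Stmt) (u : Nd m d) (x : Inp m d l)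
    (y : (Fin l → Bool) × (Fin l → Bool)) (s : Bool) : idx (rep u x y) u.1 s = idx x u.1 s := by
  apply (hDPN m d l).2.1
  intro z _ h2
  apply rep_node
  intro h
  exact h2 (by rw [h])

lemma btD_rep (hDPN : DPN_Stmt) (u : Nd m d) (x : Inp m d l)
    (y : (Fin l → Bool) × (Fin l → Bool)) : btD (rep u x y) u.1 = ip y.1 y.2 := by
  rw [(hDPN m d l).2.2.1 _ u.1 u.2, idx_rep hDPN, idx_rep hDPN]
  have e1 : rep u x y (⟨u.1, u.2⟩, false, idx x u.1 false) = y.1 := rep_at u x y false
  have e2 : rep u x y (⟨u.1, u.2⟩, true, idx x u.1 true) = y.2 := rep_at u x y true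
  rw [e1, e2]

lemma rep_rep (hDPN : DPN_Stmt) (u : Nd m d) (x : Inp m d l)
    (y : (Fin l → Bool) × (Fin l → Bool)) : rep u (rep u x y) (old u x) = x := by
  funext z
  obtain ⟨v, s, a⟩ := z
  by_cases h : v = u ∧ a = idx x u.1 s
  · obtain ⟨h1, h2⟩ := h
    subst h1
    subst h2
    have e : rep v (rep v x y) (old v x) (v, s, idx (rep v x y) v.1 s) = sd (old v x) s :=
      rep_at v (rep v x y) (old v x) s
    rw [idx_rep hDPN, sd_old] at e
    exact e
  · have e1 : rep u x y (v, s, a) = x (v, s, a) := if_neg h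
    have e2 : rep u (rep u x y) (old u x) (v, s, a) = rep u x y (v, s, a) := by
      apply if_neg
      rw [idx_rep hDPN]
      exact h
    rw [e2, e1]

lemma old_rep (hDPN : DPN_Stmt) (u : Nd m d) (x : Inp m d l)
    (y : (Fin l → Bool) × (Fin l → Bool)) : old u (rep u x y) = y := by
  unfold old
  rw [idx_rep hDPN, idx_rep hDPN, rep_at, rep_at]
  rfl

/-- The exchange of the two right blocks of `u`. -/
def exch (hDPN : DPN_Stmt) (u : Nd m d) :
    (Inp m d l × ((Fin l → Bool) × (Fin l → Bool))) ≃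
      (Inp m d l × ((Fin l → Bool) × (Fin l → Bool))) where
  toFun q := (rep u q.1 q.2, old u q.1)
  invFun q := (rep u q.1 q.2, old u q.1)
  left_inv q := Prod.ext (rep_rep hDPN u q.1 q.2) (old_rep hDPN u q.1 q.2)
  right_inv q := Prod.ext (rep_rep hDPN u q.1 q.2) (old_rep hDPN u q.1 q.2)

lemma avg_rep (hDPN : DPN_Stmt) (u : Nd m d) (f : Inp m d l → ℝ) :
    avg f = avg fun x => avg fun y : (Fin l → Bool) × (Fin l → Bool) => f (rep u x y) := by
  have h : ∑ x : Inp m d l, ∑ y : (Fin l → Bool) × (Fin l → Bool), f (rep u x y) =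
      (Fintype.card ((Fin l → Bool) × (Fin l → Bool)) : ℝ) * ∑ x, f x := by
    calc ∑ x : Inp m d l, ∑ y : (Fin l → Bool) × (Fin l → Bool), f (rep u x y)
        = ∑ q : Inp m d l × ((Fin l → Bool) × (Fin l → Bool)), f (rep u q.1 q.2) :=
          (Fintype.sum_prod_type
            (fun q : Inp m d l × ((Fin l → Bool) × (Fin l → Bool)) => f (rep u q.1 q.2))).symm
      _ = ∑ q : Inp m d l × ((Fin l → Bool) × (Fin l → Bool)), f (exch hDPN u q).1 := rfl
      _ = ∑ q : Inp m d l × ((Fin l → Bool) × (Fin l → Bool)), f q.1 :=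
          (exch hDPN u).sum_comp
            (fun q : Inp m d l × ((Fin l → Bool) × (Fin l → Bool)) => f q.1)
      _ = ∑ x : Inp m d l, ∑ _y : (Fin l → Bool) × (Fin l → Bool), f x :=
          Fintype.sum_prod_type
            (fun q : Inp m d l × ((Fin l → Bool) × (Fin l → Bool)) => f q.1)
      _ = (Fintype.card ((Fin l → Bool) × (Fin l → Bool)) : ℝ) * ∑ x, f x := by
          rw [Finset.mul_sum]
          refine Finset.sum_congr rfl fun x _ => ?_
          rw [Finset.sum_const, Finset.card_univ, nsmul_eq_mul]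
  have hc : (Fintype.card ((Fin l → Bool) × (Fin l → Bool)) : ℝ) ≠ 0 := by
    exact_mod_cast Fintype.card_ne_zero
  unfold avg
  rw [← Finset.sum_div, h, mul_div_cancel_left₀ _ hc]

lemma cv_rep (hDPN : DPN_Stmt) (M : BM k (Zt m d) (Fin l → Bool)) (u : Nd m d)
    (x : Inp m d l) (y : (Fin l → Bool) × (Fin l → Bool)) (s : Bool) (c : M.C) :
    cv M (rep u x y) u.1 s c ↔ cv M x u.1 s c := by
  unfold cv
  rw [idx_rep hDPN]

lemma Hid_rep (hDPN : DPN_Stmt) (M : BM k (Zt m d) (Fin l → Bool)) (u : Nd m d)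
    (x : Inp m d l) (y : (Fin l → Bool) × (Fin l → Bool)) (j0 : ℕ) (c : M.C) (n th : ℕ) :
    Hid M (rep u x y) u.1 j0 c n th ↔
      (∀ j < n, ¬ ∀ s, cv M x u.1 s (M.run (rep u x y) j0 c j)) ∧
        cnt (fun j => ∃ s, cv M x u.1 s (M.run (rep u x y) j0 c j)) n < th := by
  unfold Hid
  have e1 : ∀ c' : M.C, (∀ s, cv M (rep u x y) u.1 s c') ↔ ∀ s, cv M x u.1 s c' := fun c' =>
    forall_congr' fun s => cv_rep hDPN M u x y s c'
  have e2 : ∀ c' : M.C, (∃ s, cv M (rep u x y) u.1 s c') ↔ ∃ s, cv M x u.1 s c' := fun c' =>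
    exists_congr fun s => cv_rep hDPN M u x y s c'
  rw [cnt_congr (P := fun j => ∃ s, cv M (rep u x y) u.1 s (M.run (rep u x y) j0 c j))
    (P' := fun j => ∃ s, cv M x u.1 s (M.run (rep u x y) j0 c j)) (n := n) fun j _ => e2 _]
  refine and_congr_left fun _ => ?_
  exact forall_congr' fun j => imp_congr_right fun _ => not_congr (e1 _)

end Pool.Agent.CPG.J1x

namespace Pool.Agent.CPG

open Pool.Agent.Heads Pool.Agent.NQ2 J1x

/-- J1: the bit of a hidden node is almost uniform given the transcript. -/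
theorem t_J1 (hTWO : TWO_Stmt) (hDPN : DPN_Stmt) : J1_Stmt := by
  intro k m d l M j0 n th c0 u B a hB hB'
  rw [avg_rep hDPN u, avg_rep hDPN u (fun x : Inp m d l => B (fun j => M.run x j0 c0 j) x)]
  rw [← avg_div, ← avg_add_const]
  apply avg_mono
  intro x
  have hBx : ∀ tr (y : (Fin l → Bool) × (Fin l → Bool)), B tr (rep u x y) = B tr x := fun tr y =>
    hB' tr _ _ fun z hz => rep_node u x y z hz
  have key := hTWO l M.C (fun j c y z => M.F (j0 + j) c (rep u x (y, z)))
    (fun c s => cv M x u.1 s c) c0 (fun y z j => M.run (rep u x (y, z)) j0 c0 j) n th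
    (fun tr => B tr x) a ?_ (fun y z => rfl) (fun y z j => rfl) (fun tr => hB tr x)
  · simp only [hBx]
    refine le_trans (le_of_eq ?_) key
    congr 1
    funext y
    congr 1
    apply ind_congr
    rw [Hid_rep hDPN, btD_rep hDPN]
  · intro j c y y' z z' hy hz
    apply M.loc
    intro h w hw
    by_cases hc : w.1 = u ∧ w.2.2 = idx x u.1 w.2.1
    · have e1 : rep u x (y, z) w = sd (y, z) w.2.1 := if_pos hc
      have e2 : rep u x (y', z') w = sd (y', z') w.2.1 := if_pos hc
      rw [e1, e2]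
      obtain ⟨v, s, b⟩ := w
      obtain ⟨h1, h2⟩ := hc
      simp only at h1 h2
      subst h1
      subst h2
      have hcv : cv M x v.1 s c := ⟨v.2, h, hw⟩
      cases s
      · exact hy hcv
      · exact hz hcv
    · have e1 : rep u x (y, z) w = x w := if_neg hc
      have e2 : rep u x (y', z') w = x w := if_neg hc
      rw [e1, e2]

end Pool.Agent.CPG
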