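import Pool.Agent.CPG.St

/-!
# CPG, module JNT

Joint events of several nodes, no one in the subtree of another one; induction on the number of nodes.
-/

set_option autoImplicit false

namespace Pool.Agent.CPG.JNTx

open Pool.Agent.Heads Pool.Agent.NQ2

lemma ind_nonneg (P : Prop) : 0 ≤ ind P := by
  unfold ind; split_ifs <;> norm_num

lemma ind_le_one (P : Prop) : ind P ≤ 1 := by
  unfold ind; split_ifs <;> norm_num

lemma ind_true {P : Prop} (h : P) : ind P = 1 := by
  unfold ind; rw [if_pos h]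

lemma ind_false {P : Prop} (h : ¬ P) : ind P = 0 := by
  unfold ind; rw [if_neg h]

lemma ind_congr {P Q : Prop} (h : P ↔ Q) : ind P = ind Q := by
  rw [propext h]

lemma avg_mono {X : Type} [Fintype X] {f g : X → ℝ} (h : ∀ x, f x ≤ g x) : avg f ≤ avg g :=
  div_le_div_of_nonneg_right (Finset.sum_le_sum fun x _ => h x) (Nat.cast_nonneg _)

lemma avg_le_one {X : Type} [Fintype X] {f : X → ℝ} (h : ∀ x, f x ≤ 1) : avg f ≤ 1 := by
  unfold avg
  rcases Nat.eq_zero_or_pos (Fintype.card X) with h0 | h0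
  · rw [h0]; simp
  · rw [div_le_one (by exact_mod_cast h0)]
    calc ∑ x, f x ≤ ∑ _x : X, (1 : ℝ) := Finset.sum_le_sum fun x _ => h x
      _ = (Fintype.card X : ℝ) := by simp

variable {k m d l : ℕ}

/-- The event of one node for a sequence of configurations. -/
def Ev2 (M : BM k (Zt m d) (Fin l → Bool)) (c : ℕ → M.C) (x : Inp m d l) (u : List (Dr m))
    (tau : ℕ) (h : Fin k) (b : Fin m) (th : ℕ) : Prop :=
  ((∀ j < tau, ¬ ∀ s, cv M x u s (c j)) ∧ cnt (fun j => ∃ s, cv M x u s (c j)) tau < th) ∧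
    ∃ z : Zt m d, M.cov (c tau) h = some z ∧ z.2.2 b = btD x u

/-- The extension of a finite transcript. -/
def etr {C : Type} {n : ℕ} (tr : Fin (n + 1) → C) : ℕ → C := fun j => tr ⟨min j n, by omega⟩

lemma etr_run {C : Type} {n : ℕ} (f : ℕ → C) {j : ℕ} (hj : j ≤ n) :
    etr (n := n) (fun j : Fin (n + 1) => f j) j = f j := by
  unfold etr
  simp only [min_eq_left hj]

lemma Ev2_congr (M : BM k (Zt m d) (Fin l → Bool)) (c c' : ℕ → M.C) (x : Inp m d l)
    (u : List (Dr m)) (tau : ℕ) (h : Fin k) (b : Fin m) (th : ℕ) (hc : ∀ j ≤ tau, c j = c' j) :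
    Ev2 M c x u tau h b th ↔ Ev2 M c' x u tau h b th := by
  unfold Ev2
  rw [hc tau le_rfl, cnt_congr (P := fun j => ∃ s, cv M x u s (c j))
    (P' := fun j => ∃ s, cv M x u s (c' j)) (n := tau) fun j hj => by rw [hc j hj.le]]
  refine and_congr_left fun _ => and_congr_left fun _ => ?_
  exact forall_congr' fun j => imp_congr_right fun hj => by rw [hc j hj.le]

lemma Ev2_indep (hDPN : DPN_Stmt) (M : BM k (Zt m d) (Fin l → Bool)) (c : ℕ → M.C)
    (x x' : Inp m d l) (u : Nd m d) (u' : List (Dr m)) (hu : ¬ (u' <:+ u.1))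
    (hx : ∀ z : Zt m d, z.1 ≠ u → x z = x' z) (tau : ℕ) (h : Fin k) (b : Fin m) (th : ℕ) :
    Ev2 M c x u' tau h b th ↔ Ev2 M c x' u' tau h b th := by
  obtain ⟨h1, h2, -, -⟩ := hDPN m d l
  have hz : ∀ z : Zt m d, u' <:+ z.1.1 → x z = x' z := by
    intro z hz
    apply hx
    intro he
    exact hu (he ▸ hz)
  have e1 : btD x u' = btD x' u' := h1 x x' u' hz
  have e2 : ∀ s, idx x u' s = idx x' u' s := fun s => h2 x x' u' s fun z hz' _ => hz z hz'
  have e3 : ∀ s c', cv M x u' s c' ↔ cv M x' u' s c' := by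
    intro s c'
    unfold cv
    rw [e2]
  have e4 : ∀ s c', cv M x u' s c' = cv M x' u' s c' := fun s c' => propext (e3 s c')
  unfold Ev2
  simp only [e1, e4]

/-- The bit number `b` of the index of the covered block. -/
noncomputable def bof (M : BM k (Zt m d) (Fin l → Bool)) (c : M.C) (h : Fin k) (b : Fin m) : Bool :=
  match M.cov c h with
  | some z => z.2.2 b
  | none => false

lemma bof_eq (M : BM k (Zt m d) (Fin l → Bool)) (c : M.C) (h : Fin k) (b : Fin m) {z : Zt m d}
    (e : M.cov c h = some z) : bof M c h b = z.2.2 b := by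
  unfold bof
  rw [e]

theorem main (hJ : J1_Stmt) (hDPN : DPN_Stmt) (k m d l th : ℕ)
    (M : BM k (Zt m d) (Fin l → Bool)) (j0 : ℕ) (c0 : M.C) (ι : Type) (u : ι → List (Dr m))
    (tau : ι → ℕ) (hd : ι → Fin k) (b : ι → Fin m) (N : ℕ) :
    ∀ U : Finset ι, U.card = N → (∀ i ∈ U, (u i).length ≤ d) →
    (∀ i ∈ U, ∀ i' ∈ U, i ≠ i' → ¬ (u i <:+ u i')) →
    avg (fun x : Inp m d l => ind (∀ i ∈ U, EvU M j0 c0 x (u i) (tau i) (hd i) (b i) th)) ≤
      (1 / 2) ^ N + (N : ℝ) * ((Fintype.card M.C : ℝ) ^ th * Poly.bet 1 ^ l) := by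
  classical
  induction N with
  | zero =>
    intro U _ _ _
    have := avg_le_one (X := Inp m d l)
      (f := fun x => ind (∀ i ∈ U, EvU M j0 c0 x (u i) (tau i) (hd i) (b i) th))
      fun x => ind_le_one _
    simpa using this
  | succ N ih =>
    intro U hU hlen hsuf
    have hne : U.Nonempty := by
      rw [← Finset.card_pos, hU]; omega
    obtain ⟨i, hi, hmax⟩ := Finset.exists_max_image U tau hne
    set U' := U.erase i with hU'
    have hcard : U'.card = N := by
      rw [hU', Finset.card_erase_of_mem hi, hU]; omega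
    have hsub : ∀ v ∈ U', v ∈ U := fun v hv => Finset.mem_of_mem_erase hv
    have hIH := ih U' hcard (fun v hv => hlen v (hsub v hv))
      (fun v hv v' hv' => hsuf v (hsub v hv) v' (hsub v' hv'))
    let B : (Fin (tau i + 1) → M.C) → Inp m d l → ℝ := fun tr x =>
      ind (∀ v ∈ U', Ev2 M (etr tr) x (u v) (tau v) (hd v) (b v) th)
    let a : (Fin (tau i + 1) → M.C) → Bool := fun tr => bof M (tr (Fin.last _)) (hd i) (b i)
    have hB : ∀ x, B (fun j => M.run x j0 c0 j) x =
        ind (∀ v ∈ U', EvU M j0 c0 x (u v) (tau v) (hd v) (b v) th) := by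
      intro x
      apply ind_congr
      refine forall_congr' fun v => forall_congr' fun hv => ?_
      refine Ev2_congr M _ (fun j => M.run x j0 c0 j) x (u v) (tau v) (hd v) (b v) th
        fun j hj => ?_
      exact etr_run (fun j => M.run x j0 c0 j) (hj.trans (hmax v (hsub v hv)))
    have hJ' := hJ k m d l M j0 (tau i) th c0 ⟨u i, hlen i hi⟩ B a
      (fun tr x => ⟨ind_nonneg _, ind_le_one _⟩)
      (by
        intro tr x x' hx
        apply ind_congr
        refine forall_congr' fun v => forall_congr' fun hv => ?_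
        refine Ev2_indep hDPN M _ x x' ⟨u i, hlen i hi⟩ (u v) ?_ hx _ _ _ _
        exact hsuf v (hsub v hv) i hi (Finset.ne_of_mem_erase hv))
    have hle : avg (fun x : Inp m d l =>
        ind (∀ i ∈ U, EvU M j0 c0 x (u i) (tau i) (hd i) (b i) th)) ≤
        avg (fun x : Inp m d l =>
          ind (Hid M x (u i) j0 c0 (tau i) th ∧
            btD x (u i) = a fun j => M.run x j0 c0 j) * B (fun j => M.run x j0 c0 j) x) := by
      refine avg_mono fun x => ?_
      by_cases h : ∀ i ∈ U, EvU M j0 c0 x (u i) (tau i) (hd i) (b i) th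
      · have h1 : Hid M x (u i) j0 c0 (tau i) th ∧
            btD x (u i) = a fun j => M.run x j0 c0 j := by
          obtain ⟨h2, z, h3, h4⟩ := h i hi
          refine ⟨h2, ?_⟩
          rw [← h4]
          exact (bof_eq M _ _ _ h3).symm
        rw [hB, ind_true h, ind_true h1, ind_true fun v hv => h v (hsub v hv)]
        norm_num
      · rw [ind_false h]
        exact mul_nonneg (ind_nonneg _) (ind_nonneg _)
    have hBavg : avg (fun x : Inp m d l => B (fun j => M.run x j0 c0 j) x) ≤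
        (1 / 2) ^ N + (N : ℝ) * ((Fintype.card M.C : ℝ) ^ th * Poly.bet 1 ^ l) := by
      have e : (fun x : Inp m d l => B (fun j => M.run x j0 c0 j) x) =
          fun x => ind (∀ v ∈ U', EvU M j0 c0 x (u v) (tau v) (hd v) (b v) th) := funext hB
      rw [e]
      exact hIH
    have hb : 0 ≤ Poly.bet 1 ^ l := pow_nonneg (Poly.bet_nonneg 1) l
    have hX : 0 ≤ (Fintype.card M.C : ℝ) ^ th * Poly.bet 1 ^ l :=
      mul_nonneg (pow_nonneg (Nat.cast_nonneg _) _) hb
    refine hle.trans (hJ'.trans ?_)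
    have h3 : avg (fun x : Inp m d l => B (fun j => M.run x j0 c0 j) x) / 2 ≤
        ((1 / 2) ^ N + (N : ℝ) * ((Fintype.card M.C : ℝ) ^ th * Poly.bet 1 ^ l)) / 2 :=
      div_le_div_of_nonneg_right hBavg (by norm_num)
    have h4 : (1 / 2 : ℝ) ^ (N + 1) = (1 / 2) ^ N * (1 / 2) := pow_succ _ _
    have h5 : 0 ≤ (N : ℝ) * ((Fintype.card M.C : ℝ) ^ th * Poly.bet 1 ^ l) :=
      mul_nonneg (Nat.cast_nonneg _) hX
    rw [h4]
    push_cast
    rw [add_mul]
    linarith

end Pool.Agent.CPG.JNTx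

namespace Pool.Agent.CPG

open Pool.Agent.Heads Pool.Agent.NQ2 JNTx

/-- JNT: joint events. -/
theorem t_JNT (hJ1 : J1_Stmt) (hDPN : DPN_Stmt) : JNT_Stmt := by
  intro k m d l th M j0 c0 ι U u tau hd b h1 h2
  exact main hJ1 hDPN k m d l th M j0 c0 ι u tau hd b U.card U rfl h1 h2

end Pool.Agent.CPG
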