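import Pool.Agent.CPG.St

/-!
# Project CPG, module LAY: the ownership of the cells and the gap property
-/

set_option autoImplicit false

namespace Pool.Agent.CPG

open Pool.Agent.Heads Pool.Agent.NQ2

namespace LAYx

/-- the entries of the templates: letters and data bits -/
abbrev En (m d l : ℕ) := Lt ⊕ (Zt m d × Fin l)

/-- the letter of an entry -/
def evE {m d l : ℕ} (x : Inp m d l) : En m d l → Lt
  | Sum.inl a => a
  | Sum.inr w => Lt.bit (x w.1 w.2)

/-- the owner of an entry -/
def ow {m d l : ℕ} : En m d l → Option (Zt m d)
  | Sum.inl _ => none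
  | Sum.inr w => some w.1

/-- a data bit -/
def entT {m d l : ℕ} (v : List (Dr m)) (s : Bool) (a : Idx m) (t : Fin l) : En m d l :=
  if h : v.length ≤ d then Sum.inr ((⟨v, h⟩, s, a), t) else Sum.inl (Lt.bit false)

def bitsT {m d l : ℕ} (v : List (Dr m)) (s : Bool) (a : Idx m) : List (En m d l) :=
  if s = true then (List.ofFn fun t => entT v s a t).reverse else List.ofFn fun t => entT v s a t

def blockT {m d l : ℕ} (ga : ℕ) (v : List (Dr m)) (s : Bool) (a : Idx m) : List (En m d l) :=
  Sum.inl (Lt.mark s) :: (List.replicate ga (Sum.inl Lt.fill) ++ bitsT v s a)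

def listT {m d l : ℕ} (ga : ℕ) (v : List (Dr m)) (s : Bool) : List (En m d l) :=
  ((List.range (2 ^ m)).flatMap fun j => blockT ga v s (bitsOf m j)) ++ [Sum.inl Lt.en]

def treeT {m d l : ℕ} (ga : ℕ) : ℕ → List (Dr m) → List (En m d l)
  | 0, v => (Sum.inl Lt.op :: listT ga v false) ++ (Sum.inl Lt.op :: listT ga v true)
  | h + 1, v =>
    (Sum.inl Lt.op :: (((List.finRange m).flatMap fun b : Fin m =>
      treeT ga h ((false, b) :: v) ++ List.replicate (2 ^ (b : ℕ)) (Sum.inl Lt.pad)) ++
        listT ga v false)) ++
    (Sum.inl Lt.op :: (((List.finRange m).flatMap fun b : Fin m =>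
      treeT ga h ((true, b) :: v) ++ List.replicate (2 ^ (b : ℕ)) (Sum.inl Lt.pad)) ++
        listT ga v true))

def wordT {m d l : ℕ} (ga n : ℕ) : List (En m d l) :=
  treeT ga d [] ++
    List.replicate (n - (treeT ga d [] : List (En m d l)).length) (Sum.inl Lt.fill)

variable {m d l : ℕ}

/-! ### Evaluation -/

theorem ev_ent (x : Inp m d l) (v : List (Dr m)) (s : Bool) (a : Idx m) (t : Fin l) :
    evE x (entT v s a t) = Lt.bit (CPG.ext x v s a t) := by
  unfold entT CPG.ext
  by_cases h : v.length ≤ d
  · rw [dif_pos h, dif_pos h]
    rfl
  · rw [dif_neg h, dif_neg h]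
    rfl

theorem map_bits (x : Inp m d l) (v : List (Dr m)) (s : Bool) (a : Idx m) :
    (bitsT v s a).map (evE x) =
      (if s = true then (List.ofFn (CPG.ext x v s a)).reverse
        else List.ofFn (CPG.ext x v s a)).map Lt.bit := by
  have h : (List.ofFn fun t : Fin l => (entT v s a t : En m d l)).map (evE x) =
      (List.ofFn (CPG.ext x v s a)).map Lt.bit := by
    rw [List.map_ofFn, List.map_ofFn]
    congr 1
    funext t
    exact ev_ent x v s a t
  unfold bitsT
  cases s with
  | false =>
    rw [if_neg (by decide), if_neg (by decide)]
    exact h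
  | true =>
    rw [if_pos rfl, if_pos rfl, List.map_reverse, List.map_reverse, h]

theorem map_block (x : Inp m d l) (ga : ℕ) (v : List (Dr m)) (s : Bool) (a : Idx m) :
    (blockT ga v s a).map (evE x) = blockW ga s (CPG.ext x v s a) := by
  unfold blockT blockW
  rw [List.map_cons, List.map_append, List.map_replicate, map_bits]
  rfl

theorem map_list (x : Inp m d l) (ga : ℕ) (v : List (Dr m)) (s : Bool) :
    (listT ga v s).map (evE x) = listW ga s (CPG.ext x v s) := by
  unfold listT listW
  rw [List.map_append, List.map_flatMap]
  simp only [map_block]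
  rfl

theorem map_tree (x : Inp m d l) (ga : ℕ) (h : ℕ) : ∀ v : List (Dr m),
    (treeT ga h v).map (evE x) = CPG.treeW ga (CPG.ext x) h v := by
  induction h with
  | zero =>
    intro v
    unfold treeT CPG.treeW
    rw [List.map_append, List.map_cons, List.map_cons, map_list, map_list]
    rfl
  | succ h ih =>
    intro v
    unfold treeT CPG.treeW
    rw [List.map_append, List.map_cons, List.map_cons, List.map_append, List.map_append,
      List.map_flatMap, List.map_flatMap, map_list, map_list]
    simp only [List.map_append, List.map_replicate, ih]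
    rfl

theorem map_word (x : Inp m d l) (ga n : ℕ) :
    (wordT ga n).map (evE x) = CPG.wordW ga d n (CPG.ext x) := by
  unfold wordT CPG.wordW
  rw [List.map_append, List.map_replicate, map_tree, ← map_tree x ga d [], List.length_map]
  rfl

/-! ### Good templates -/

/-- different owners are far apart, and no owner among the first `ga + 1` entries -/
structure Gapd (ga : ℕ) (L : List (En m d l)) : Prop where
  good : ∀ q q' z z', (L[q]?).bind ow = some z → (L[q']?).bind ow = some z' → z ≠ z' →
    q + ga < q' ∨ q' + ga < q
  lead : ∀ q z, (L[q]?).bind ow = some z → ga < q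

theorem gl_append {ga : ℕ} {A B : List (En m d l)} (hA : Gapd ga A) (hB : Gapd ga B) :
    Gapd ga (A ++ B) where
  good := by
    intro q q' z z' h h' hz
    rcases lt_or_ge q A.length with hq | hq
    · rw [List.getElem?_append_left hq] at h
      rcases lt_or_ge q' A.length with hq' | hq'
      · rw [List.getElem?_append_left hq'] at h'
        exact hA.good q q' z z' h h' hz
      · rw [List.getElem?_append_right hq'] at h'
        have := hB.lead _ _ h'
        left
        omega
    · rw [List.getElem?_append_right hq] at h
      rcases lt_or_ge q' A.length with hq' | hq'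
      · rw [List.getElem?_append_left hq'] at h'
        have := hB.lead _ _ h
        right
        omega
      · rw [List.getElem?_append_right hq'] at h'
        rcases hB.good _ _ z z' h h' hz with h1 | h1
        · left
          omega
        · right
          omega
  lead := by
    intro q z h
    rcases lt_or_ge q A.length with hq | hq
    · rw [List.getElem?_append_left hq] at h
      exact hA.lead _ _ h
    · rw [List.getElem?_append_right hq] at h
      have := hB.lead _ _ h
      omega

/-- a template without data bits -/
theorem gl_none {ga : ℕ} {A : List (En m d l)} (hA : ∀ e ∈ A, ow e = none) : Gapd ga A := by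
  have h : ∀ (q : ℕ) (z : Zt m d), (A[q]?).bind ow ≠ some z := by
    intro q z h
    cases hq : A[q]? with
    | none =>
      rw [hq] at h
      simp at h
    | some e =>
      rw [hq] at h
      have h1 := hA e (List.mem_of_getElem? hq)
      simp [h1] at h
  exact ⟨fun q q' z z' h1 => absurd h1 (h q z), fun q z h1 => absurd h1 (h q z)⟩

theorem gl_nil {ga : ℕ} : Gapd ga ([] : List (En m d l)) := gl_none fun e he => by simp at he

theorem gl_replicate {ga k : ℕ} (a : Lt) :
    Gapd ga (List.replicate k (Sum.inl a) : List (En m d l)) := gl_none fun e he => by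
  rw [List.eq_of_mem_replicate he]
  rfl

theorem gl_single {ga : ℕ} (a : Lt) : Gapd ga ([Sum.inl a] : List (En m d l)) :=
  gl_none fun e he => by
    rw [List.mem_singleton] at he
    rw [he]
    rfl

theorem gl_cons {ga : ℕ} (a : Lt) {A : List (En m d l)} (hA : Gapd ga A) :
    Gapd ga (Sum.inl a :: A) := by
  have h : (Sum.inl a :: A : List (En m d l)) = [Sum.inl a] ++ A := rfl
  rw [h]
  exact gl_append (gl_single a) hA

theorem gl_flatMap {ga : ℕ} {ι : Type} (s : List ι) (f : ι → List (En m d l))
    (hf : ∀ i ∈ s, Gapd ga (f i)) : Gapd ga (s.flatMap f) := by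
  induction s with
  | nil =>
    rw [List.flatMap_nil]
    exact gl_nil
  | cons i s ih =>
    rw [List.flatMap_cons]
    exact gl_append (hf i (by simp)) (ih fun j hj => hf j (by simp [hj]))

/-- all data bits of a block have the same owner -/
theorem bits_owner (v : List (Dr m)) (s : Bool) (a : Idx m) (e : En m d l)
    (he : e ∈ (bitsT v s a : List (En m d l))) (z : Zt m d) (hz : ow e = some z) :
    z.1.1 = v ∧ z.2 = (s, a) := by
  have he' : e ∈ (List.ofFn fun t : Fin l => (entT v s a t : En m d l)) := by
    unfold bitsT at he
    split_ifs at he with hs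
    · exact List.mem_reverse.1 he
    · exact he
  obtain ⟨t, rfl⟩ := (List.mem_ofFn' _ _).1 he'
  simp only [entT] at hz
  by_cases h : v.length ≤ d
  · rw [dif_pos h] at hz
    simp only [ow, Option.some.injEq] at hz
    rw [← hz]
    exact ⟨rfl, rfl⟩
  · rw [dif_neg h] at hz
    simp [ow] at hz

theorem gl_block (ga : ℕ) (v : List (Dr m)) (s : Bool) (a : Idx m) :
    Gapd ga (blockT ga v s a : List (En m d l)) := by
  have key : ∀ q z, ((blockT ga v s a : List (En m d l))[q]?).bind ow = some z →
      ga < q ∧ z.1.1 = v ∧ z.2 = (s, a) := by
    intro q z h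
    unfold blockT at h
    cases q with
    | zero => simp [ow] at h
    | succ q =>
      rw [List.getElem?_cons_succ] at h
      rcases lt_or_ge q ga with hq | hq
      · rw [List.getElem?_append_left (by simpa using hq), List.getElem?_replicate, if_pos hq] at h
        simp [ow] at h
      · rw [List.getElem?_append_right (by simpa using hq), List.length_replicate] at h
        refine ⟨by omega, ?_⟩
        cases hq2 : (bitsT v s a : List (En m d l))[q - ga]? with
        | none =>
          rw [hq2] at h
          simp at h
        | some e =>
          rw [hq2] at h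
          exact bits_owner v s a e (List.mem_of_getElem? hq2) z h
  refine ⟨fun q q' z z' h h' hz => ?_, fun q z h => (key q z h).1⟩
  exfalso
  apply hz
  obtain ⟨-, h1, h2⟩ := key q z h
  obtain ⟨-, h3, h4⟩ := key q' z' h'
  exact Prod.ext (Subtype.ext (h1.trans h3.symm)) (h2.trans h4.symm)

theorem gl_list (ga : ℕ) (v : List (Dr m)) (s : Bool) :
    Gapd ga (listT ga v s : List (En m d l)) :=
  gl_append (gl_flatMap _ _ fun _ _ => gl_block ga v s _) (gl_single _)

theorem gl_tree (ga h : ℕ) : ∀ v : List (Dr m), Gapd ga (treeT ga h v : List (En m d l)) := by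
  induction h with
  | zero =>
    intro v
    unfold treeT
    exact gl_append (gl_cons _ (gl_list ga v false)) (gl_cons _ (gl_list ga v true))
  | succ h ih =>
    intro v
    unfold treeT
    exact gl_append
      (gl_cons _ (gl_append (gl_flatMap _ _ fun i _ => gl_append (ih _) (gl_replicate _))
        (gl_list ga v false)))
      (gl_cons _ (gl_append (gl_flatMap _ _ fun i _ => gl_append (ih _) (gl_replicate _))
        (gl_list ga v true)))

theorem gl_word (ga n : ℕ) : Gapd ga (wordT ga n : List (En m d l)) :=
  gl_append (gl_tree ga d []) (gl_replicate _)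

/-- the owner of a cell -/
def own (m d l ga n : ℕ) : ℕ → Option (Zt m d)
  | 0 => none
  | q + 1 => ((wordT ga n : List (En m d l))[q]?).bind ow

end LAYx

theorem t_LAY : LAY_Stmt := by
  intro m d l ga n
  refine ⟨LAYx.own m d l ga n, ?_, ?_⟩
  · intro q x x' h
    cases q with
    | zero => rfl
    | succ q =>
      simp only [tape]
      rw [← LAYx.map_word, ← LAYx.map_word, List.getElem?_map, List.getElem?_map]
      have h1 : ∀ e : LAYx.En m d l, (LAYx.wordT ga n : List (LAYx.En m d l))[q]? = some e →
          LAYx.evE x e = LAYx.evE x' e := by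
        intro e he
        cases e with
        | inl a => rfl
        | inr w =>
          have h2 : LAYx.own m d l ga n (q + 1) = some w.1 := by
            simp only [LAYx.own, he]
            rfl
          simp only [LAYx.evE]
          rw [h w.1 h2]
      cases hq : (LAYx.wordT ga n : List (LAYx.En m d l))[q]? with
      | none => rfl
      | some e =>
        simp only [Option.map_some]
        rw [h1 e hq]
  · intro q q' z z' h h' hz
    cases q with
    | zero => simp [LAYx.own] at h
    | succ q =>
      cases q' with
      | zero => simp [LAYx.own] at h'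
      | succ q' =>
        rcases (LAYx.gl_word (m := m) (d := d) (l := l) ga n).good q q' z z' h h' hz
          with h1 | h1
        · left
          omega
        · right
          omega

end Pool.Agent.CPG
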