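import Pool.Agent.CPG.St

/-!
Project CPG (MP_5e85fc_lc), module LEN: lengths of the words.
-/

set_option autoImplicit false

namespace Pool.Agent.CPG

open Pool.Agent.Heads Pool.Agent.NQ2

namespace LENx

theorem sum_two_pow (m : ℕ) : ∑ b : Fin m, 2 ^ (b : ℕ) + 1 = 2 ^ m := by
  induction m with
  | zero => simp
  | succ m ih =>
    rw [Fin.sum_univ_castSucc]
    simp only [Fin.val_castSucc, Fin.val_last]
    rw [pow_succ]
    omega

theorem flatMap_length {α β : Type} (L : List α) (f : α → List β) (c : ℕ)
    (h : ∀ a ∈ L, (f a).length = c) : (L.flatMap f).length = L.length * c := by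
  rw [List.length_flatMap]
  have : (L.map fun a => (f a).length) = L.map fun _ => c := by
    apply List.map_congr_left
    intro a ha
    exact h a ha
  rw [this]
  simp

theorem block_length {l : ℕ} (ga : ℕ) (s : Bool) (f : Fin l → Bool) :
    (blockW ga s f).length = 1 + ga + l := by
  cases s <;> simp [blockW] <;> omega

theorem list_length {m l : ℕ} (ga : ℕ) (s : Bool) (D : Idx m → Fin l → Bool) :
    (listW ga s D).length = listLen m l ga := by
  unfold listW listLen
  rw [List.length_append, flatMap_length _ _ (1 + ga + l)]
  · simp
  · intro j _
    exact block_length _ _ _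

theorem side_length {m : ℕ} (T : Fin m → List Lt) (c : ℕ) (h : ∀ b, (T b).length = c) :
    ((List.finRange m).flatMap fun b : Fin m => T b ++ List.replicate (2 ^ (b : ℕ)) Lt.pad).length =
      m * c + (2 ^ m - 1) := by
  rw [List.length_flatMap]
  have h1 : ((List.finRange m).map fun b : Fin m =>
      (T b ++ List.replicate (2 ^ (b : ℕ)) Lt.pad).length) =
      (List.finRange m).map fun b : Fin m => c + 2 ^ (b : ℕ) := by
    apply List.map_congr_left
    intro a _
    rw [List.length_append, List.length_replicate, h]
  rw [h1, ← List.ofFn_eq_map, List.sum_ofFn, Finset.sum_add_distrib]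
  have h2 := sum_two_pow m
  simp only [Finset.sum_const, Finset.card_univ, Fintype.card_fin, smul_eq_mul]
  omega

theorem tree_length {m l : ℕ} (ga : ℕ) (x : List (Dr m) → Bool → Idx m → Fin l → Bool) :
    ∀ (h : ℕ) (v : List (Dr m)), (treeW ga x h v).length = treeLen m l ga h
  | 0, v => by
    simp only [treeW, treeLen, List.length_append, List.length_cons, list_length]
    omega
  | h + 1, v => by
    simp only [treeW, treeLen, List.length_append, List.length_cons, list_length]
    rw [side_length (fun b => treeW ga x h ((false, b) :: v)) (treeLen m l ga h)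
      (fun b => tree_length ga x h _),
      side_length (fun b => treeW ga x h ((true, b) :: v)) (treeLen m l ga h)
      (fun b => tree_length ga x h _)]
    omega

theorem word_length {m l : ℕ} (ga : ℕ) (x : List (Dr m) → Bool → Idx m → Fin l → Bool)
    (d n : ℕ) (h : treeLen m l ga d ≤ n) : (wordW ga d n x).length = n := by
  simp only [wordW, List.length_append, List.length_replicate, tree_length]
  omega

end LENx

theorem t_LEN : LEN_Stmt := by
  intro m l ga
  exact ⟨fun s f => LENx.block_length ga s f, fun s D => LENx.list_length ga s D,
    fun x h v => LENx.tree_length ga x h v, fun x d n h => LENx.word_length ga x d n h⟩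

end Pool.Agent.CPG
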