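import Pool.Agent.CPG.St

/-!
Project CPG, module LIN: Lindsey's lemma for the inner product.
-/

set_option autoImplicit false

namespace Pool.Agent.CPG

open Pool.Agent.Heads Pool.Agent.NQ2

namespace LINx

variable {l : ℕ}

/-- the sign of the inner product -/
noncomputable def chi (y : (Fin l → Bool) × (Fin l → Bool)) : ℝ :=
  Poly.sg (p := 2) Finset.univ ((finTwoArrowEquiv (Fin l → Bool)).symm y)

lemma chi_eq (y : (Fin l → Bool) × (Fin l → Bool)) :
    chi y = if ip y.1 y.2 = true then -1 else 1 := by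
  classical
  unfold chi Poly.sg ip
  rw [Finset.prod_ite, Finset.prod_const, Finset.prod_const_one, mul_one]
  have hc : (Finset.univ.filter fun t : Fin l =>
      ∀ i : Fin 2, (finTwoArrowEquiv (Fin l → Bool)).symm y i t = true).card =
      (Finset.univ.filter fun t : Fin l => (y.1 t && y.2 t) = true).card := by
    congr 1
    ext t
    simp [Fin.forall_fin_two, finTwoArrowEquiv]
  rw [hc]
  by_cases h : Odd (Finset.univ.filter fun t : Fin l => (y.1 t && y.2 t) = true).card
  · rw [if_pos (by simpa using h)]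
    exact h.neg_one_pow
  · rw [if_neg (by simpa using h)]
    rw [Nat.not_odd_iff_even] at h
    exact h.neg_one_pow

/-- the sign of `a` -/
noncomputable def sgn (a : Bool) : ℝ := if a = true then -1 else 1

lemma abs_sgn (a : Bool) : |sgn a| = 1 := by
  unfold sgn
  cases a <;> simp

lemma ind_eq (a : Bool) (y : (Fin l → Bool) × (Fin l → Bool)) :
    ind (ip y.1 y.2 = a) = (1 + sgn a * chi y) / 2 := by
  rw [chi_eq]
  unfold sgn ind
  cases h1 : ip y.1 y.2 <;> cases a <;> norm_num

lemma disc (P : Bool → (Fin l → Bool) → ℝ) (hP : ∀ s y, 0 ≤ P s y ∧ P s y ≤ 1) :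
    |∑ y : (Fin l → Bool) × (Fin l → Bool), P false y.1 * P true y.2 * chi y| ≤
      (2 ^ l : ℝ) ^ 2 * Poly.bet 1 ^ l := by
  classical
  have hg := Poly.gip 1 (Finset.univ : Finset (Fin l))
    (fun i x => if i = 0 then P true (x 1) else P false (x 0)) (by
      intro i x
      split_ifs
      · rw [abs_of_nonneg (hP _ _).1]; exact (hP _ _).2
      · rw [abs_of_nonneg (hP _ _).1]; exact (hP _ _).2) (by
      intro i x x' h
      split_ifs with hi
      · subst hi
        rw [h 1 (by decide)]
      · rw [h 0 (fun h0 => hi h0.symm)])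
  rw [Finset.card_univ, Fintype.card_fin] at hg
  have e : ∑ y : (Fin l → Bool) × (Fin l → Bool), P false y.1 * P true y.2 * chi y =
      ∑ x : Fin (1 + 1) → Fin l → Bool, Poly.sg Finset.univ x *
        ∏ i, (fun (i : Fin (1 + 1)) (x : Fin (1 + 1) → Fin l → Bool) =>
          if i = 0 then P true (x 1) else P false (x 0)) i x := by
    rw [← Equiv.sum_comp (finTwoArrowEquiv (Fin l → Bool))]
    refine Finset.sum_congr rfl fun x _ => ?_
    rw [Fin.prod_univ_two]
    have h1 : chi ((finTwoArrowEquiv (Fin l → Bool)) x) = Poly.sg Finset.univ x := by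
      unfold chi
      rw [Equiv.symm_apply_apply]
    rw [h1]
    simp only [if_pos, one_ne_zero, if_false]
    have h2 : ((finTwoArrowEquiv (Fin l → Bool)) x).1 = x 0 := rfl
    have h3 : ((finTwoArrowEquiv (Fin l → Bool)) x).2 = x 1 := rfl
    rw [h2, h3]
    ring
  rw [e]
  exact hg

end LINx

theorem t_LIN : LIN_Stmt := by
  intro l P a hP
  have hcard : (Fintype.card ((Fin l → Bool) × (Fin l → Bool)) : ℝ) = (2 ^ l : ℝ) ^ 2 := by
    rw [Fintype.card_prod]
    simp [Fintype.card_pi]
    ring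
  have hN : (0 : ℝ) < (2 ^ l : ℝ) ^ 2 := by positivity
  have hd := LINx.disc P hP
  have hb : 0 ≤ Poly.bet 1 ^ l := pow_nonneg (Poly.bet_nonneg 1) l
  unfold avg
  rw [hcard]
  have e : ∑ y : (Fin l → Bool) × (Fin l → Bool),
      P false y.1 * P true y.2 * ind (ip y.1 y.2 = a) =
      (∑ y : (Fin l → Bool) × (Fin l → Bool), P false y.1 * P true y.2) / 2 +
        LINx.sgn a * (∑ y : (Fin l → Bool) × (Fin l → Bool),
          P false y.1 * P true y.2 * LINx.chi y) / 2 := by
    rw [Finset.mul_sum, Finset.sum_div, Finset.sum_div, ← Finset.sum_add_distrib]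
    refine Finset.sum_congr rfl fun y _ => ?_
    rw [LINx.ind_eq]
    ring
  rw [e]
  set S := ∑ y : (Fin l → Bool) × (Fin l → Bool), P false y.1 * P true y.2 * LINx.chi y with hS
  have h1 : LINx.sgn a * S ≤ (2 ^ l : ℝ) ^ 2 * Poly.bet 1 ^ l := by
    refine (le_abs_self _).trans ?_
    rw [abs_mul, LINx.abs_sgn, one_mul]
    exact hd
  rw [add_div, div_right_comm, add_le_add_iff_left, div_le_iff₀ hN]
  have h2 : 0 ≤ (2 ^ l : ℝ) ^ 2 * Poly.bet 1 ^ l := mul_nonneg hN.le hb
  linarith

end Pool.Agent.CPG
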