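import Pool.Agent.CPG.St

/-!
Project CPG, module NDE: the number of nodes and the length of the word of a tree.
-/

set_option autoImplicit false

namespace Pool.Agent.CPG

namespace NDEx

theorem geom (r d : ℕ) (hr : 2 ≤ r) : ∑ j ∈ Finset.range (d + 1), r ^ j ≤ r ^ (d + 1) := by
  induction d with
  | zero => simp; omega
  | succ d ih =>
    rw [Finset.sum_range_succ]
    have h1 : r ^ (d + 1 + 1) = r * r ^ (d + 1) := by ring
    have h2 : 2 * r ^ (d + 1) ≤ r * r ^ (d + 1) := Nat.mul_le_mul_right _ hr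
    omega

theorem card_le (m d : ℕ) (hm : 0 < m) : Fintype.card (Nd m d) ≤ (2 * m) ^ (d + 1) := by
  have hinj : Function.Injective (fun v : Nd m d =>
      (⟨⟨v.1.length, Nat.lt_succ_of_le v.2⟩, v.1.get⟩ :
        Σ j : Fin (d + 1), (Fin (j : ℕ) → Dr m))) := by
    intro v w h
    have key : ∀ a : Σ j : Fin (d + 1), (Fin (j : ℕ) → Dr m), ∀ b, a = b →
        List.ofFn a.2 = List.ofFn b.2 := by
      intro a b hab
      rw [hab]
    have h' := key _ _ h
    simp only [List.ofFn_get] at h'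
    exact Subtype.ext h'
  have h1 := Fintype.card_le_of_injective _ hinj
  have h2 : Fintype.card (Σ j : Fin (d + 1), (Fin (j : ℕ) → Dr m)) =
      ∑ j ∈ Finset.range (d + 1), (2 * m) ^ j := by
    rw [Fintype.card_sigma, ← Fin.sum_univ_eq_sum_range]
    apply Finset.sum_congr rfl
    intro j _
    rw [Fintype.card_fun, Fintype.card_fin, Fintype.card_prod, Fintype.card_bool,
      Fintype.card_fin]
  rw [h2] at h1
  exact h1.trans (geom (2 * m) d (by omega))

theorem len_le (m l ga : ℕ) (hm : 0 < m) (h : ℕ) :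
    treeLen m l ga h + 2 * (listLen m l ga + 2 ^ m + 1) ≤
      (2 * m) ^ (h + 1) * (2 * (listLen m l ga + 2 ^ m + 1)) := by
  have hp : 1 ≤ 2 ^ m := Nat.one_le_two_pow
  have hr : 2 ≤ 2 * m := by omega
  obtain ⟨A, hA⟩ : ∃ A, A = 2 * (listLen m l ga + 2 ^ m + 1) := ⟨_, rfl⟩
  rw [← hA]
  have h2A := Nat.mul_le_mul_right A hr
  induction h with
  | zero =>
    rw [treeLen, zero_add, pow_one]
    omega
  | succ h ih =>
    have h1 : (2 * m) ^ (h + 1 + 1) * A = (2 * m) * ((2 * m) ^ (h + 1) * A) := by ring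
    rw [h1]
    have h2 := Nat.mul_le_mul_left (2 * m) ih
    rw [Nat.mul_add] at h2
    have h3 : treeLen m l ga (h + 1) =
        2 * m * treeLen m l ga h + 2 * (listLen m l ga + 2 ^ m) := by
      rw [treeLen]
      have h4 : 1 + (m * treeLen m l ga h + (2 ^ m - 1)) = m * treeLen m l ga h + 2 ^ m := by
        omega
      rw [h4]
      ring
    rw [h3]
    omega

end NDEx

theorem t_NDE : NDE_Stmt := by
  intro m hm
  refine ⟨fun d => NDEx.card_le m d hm, fun l ga h => ?_⟩
  have := NDEx.len_le m l ga hm h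
  omega

end Pool.Agent.CPG
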