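import Pool.Agent.CPG.St

/-!
# OFF: independent offsets
-/

set_option autoImplicit false

namespace Pool.Agent.CPG

open Pool.Agent.NQ2

namespace OFFx

theorem sum_ind {X : Type} [Fintype X] (P : X → Prop) [DecidablePred P] :
    ∑ x, ind (P x) = ((Finset.univ.filter P).card : ℝ) := by
  classical
  unfold ind
  rw [Finset.card_filter]
  push_cast
  refine Finset.sum_congr rfl fun x _ => ?_
  by_cases h : P x <;> simp [h]

theorem bad_card (th th' n : ℕ) [DecidablePred fun a : Fin th => Bad th th' n a] :
    (Finset.univ.filter fun a : Fin th => Bad th th' n a).card ≤ th' := by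
  classical
  have h1 : Finset.image (Fin.val : Fin th → ℕ)
      (Finset.univ.filter fun a : Fin th => Bad th th' n a) ⊆
      Finset.image (fun i => (n + i) % th) (Finset.range th') := by
    intro b hb
    simp only [Finset.mem_image, Finset.mem_filter, Finset.mem_univ, true_and] at hb
    obtain ⟨a, ⟨i, -, hi, hia⟩, rfl⟩ := hb
    exact Finset.mem_image.mpr ⟨i, Finset.mem_range.mpr hi, hia⟩
  have h2 := Finset.card_le_card h1
  rw [Finset.card_image_of_injective _ Fin.val_injective] at h2
  refine le_trans h2 (le_trans Finset.card_image_le ?_)
  rw [Finset.card_range]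

end OFFx

open OFFx in
theorem t_OFF : OFF_Stmt := by
  intro V _ _ th th' W n hth
  classical
  have hth0 : (0 : ℝ) < (th : ℝ) := by exact_mod_cast hth
  unfold avg
  rw [sum_ind (fun o : V → Fin th => ∀ v ∈ W, Bad th th' (n v) (o v))]
  have hset : (Finset.univ.filter fun o : V → Fin th => ∀ v ∈ W, Bad th th' (n v) (o v)) =
      Fintype.piFinset fun v => if v ∈ W then
        (Finset.univ.filter fun a : Fin th => Bad th th' (n v) a) else Finset.univ := by
    ext o
    simp only [Finset.mem_filter, Finset.mem_univ, true_and, Fintype.mem_piFinset]
    constructor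
    · intro h v
      by_cases hv : v ∈ W
      · rw [if_pos hv]
        exact Finset.mem_filter.mpr ⟨Finset.mem_univ _, h v hv⟩
      · rw [if_neg hv]
        exact Finset.mem_univ _
    · intro h v hv
      have := h v
      rw [if_pos hv] at this
      exact (Finset.mem_filter.mp this).2
  rw [hset, Fintype.card_piFinset, Fintype.card_fun, Fintype.card_fin]
  have hprod : (∏ v, (if v ∈ W then
        (Finset.univ.filter fun a : Fin th => Bad th th' (n v) a) else Finset.univ).card) ≤
      th' ^ W.card * th ^ (Finset.univ \ W).card := by
    calc (∏ v, (if v ∈ W then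
        (Finset.univ.filter fun a : Fin th => Bad th th' (n v) a) else Finset.univ).card)
        ≤ ∏ v, (if v ∈ W then th' else th) := by
          refine Finset.prod_le_prod' fun v _ => ?_
          by_cases hv : v ∈ W
          · rw [if_pos hv, if_pos hv]
            exact bad_card th th' (n v)
          · rw [if_neg hv, if_neg hv, Finset.card_univ, Fintype.card_fin]
      _ = th' ^ W.card * th ^ (Finset.univ \ W).card := by
          rw [Finset.prod_ite, Finset.prod_const, Finset.prod_const]
          congr 2
          · congr 1
            ext v
            simp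
          · congr 1
            ext v
            simp
  have hcard : W.card + (Finset.univ \ W).card = Fintype.card V := by
    rw [← Finset.card_univ, add_comm]
    exact Finset.card_sdiff_add_card_eq_card (Finset.subset_univ W)
  rw [← hcard, div_pow, div_le_div_iff₀ (by positivity) (by positivity)]
  have h3 : ((∏ v, (if v ∈ W then
        (Finset.univ.filter fun a : Fin th => Bad th th' (n v) a) else Finset.univ).card : ℕ) : ℝ) ≤
      (th' : ℝ) ^ W.card * (th : ℝ) ^ (Finset.univ \ W).card := by
    exact_mod_cast hprod
  calc _ ≤ ((th' : ℝ) ^ W.card * (th : ℝ) ^ (Finset.univ \ W).card) * (th : ℝ) ^ W.card :=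
        mul_le_mul_of_nonneg_right h3 (by positivity)
    _ = _ := by
        push_cast
        ring

end Pool.Agent.CPG
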