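import Pool.Agent.CPG.St

/-!
Project CPG (problem MP_5e85fc_lc): no point event during `n` steps, so the node is hidden.
-/

set_option autoImplicit false

namespace Pool.Agent.CPG

open Pool.Agent.Heads Pool.Agent.NQ2

namespace P1x

lemma exists_visit (Q : ℕ → Prop) (n r : ℕ) (hr : 1 ≤ r) (h : r ≤ cnt Q n) :
    ∃ j < n, Q j ∧ cnt Q j + 1 = r := by
  induction n with
  | zero =>
    rw [cnt_zero] at h
    omega
  | succ n ih =>
    by_cases h1 : r ≤ cnt Q n
    · obtain ⟨j, hj, h2, h3⟩ := ih h1
      exact ⟨j, by omega, h2, h3⟩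
    · by_cases h2 : Q n
      · rw [cnt_succ_of Q n h2] at h
        exact ⟨n, by omega, h2, by omega⟩
      · rw [cnt_succ_of_not Q n h2] at h
        exact absurd h h1

lemma exists_res (A f th : ℕ) (hf : f < th) :
    ∃ r, 1 ≤ r ∧ r ≤ th ∧ (A + r) % th = f := by
  have h0 : 0 < th := by omega
  have ha : A % th < th := Nat.mod_lt _ h0
  by_cases h : A % th < f
  · refine ⟨f - A % th, by omega, by omega, ?_⟩
    have h1 : A + (f - A % th) = f + th * (A / th) := by
      have h2 := Nat.mod_add_div A th
      omega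
    rw [h1, Nat.add_mul_mod_self_left, Nat.mod_eq_of_lt hf]
  · refine ⟨f + th - A % th, by omega, by omega, ?_⟩
    have h1 : A + (f + th - A % th) = f + th * (A / th + 1) := by
      have h2 := Nat.mod_add_div A th
      have h3 : th * (A / th + 1) = th * (A / th) + th := by ring
      omega
    rw [h1, Nat.add_mul_mod_self_left, Nat.mod_eq_of_lt hf]

end P1x

theorem t_P1 : P1_Stmt := by
  intro k m d l th M x o v j0 n h
  have hrun : ∀ j, M.run x j0 (M.run x 0 M.c0 j0) j = M.run x 0 M.c0 (j0 + j) := by
    intro j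
    have h1 := run_add M x 0 M.c0 j0 j
    rw [zero_add] at h1
    exact h1.symm
  have hth : 0 < th := by
    have h1 := (o ⟨[], Nat.zero_le d⟩).2
    omega
  have hofs : ofs o v < th := by
    unfold ofs
    split_ifs with h1
    · exact (o ⟨v, h1⟩).2
    · exact hth
  constructor
  · intro j hj hs
    apply h j hj
    left
    intro s
    have h1 := hs s
    rwa [hrun] at h1
  · by_contra hc
    push Not at hc
    obtain ⟨r, hr1, hr2, hr3⟩ := P1x.exists_res (nv M x v j0) (ofs o v) th hofs
    obtain ⟨j, hj, h1, h2⟩ := P1x.exists_visit _ n r hr1 (hr2.trans hc)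
    apply h j hj
    right
    refine ⟨?_, ?_⟩
    · obtain ⟨s, hs⟩ := h1
      refine ⟨s, ?_⟩
      rwa [hrun] at hs
    · have h3 : nv M x v (j0 + j) = nv M x v j0 +
          cnt (fun j => ∃ s, cv M x v s (M.run x j0 (M.run x 0 M.c0 j0) j)) j := by
        unfold nv
        rw [cnt_add]
        congr 1
        apply cnt_congr
        intro i _
        rw [hrun]
      rw [h3, add_assoc, h2, hr3]

end Pool.Agent.CPG
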