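import Pool.Agent.CPG.St

/-!
Project CPG (problem MP_5e85fc_lc): a point event is a co-visit, a bad offset, or a right block
covered at a sample time.
-/

set_option autoImplicit false

namespace Pool.Agent.CPG

open Pool.Agent.Heads Pool.Agent.NQ2

theorem t_P2 : P2_Stmt := by
  intro k m d l th S M x o ρ v j0 tau T th' q hq hT hS hR
  rcases hR with h | ⟨hv, hm⟩
  · exact Or.inl h
  · right
    have h1 : nv M x v j0 ≤ nv M x v (j0 + tau) := cnt_mono _ (Nat.le_add_right _ _)
    have h2 : nv M x v (j0 + tau) = nv M x v j0 +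
        cnt (fun j => ∃ s, cv M x v s (M.run x 0 M.c0 (j0 + j))) tau := by
      unfold nv
      rw [cnt_add]
    by_cases hi : nv M x v (j0 + tau) + 1 - nv M x v j0 < th'
    · left
      refine ⟨nv M x v (j0 + tau) + 1 - nv M x v j0, by omega, hi, ?_⟩
      have h3 : nv M x v j0 + (nv M x v (j0 + tau) + 1 - nv M x v j0) =
          nv M x v (j0 + tau) + 1 := by omega
      rw [h3, hm]
    · right
      have h3 : cnt (fun j => ∃ s, cv M x v s (M.run x 0 M.c0 (j0 + j))) (tau + 1) =
          cnt (fun j => ∃ s, cv M x v s (M.run x 0 M.c0 (j0 + j))) tau + 1 :=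
        cnt_succ_of _ _ hv
      have h4 : cnt (fun j => ∃ s, cv M x v s (M.run x 0 M.c0 (j0 + j))) (tau + 1) =
          cnt (fun j => cv M x v false (M.run x 0 M.c0 (j0 + j)) ∨
            cv M x v true (M.run x 0 M.c0 (j0 + j))) (tau + 1) := by
        apply cnt_congr
        intro j _
        exact Bool.exists_bool
      have h5 := cnt_or_le (fun j => cv M x v false (M.run x 0 M.c0 (j0 + j)))
        (fun j => cv M x v true (M.run x 0 M.c0 (j0 + j))) (tau + 1)
      have h6 : q ≤ cnt (fun j => cv M x v false (M.run x 0 M.c0 (j0 + j))) (tau + 1) ∨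
          q ≤ cnt (fun j => cv M x v true (M.run x 0 M.c0 (j0 + j))) (tau + 1) := by omega
      rcases h6 with h6 | h6
      · obtain ⟨i, hi1, hi2, hi3⟩ := hS v false j0 (tau + 1) (by omega) h6
        exact ⟨false, i, hi1, by omega, hi3⟩
      · obtain ⟨i, hi1, hi2, hi3⟩ := hS v true j0 (tau + 1) (by omega) h6
        exact ⟨true, i, hi1, by omega, hi3⟩

end Pool.Agent.CPG
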