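import Pool.Agent.CPG.St

/-!
# Module PBL: the pebbling lemma for the directions `Dr m`
-/

set_option autoImplicit false

namespace Pool.Agent.CPG

namespace PBLx

theorem map_back {A B : Type} (φ : A ≃ B) (v : List A) : (v.map φ).map φ.symm = v := by
  rw [List.map_map]
  have h : (φ.symm ∘ φ : A → A) = id := by
    funext x
    simp
  rw [h, List.map_id]

theorem map_forth {A B : Type} (φ : A ≃ B) (v : List B) : (v.map φ.symm).map φ = v :=
  map_back φ.symm v

/-- Transfer of the pebbling lemma along an equivalence. -/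
theorem transfer (hPEB : NQ2.PEB_Stmt) (D : Type) (p d T : ℕ) (φ : D ≃ Fin (p + 1))
    (R : List D → ℕ → Prop) (hT : ∀ v j, R v j → j < T) (h0 : ∃ j, R [] j) :
    (∃ (v : List D) (e : D) (tau : ℕ), v.length < d ∧ tau < T ∧ R v tau ∧
      ∀ i, i ≠ e → ∀ j < tau, ¬ R (i :: v) j) ∨
    (∃ (j0 : ℕ) (v : Fin d → List D) (e : Fin d → D) (tau : Fin d → ℕ),
      j0 ≤ T ∧
      (∀ t, (v t).length < d ∧ j0 + tau t < T ∧ R (v t) (j0 + tau t) ∧
        ∀ i, i ≠ e t → ∀ j < tau t, ¬ R (i :: v t) (j0 + j)) ∧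
      ∀ t t' i i', i ≠ e t → i' ≠ e t' → (t, i) ≠ (t', i') →
        ¬ ((i :: v t) <:+ (i' :: v t'))) := by
  rcases hPEB p d T (fun v j => R (v.map φ.symm) j) (fun v j h => hT _ j h)
    (by obtain ⟨j, hj⟩ := h0; exact ⟨j, by simpa using hj⟩) with
    ⟨v, e, tau, h1, h2, h3, h4⟩ | ⟨j0, v, e, tau, h1, h2, h3⟩
  · left
    refine ⟨v.map φ.symm, φ.symm e, tau, by simpa using h1, h2, h3, fun i hi j hj h => ?_⟩
    refine h4 (φ i) (fun h' => hi ?_) j hj ?_
    · rw [← h', Equiv.symm_apply_apply]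
    · simpa using h
  · right
    refine ⟨j0, fun t => (v t).map φ.symm, fun t => φ.symm (e t), tau, h1, fun t => ?_, ?_⟩
    · obtain ⟨g1, g2, g3, g4⟩ := h2 t
      refine ⟨by simpa using g1, g2, g3, fun i hi j hj h => ?_⟩
      refine g4 (φ i) (fun h' => hi ?_) j hj ?_
      · change i = φ.symm (e t)
        rw [← h', Equiv.symm_apply_apply]
      · simpa using h
    · intro t t' i i' hi hi' hne hs
      refine h3 t t' (φ i) (φ i') (fun h => hi ?_) (fun h => hi' ?_) (fun h => hne ?_) ?_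
      · change i = φ.symm (e t)
        rw [← h, Equiv.symm_apply_apply]
      · change i' = φ.symm (e t')
        rw [← h, Equiv.symm_apply_apply]
      · obtain ⟨ht, hii⟩ := Prod.mk.inj h
        rw [ht, φ.injective hii]
      · have h5 := List.IsSuffix.map φ hs
        simpa [map_forth] using h5

end PBLx

/-- PBL. -/
theorem t_PBL (hPEB : NQ2.PEB_Stmt) : PBL_Stmt := by
  classical
  intro m d T R hm hT h0
  have hc : Fintype.card (Dr m) = Fintype.card (Fin ((2 * m - 1) + 1)) := by
    rw [Fintype.card_fin]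
    simp only [Dr, Fintype.card_prod, Fintype.card_bool, Fintype.card_fin]
    omega
  exact PBLx.transfer hPEB (Dr m) (2 * m - 1) d T (Fintype.equivOfCardEq hc) R hT h0

end Pool.Agent.CPG
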