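import Pool.Agent.CPG.StP

/-!
Project CPG (MP_5e85fc_lc): the basic facts on the parameters.
-/

set_option autoImplicit false

namespace Pool.Agent.CPG

open Filter

namespace PRA

/-- Powers of the logarithm are below small powers. -/
theorem ev_log (C : ℝ) (s : ℕ) {r : ℝ} (hr : 0 < r) :
    ∀ᶠ n : ℕ in atTop, C * Real.log n ^ s ≤ (n : ℝ) ^ r := by
  have h1 := (isLittleO_log_rpow_rpow_atTop (s : ℝ) hr)
  have hc : (0 : ℝ) < 1 / (|C| + 1) := by positivity
  have h2 := (h1.bound hc)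
  have h3 := tendsto_natCast_atTop_atTop (R := ℝ) |>.eventually h2
  filter_upwards [h3, eventually_ge_atTop 1] with n hn hn1
  have hn1' : (1 : ℝ) ≤ n := by exact_mod_cast hn1
  have hlog : 0 ≤ Real.log n := Real.log_nonneg hn1'
  rw [Real.rpow_natCast, Real.norm_of_nonneg (pow_nonneg hlog s),
    Real.norm_of_nonneg (Real.rpow_nonneg (by linarith) r)] at hn
  have h4 : (|C| + 1) * Real.log n ^ s ≤ (n : ℝ) ^ r := by
    rw [one_div, inv_mul_eq_div, le_div_iff₀ (by positivity)] at hn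
    linarith
  have h5 : C * Real.log n ^ s ≤ (|C| + 1) * Real.log n ^ s :=
    mul_le_mul_of_nonneg_right (by linarith [le_abs_self C]) (pow_nonneg hlog s)
  exact h5.trans h4

/-- The logarithm tends to infinity. -/
theorem tX : Tendsto (fun n : ℕ => Real.log n) atTop atTop :=
  Real.tendsto_log_atTop.comp tendsto_natCast_atTop_atTop

/-- The second logarithm tends to infinity. -/
theorem tY : Tendsto (fun n : ℕ => Real.log (Real.log n)) atTop atTop :=
  Real.tendsto_log_atTop.comp tX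

/-- The second logarithm is small against the first. -/
theorem ev_Y {r : ℝ} (hr : 0 < r) :
    ∀ᶠ n : ℕ in atTop, Real.log (Real.log n) ≤ r * Real.log n := by
  have h1 := Real.isLittleO_log_id_atTop.bound hr
  have h2 := tX.eventually h1
  filter_upwards [h2, tX.eventually (eventually_ge_atTop 1)] with n hn h3
  simp only [id] at hn
  rw [Real.norm_of_nonneg (Real.log_nonneg h3),
    Real.norm_of_nonneg (by linarith)] at hn
  exact hn

/-- A number as a power. -/
theorem pow_exp {n : ℝ} (hn : 0 < n) (a : ℝ) : n ^ a = Real.exp (a * Real.log n) := by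
  rw [Real.rpow_def_of_pos hn, mul_comm]

theorem two_pow_exp (m : ℕ) : (2 : ℝ) ^ m = Real.exp (m * Real.log 2) := by
  rw [← Real.rpow_natCast, pow_exp (by norm_num)]

end PRA

open PRA

theorem t_PRA : PRA_Stmt := by
  intro η hη hη80
  have hl2a := Real.log_two_gt_d9
  have hl2b := Real.log_two_lt_d9
  have hl2 : 0 < Real.log 2 := by linarith
  filter_upwards [eventually_ge_atTop 2, tX.eventually (eventually_ge_atTop 6),
    tY.eventually (eventually_ge_atTop 2), ev_Y (r := η / 16) (by linarith),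
    tX.eventually (eventually_ge_atTop (16 / η)),
    ev_log 16 2 (r := η / 2) (by linarith), ev_log 1 1 (r := 1 / 4) (by norm_num),
    ev_log 4 2 (r := 1 / 4) (by norm_num)]
    with n hn2 hX6 hY2 hYX hXη h16 h11 h42
  have hn0 : (0 : ℝ) < n := by
    have : 0 < n := by omega
    exact_mod_cast this
  have hn1 : (1 : ℝ) ≤ n := by
    have : 1 ≤ n := by omega
    exact_mod_cast this
  set X := Real.log n with hX
  set Y := Real.log X with hY
  have hX0 : 0 < X := by linarith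
  have hY0 : 0 < Y := by linarith
  have hXX : 0 < X ^ 2 := by positivity
  set y := (n : ℝ) ^ (1 / 2 - η) with hy
  have hy14 : (n : ℝ) ^ (1 / 4 : ℝ) ≤ y :=
    Real.rpow_le_rpow_of_exponent_le hn1 (by linarith)
  have hy6 : 6 ≤ y := by
    have : X ≤ (n : ℝ) ^ (1 / 4 : ℝ) := by simpa using h11
    linarith
  have hy4 : 4 * X ^ 2 ≤ y := h42.trans hy14
  -- the number of bits
  have hm : (0 : ℝ) ≤ (1 / 2 - η) * X / Real.log 2 := by
    have : 0 ≤ 1 / 2 - η := by linarith
    positivity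
  have hm1 : (mN η n : ℝ) ≤ (1 / 2 - η) * X / Real.log 2 := Nat.floor_le hm
  have hm2 : (1 / 2 - η) * X / Real.log 2 < (mN η n : ℝ) + 1 := Nat.lt_floor_add_one _
  have hm1' : (mN η n : ℝ) * Real.log 2 ≤ (1 / 2 - η) * X := (le_div_iff₀ hl2).1 hm1
  have hm2' : (1 / 2 - η) * X < ((mN η n : ℝ) + 1) * Real.log 2 := (div_lt_iff₀ hl2).1 hm2
  have hmX : (mN η n : ℝ) ≤ X := by
    refine hm1.trans ?_
    rw [div_le_iff₀ hl2]
    have h1 : (1 / 2 - η) * X ≤ Real.log 2 * X :=
      mul_le_mul_of_nonneg_right (by linarith) hX0.le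
    linarith
  have hmtwo : 2 ≤ mN η n := by
    refine Nat.le_floor ?_
    rw [le_div_iff₀ hl2]
    push_cast
    have h1 : (1 / 2 - η) * 6 ≤ (1 / 2 - η) * X :=
      mul_le_mul_of_nonneg_left hX6 (by linarith)
    linarith
  have hA : (2 : ℝ) ^ mN η n ≤ y := by
    rw [two_pow_exp, hy, pow_exp hn0]
    exact Real.exp_le_exp.2 hm1'
  have hB : y ≤ 2 * (2 : ℝ) ^ mN η n := by
    have h1 : y ≤ (2 : ℝ) ^ (mN η n + 1) := by
      rw [two_pow_exp, hy, pow_exp hn0]
      refine Real.exp_le_exp.2 ?_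
      push_cast
      exact hm2'.le
    rw [pow_succ] at h1
    linarith
  -- the depth
  have hXY : 8 / η ≤ X / Y := by
    rw [div_le_div_iff₀ hη hY0]
    linarith
  have hd0 : (0 : ℝ) ≤ η / 4 * X / Y := by positivity
  have hd1 : (dN η n : ℝ) ≤ η / 4 * X / Y := Nat.floor_le hd0
  have hd2 : η / 4 * X / Y < (dN η n : ℝ) + 1 := Nat.lt_floor_add_one _
  have hd1' : (dN η n : ℝ) * Y ≤ η / 4 * X := (le_div_iff₀ hY0).1 hd1
  have hdX : (dN η n : ℝ) ≤ X := by
    refine hd1.trans ?_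
    rw [div_le_iff₀ hY0]
    have h1 : η / 4 * X ≤ 1 * X := mul_le_mul_of_nonneg_right (by linarith) hX0.le
    have h2 : X * 2 ≤ X * Y := mul_le_mul_of_nonneg_left hY2 hX0.le
    linarith
  have hdlow : η / 8 * X / Y ≤ dN η n := by
    have h1 : η / 8 * X / Y = η / 8 * (X / Y) := by ring
    have h2 : η / 4 * X / Y = η / 4 * (X / Y) := by ring
    have h3 : 1 ≤ η / 8 * (X / Y) := by
      have := mul_le_mul_of_nonneg_left hXY (show 0 ≤ η / 8 by linarith)
      have e : η / 8 * (8 / η) = 1 := by field_simp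
      linarith
    rw [h1]
    rw [h2] at hd2
    linarith
  have hpow : (2 * (mN η n : ℝ)) ^ (dN η n + 1) ≤ (n : ℝ) ^ (η / 2) := by
    have h1 : (2 * (mN η n : ℝ)) ^ (dN η n + 1) ≤ (2 * X) ^ (dN η n + 1) :=
      pow_le_pow_left₀ (by positivity) (by linarith) _
    have h2 : (2 * X) ^ (dN η n + 1) = Real.exp (((dN η n : ℝ) + 1) * (Real.log 2 + Y)) := by
      rw [← Real.rpow_natCast, pow_exp (by positivity), Real.log_mul (by norm_num) hX0.ne']
      push_cast
      rfl
    have h3 : (n : ℝ) ^ (η / 2) = Real.exp (η / 2 * X) := pow_exp hn0 _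
    rw [h3]
    refine h1.trans ?_
    rw [h2]
    refine Real.exp_le_exp.2 ?_
    -- `(d + 1) (log 2 + Y) ≤ d Y + d log 2 + Y + log 2`
    have h4 : (dN η n : ℝ) * Real.log 2 ≤ η / 8 * X := by
      have h5 : (dN η n : ℝ) * 2 ≤ (dN η n : ℝ) * Y :=
        mul_le_mul_of_nonneg_left hY2 (Nat.cast_nonneg _)
      have h6 : (dN η n : ℝ) * Real.log 2 ≤ (dN η n : ℝ) * 1 :=
        mul_le_mul_of_nonneg_left (by linarith) (Nat.cast_nonneg _)
      linarith
    have h7 : 16 ≤ η * X := by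
      rw [div_le_iff₀ hη] at hXη
      linarith
    have h8 : ((dN η n : ℝ) + 1) * (Real.log 2 + Y) =
        (dN η n : ℝ) * Y + (dN η n : ℝ) * Real.log 2 + Y + Real.log 2 := by ring
    rw [h8]
    have h9 : Real.log 2 ≤ η / 16 * X := by linarith
    linarith
  -- the length of the contents
  have hl1 : (lN η n : ℝ) ≤ y := Nat.floor_le (by linarith)
  have hl2' : y < (lN η n : ℝ) + 1 := Nat.lt_floor_add_one _
  have hlhalf : y / 2 ≤ lN η n := by linarith
  have hlpos : 0 < lN η n := by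
    have : (0 : ℝ) < lN η n := by linarith
    exact_mod_cast this
  -- the thresholds
  have ht0 : (0 : ℝ) ≤ (lN η n : ℝ) / X ^ 2 := by positivity
  have ht1 : (tN η n : ℝ) ≤ (lN η n : ℝ) / X ^ 2 := Nat.floor_le ht0
  have ht2 : (lN η n : ℝ) / X ^ 2 < (tN η n : ℝ) + 1 := Nat.lt_floor_add_one _
  have hyX : 1 ≤ y / (4 * X ^ 2) := by
    rw [one_le_div (by positivity)]
    exact hy4
  have htlow : y / (4 * X ^ 2) ≤ tN η n := by
    have h1 : y / 2 / X ^ 2 ≤ (lN η n : ℝ) / X ^ 2 :=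
      div_le_div_of_nonneg_right hlhalf hXX.le
    have h2 : y / 2 / X ^ 2 = 2 * (y / (4 * X ^ 2)) := by
      field_simp
      ring
    linarith
  have htpos : 0 < tN η n := by
    have : (0 : ℝ) < tN η n := by linarith
    exact_mod_cast this
  have htposR : (0 : ℝ) < tN η n := by exact_mod_cast htpos
  set z := (n : ℝ) ^ (-(2 * η)) with hz
  have hz0 : 0 < z := Real.rpow_pos_of_pos hn0 _
  have hz1 : z ≤ 1 := Real.rpow_le_one_of_one_le_of_nonpos hn1 (by linarith)
  have hu0 : (0 : ℝ) ≤ (tN η n : ℝ) * z := by positivity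
  have hu1 : (uN η n : ℝ) ≤ (tN η n : ℝ) * z := Nat.floor_le hu0
  have hu2 : (tN η n : ℝ) * z < (uN η n : ℝ) + 1 := Nat.lt_floor_add_one _
  have hut : uN η n ≤ tN η n := by
    have h1 : (tN η n : ℝ) * z ≤ tN η n * 1 := mul_le_mul_of_nonneg_left hz1 htposR.le
    have h2 : (uN η n : ℝ) ≤ tN η n := by linarith
    exact_mod_cast h2
  have hutz : (uN η n : ℝ) / tN η n ≤ z := by
    rw [div_le_iff₀ htposR]
    linarith
  -- half of the small threshold
  set w := (n : ℝ) ^ (1 / 2 - 7 / 2 * η) with hw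
  have hw1 : 1 ≤ w := Real.one_le_rpow hn1 (by linarith)
  have hyz : y * z = w * (n : ℝ) ^ (η / 2) := by
    rw [hy, hz, hw, ← Real.rpow_add hn0, ← Real.rpow_add hn0]
    congr 1
    ring
  have hq1 : 2 * qN η n ≤ uN η n := Nat.mul_div_le _ _
  have hq2 : (uN η n : ℝ) ≤ 2 * qN η n + 1 := by
    have : uN η n ≤ 2 * qN η n + 1 := by
      unfold qN
      omega
    exact_mod_cast this
  have hqlow : w ≤ qN η n := by
    have h1 : y / (4 * X ^ 2) * z ≤ (tN η n : ℝ) * z := mul_le_mul_of_nonneg_right htlow hz0.le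
    have h2 : y / (4 * X ^ 2) * z = w * ((n : ℝ) ^ (η / 2) / (4 * X ^ 2)) := by
      rw [div_mul_eq_mul_div, hyz]
      ring
    have h3 : 4 ≤ (n : ℝ) ^ (η / 2) / (4 * X ^ 2) := by
      rw [le_div_iff₀ (by positivity)]
      linarith
    have h4 : w * 4 ≤ w * ((n : ℝ) ^ (η / 2) / (4 * X ^ 2)) :=
      mul_le_mul_of_nonneg_left h3 (by linarith)
    linarith
  have hqpos : 0 < qN η n := by
    have : (0 : ℝ) < qN η n := by linarith
    exact_mod_cast this
  -- the number of sample times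
  set v := (n : ℝ) ^ (1 / 2 - 15 * η) with hv
  have hv1 : 1 ≤ v := Real.one_le_rpow hn1 (by linarith)
  have hs1 : v ≤ sN η n := Nat.le_ceil _
  have hs2 : (sN η n : ℝ) < v + 1 := Nat.ceil_lt_add_one (by linarith)
  exact ⟨⟨hmtwo, hmX, hA, hB⟩, ⟨hpow, hdlow, hdX⟩, ⟨hlpos, hlhalf, hl1⟩,
    ⟨htpos, ht1, hut, hutz⟩, ⟨hqpos, hq1, hqlow⟩, ⟨hs1, by linarith⟩⟩

end Pool.Agent.CPG
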