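import Pool.Agent.CPG.StP

/-!
Project CPG (MP_5e85fc_lc), module PRF: the final choice of the parameters.
-/

set_option autoImplicit false

namespace Pool.Agent.CPG

namespace PRFx

open Filter Asymptotics

/-- Powers are smaller than exponentials. -/
theorem G (k : ℕ) (C δ : ℝ) (hδ : 0 < δ) :
    ∀ᶠ x : ℝ in atTop, C * (1 + x) ^ k ≤ Real.exp (δ * x) := by
  have hpos : (0 : ℝ) < |C| * 2 ^ k + 1 := by positivity
  have h := (isLittleO_pow_exp_pos_mul_atTop (k := k) hδ).def (c := 1 / (|C| * 2 ^ k + 1))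
    (by positivity)
  filter_upwards [h, eventually_ge_atTop (1 : ℝ)] with x hx hx1
  have hx0 : (0 : ℝ) ≤ x := by linarith
  rw [Real.norm_of_nonneg (by positivity), Real.norm_of_nonneg (Real.exp_pos _).le] at hx
  have h1 : (1 + x) ^ k ≤ 2 ^ k * x ^ k := by
    rw [← mul_pow]
    exact pow_le_pow_left₀ (by linarith) (by linarith) k
  calc C * (1 + x) ^ k ≤ |C| * (1 + x) ^ k :=
        mul_le_mul_of_nonneg_right (le_abs_self C) (by positivity)
    _ ≤ |C| * (2 ^ k * x ^ k) := mul_le_mul_of_nonneg_left h1 (abs_nonneg _)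
    _ = (|C| * 2 ^ k) * x ^ k := by ring
    _ ≤ (|C| * 2 ^ k) * (1 / (|C| * 2 ^ k + 1) * Real.exp (δ * x)) :=
        mul_le_mul_of_nonneg_left hx (by positivity)
    _ = (|C| * 2 ^ k) / (|C| * 2 ^ k + 1) * Real.exp (δ * x) := by ring
    _ ≤ 1 * Real.exp (δ * x) := by
        apply mul_le_mul_of_nonneg_right _ (Real.exp_pos _).le
        rw [div_le_one hpos]
        linarith
    _ = Real.exp (δ * x) := one_mul _

/-- If `x ≤ exp y` and `2 + y ≤ z`, then `x ≤ exp z / 6`. -/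
theorem key (x y z : ℝ) (h1 : x ≤ Real.exp y) (h2 : 2 + y ≤ z) : x ≤ Real.exp z / 6 := by
  have h6 : (6 : ℝ) ≤ Real.exp 2 := by
    have h3 : Real.exp 2 = Real.exp 1 * Real.exp 1 := by rw [← Real.exp_add]; norm_num
    have h4 := Real.exp_one_gt_d9
    rw [h3]
    calc (6 : ℝ) ≤ 2.7 * 2.7 := by norm_num
      _ ≤ _ := mul_le_mul (by linarith) (by linarith) (by norm_num) (Real.exp_pos _).le
  rw [le_div_iff₀ (by norm_num)]
  calc x * 6 ≤ Real.exp y * Real.exp 2 := mul_le_mul h1 h6 (by norm_num) (Real.exp_pos _).le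
    _ = Real.exp (y + 2) := (Real.exp_add _ _).symm
    _ ≤ _ := Real.exp_le_exp.2 (by linarith)

/-- The estimate of the six terms. -/
theorem core (η c X Y E V T R Gh Gn m N : ℝ) (d : ℕ)
    (hη : 0 < η) (hη1 : η ≤ 1) (hc0 : 0 < c) (hc1 : c ≤ 1) (hcη : c ≤ η / 2)
    (hc : c = η ^ 2 / 16)
    (hX1 : 1 ≤ X) (hXη : 2 / η ≤ X) (hY1 : 1 ≤ Y) (hXY : Y ≤ η ^ 2 / 96 * X)
    (hE0 : 0 ≤ E) (hE : E ≤ Real.exp (-Real.exp (1 / 4 * X)))
    (hV0 : 0 ≤ V) (hV : V ≤ Real.exp X)
    (hT0 : 0 ≤ T) (hT : T ≤ 3 * Real.exp X)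
    (hR : Real.exp (η / 4 * X) ≤ R)
    (hGh0 : 0 ≤ Gh) (hGh : Gh ≤ Real.exp (-(η * X)))
    (hGn0 : 0 ≤ Gn) (hGn : Gn ≤ Real.exp (2 * X))
    (hm0 : 0 ≤ m) (hm : m ≤ X)
    (hN0 : 0 ≤ N) (hN : N ≤ 2 * Real.exp (c * X ^ 2 / Y))
    (hd1 : η / 8 * X / Y ≤ d) (hd2 : (d : ℝ) ≤ X)
    (G1 : 4 * (1 + X) ^ 1 ≤ Real.exp (η / 4 * X))
    (G2 : 10 * (1 + X) ^ 2 ≤ Real.exp (1 / 4 * X)) :
    E + 2 * V * T * Real.exp (-R) + (Gh + Gn * (2 * m * E)) +
      (T + 1) * N * (Gh ^ d + Gn ^ d * (2 * m * d * E)) ≤ Real.exp (-(c * X)) := by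
  have hX0 : 0 ≤ X := by linarith
  have hY0 : 0 < Y := by linarith
  have hηX : η * X ≤ X := mul_le_of_le_one_left hX0 hη1
  have hηX0 : 0 ≤ η * X := mul_nonneg hη.le hX0
  have hX2 : 0 ≤ X ^ 2 := sq_nonneg X
  have hX22 : 2 ≤ X := by
    rw [div_le_iff₀ hη] at hXη
    have h1 : X * η ≤ X * 1 := mul_le_mul_of_nonneg_left hη1 hX0
    linarith
  have hXe : X ≤ Real.exp X := by
    have := Real.add_one_le_exp X
    linarith
  have h2e : (2 : ℝ) ≤ Real.exp 1 := by
    have := Real.add_one_le_exp (1 : ℝ)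
    linarith
  have h4e : (4 : ℝ) ≤ Real.exp 2 := by
    have : Real.exp 2 = Real.exp 1 * Real.exp 1 := by rw [← Real.exp_add]; norm_num
    rw [this]
    calc (4 : ℝ) = 2 * 2 := by norm_num
      _ ≤ _ := mul_le_mul h2e h2e (by norm_num) (Real.exp_pos _).le
  have h6e : (6 : ℝ) ≤ Real.exp 2 := by
    have h3 : Real.exp 2 = Real.exp 1 * Real.exp 1 := by rw [← Real.exp_add]; norm_num
    have h4 := Real.exp_one_gt_d9
    rw [h3]
    calc (6 : ℝ) ≤ 2.7 * 2.7 := by norm_num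
      _ ≤ _ := mul_le_mul (by linarith) (by linarith) (by norm_num) (Real.exp_pos _).le
  have hT1 : T + 1 ≤ Real.exp (2 + X) := by
    have h1 : 1 ≤ Real.exp X := Real.one_le_exp hX0
    calc T + 1 ≤ 4 * Real.exp X := by linarith
      _ ≤ Real.exp 2 * Real.exp X := mul_le_mul_of_nonneg_right h4e (Real.exp_pos _).le
      _ = _ := (Real.exp_add _ _).symm
  have hG1 : 4 + 4 * X ≤ Real.exp (η / 4 * X) := by
    refine le_trans (le_of_eq ?_) G1
    ring
  have hG2 : 10 + 20 * X + 10 * X ^ 2 ≤ Real.exp (1 / 4 * X) := by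
    refine le_trans (le_of_eq ?_) G2
    ring
  set Z := Real.exp (1 / 4 * X) with hZ
  have hcY : c * X ^ 2 / Y ≤ X ^ 2 := by
    rw [div_le_iff₀ hY0]
    nlinarith
  have hcY0 : 0 ≤ c * X ^ 2 / Y := by positivity
  have hNe : N ≤ Real.exp (1 + c * X ^ 2 / Y) := by
    rw [Real.exp_add]
    exact hN.trans (mul_le_mul_of_nonneg_right h2e (Real.exp_pos _).le)
  -- the terms
  have e1 : E ≤ Real.exp (-(η * X)) / 6 := key _ _ _ hE (by linarith)
  have e2 : 2 * V * T * Real.exp (-R) ≤ Real.exp (-(η * X)) / 6 := by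
    apply key _ (2 + X + X + -Real.exp (η / 4 * X))
    · rw [Real.exp_add, Real.exp_add, Real.exp_add]
      apply mul_le_mul _ (Real.exp_le_exp.2 (by linarith)) (Real.exp_pos _).le (by positivity)
      calc 2 * V * T ≤ 2 * Real.exp X * (3 * Real.exp X) := by
            apply mul_le_mul _ hT hT0 (by positivity)
            exact mul_le_mul_of_nonneg_left hV (by norm_num)
        _ = 6 * (Real.exp X * Real.exp X) := by ring
        _ ≤ Real.exp 2 * (Real.exp X * Real.exp X) :=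
            mul_le_mul_of_nonneg_right h6e (by positivity)
        _ = _ := by ring
    · linarith
  have e3 : Gn * (2 * m * E) ≤ Real.exp (-(η * X)) / 6 := by
    apply key _ (2 * X + (1 + X + -Z))
    · rw [Real.exp_add, Real.exp_add, Real.exp_add]
      apply mul_le_mul hGn _ (by positivity) (by positivity)
      apply mul_le_mul _ hE hE0 (by positivity)
      exact mul_le_mul h2e (hm.trans hXe) hm0 (by positivity)
    · linarith
  have e4 : (T + 1) * N * Gh ^ d ≤ Real.exp (-(η * X)) / 6 := by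
    apply key _ (2 + X + (1 + c * X ^ 2 / Y) + (d : ℝ) * (-(η * X)))
    · rw [Real.exp_add, Real.exp_add (2 + X)]
      apply mul_le_mul _ _ (by positivity) (by positivity)
      · exact mul_le_mul hT1 hNe hN0 (by positivity)
      · rw [Real.exp_nat_mul]
        exact pow_le_pow_left₀ hGh0 hGh d
    · have h1 : 2 * (c * X ^ 2 / Y) ≤ (d : ℝ) * (η * X) := by
        calc 2 * (c * X ^ 2 / Y) = (η / 8 * X / Y) * (η * X) := by
              rw [hc]
              field_simp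
              ring
          _ ≤ _ := mul_le_mul_of_nonneg_right hd1 hηX0
      have h2 : 6 * X ≤ c * X ^ 2 / Y := by
        rw [le_div_iff₀ hY0, hc]
        have h3 : 6 * X * Y ≤ 6 * X * (η ^ 2 / 96 * X) :=
          mul_le_mul_of_nonneg_left hXY (by positivity)
        calc 6 * X * Y ≤ 6 * X * (η ^ 2 / 96 * X) := h3
          _ = _ := by ring
      have h3 : (d : ℝ) * (-(η * X)) = -((d : ℝ) * (η * X)) := by ring
      rw [h3]
      linarith
  have e5 : (T + 1) * N * (Gn ^ d * (2 * m * d * E)) ≤ Real.exp (-(η * X)) / 6 := by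
    apply key _ (2 + X + (1 + X ^ 2) + ((d : ℝ) * (2 * X) + (1 + X + X + -Z)))
    · rw [Real.exp_add, Real.exp_add (2 + X)]
      apply mul_le_mul _ _ (by positivity) (by positivity)
      · apply mul_le_mul hT1 _ hN0 (by positivity)
        exact hNe.trans (Real.exp_le_exp.2 (by linarith))
      · rw [Real.exp_add, Real.exp_add (1 + X + X), Real.exp_add (1 + X), Real.exp_add 1 X,
          Real.exp_nat_mul]
        apply mul_le_mul (pow_le_pow_left₀ hGn0 hGn d) _ (by positivity) (by positivity)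
        apply mul_le_mul _ hE hE0 (by positivity)
        apply mul_le_mul _ (hd2.trans hXe) (by positivity) (by positivity)
        exact mul_le_mul h2e (hm.trans hXe) hm0 (by positivity)
    · have h1 : (d : ℝ) * (2 * X) ≤ X * (2 * X) := mul_le_mul_of_nonneg_right hd2 (by linarith)
      have h2 : X * (2 * X) = 2 * X ^ 2 := by ring
      linarith
  have hfin : 2 * Real.exp (-(η * X)) ≤ Real.exp (-(c * X)) := by
    have h1 : (2 : ℝ) ≤ Real.exp (η / 2 * X) := by
      have h2 := Real.add_one_le_exp (η / 2 * X)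
      have h3 : 1 ≤ η / 2 * X := by
        rw [div_le_iff₀ hη] at hXη
        linarith
      linarith
    have h3 : c * X ≤ η / 2 * X := mul_le_mul_of_nonneg_right hcη hX0
    calc 2 * Real.exp (-(η * X)) ≤ Real.exp (η / 2 * X) * Real.exp (-(η * X)) :=
          mul_le_mul_of_nonneg_right h1 (Real.exp_pos _).le
      _ = Real.exp (η / 2 * X + -(η * X)) := (Real.exp_add _ _).symm
      _ ≤ _ := Real.exp_le_exp.2 (by linarith)
  have hexp := Real.exp_pos (-(η * X))
  have hsum : (T + 1) * N * (Gh ^ d + Gn ^ d * (2 * m * d * E)) =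
      (T + 1) * N * Gh ^ d + (T + 1) * N * (Gn ^ d * (2 * m * d * E)) := by ring
  rw [hsum]
  linarith

end PRFx

open Filter in
theorem t_PRF (hPRA : PRA_Stmt) (hPRL : PRL_Stmt) (hPRG : PRG_Stmt) (hPRN : PRN_Stmt)
    (hPRT : PRT_Stmt) : PAR_Stmt := by
  intro e he he4
  set η : ℝ := e / 20 with hη
  have hη0 : 0 < η := by positivity
  have hη1 : η ≤ 1 / 80 := by rw [hη]; linarith
  set c : ℝ := η ^ 2 / 16 with hc
  have hc0 : 0 < c := by positivity
  have hcη : c ≤ η / 2 := by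
    rw [hc]
    nlinarith
  have hc1 : c ≤ 1 := by linarith
  refine ⟨c, hc0, ?_⟩
  have hlog : Tendsto (fun n : ℕ => Real.log (n : ℝ)) atTop atTop :=
    Real.tendsto_log_atTop.comp tendsto_natCast_atTop_atTop
  have hlog2 : ∀ᶠ x : ℝ in atTop, Real.log x ≤ η ^ 2 / 96 * x := by
    have h := Real.isLittleO_log_id_atTop.def (c := η ^ 2 / 96) (by positivity)
    filter_upwards [h, eventually_ge_atTop (1 : ℝ)] with x hx hx1
    rw [id, Real.norm_of_nonneg (Real.log_nonneg hx1), Real.norm_of_nonneg (by linarith)] at hx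
    exact hx
  have hlog3 : ∀ᶠ x : ℝ in atTop, 1 ≤ Real.log x :=
    Real.tendsto_log_atTop.eventually (eventually_ge_atTop 1)
  have hG1 : ∀ᶠ x : ℝ in atTop, 4 * (1 + x) ^ 1 ≤ Real.exp (η / 4 * x) :=
    PRFx.G 1 4 (η / 4) (by positivity)
  have hG2 : ∀ᶠ x : ℝ in atTop, 10 * (1 + x) ^ 2 ≤ Real.exp (1 / 4 * x) :=
    PRFx.G 2 10 (1 / 4) (by norm_num)
  filter_upwards [hPRA η hη0 hη1, hPRL η hη0 hη1, hPRG η hη0 hη1, hPRN η c hη0 hη1 hc0,
    hPRT η c hη0 hη1 hc0 hc1, hlog.eventually hlog2, hlog.eventually hlog3, hlog.eventually hG1,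
    hlog.eventually hG2, hlog.eventually (eventually_ge_atTop 1),
    hlog.eventually (eventually_ge_atTop (2 / η)), eventually_ge_atTop 1] with
    n a1 a2 a3 a4 a5 b1 b2 b3 b4 b5 b6 hn
  obtain ⟨⟨m1, m2, -, -⟩, ⟨-, d1, d2⟩, ⟨l1, -, -⟩, ⟨t1, -, t3, -⟩, ⟨q1, q2, -⟩, -⟩ := a1
  refine ⟨dN η n, mN η n, lN η n, lN η n, tN η n, uN η n, qN η n, sN η n, m1, l1, q1, t1, t3, q2,
    a2, ?_⟩
  intro k t Q N hQ1 hQ hN1 hN ht
  have hn0 : (0 : ℝ) < n := by exact_mod_cast hn
  set X := Real.log (n : ℝ) with hX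
  have hX0 : 0 ≤ X := by linarith
  have hpow : ∀ a : ℝ, (n : ℝ) ^ a = Real.exp (a * X) := by
    intro a
    rw [Real.rpow_def_of_pos hn0, mul_comm]
  have hnX : (n : ℝ) = Real.exp X := (Real.exp_log hn0).symm
  have ht' : (t : ℝ) ≤ (n : ℝ) ^ (3 / 2 - 20 * η) := by
    refine ht.trans (le_of_eq ?_)
    congr 1
    rw [hη]
    ring
  obtain ⟨f1, f2, f3, f4⟩ := a5 k t Q N hQ1 hQ hN ht'
  set T : ℕ := t / lN η n + 1 with hT
  obtain ⟨g1, g2, g3⟩ := a3 T k f1 f3
  have f5 := a4 N hN1 f2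
  have hb0 : 0 ≤ Poly.bet 1 := Poly.bet_nonneg 1
  have hres := PRFx.core η c X (Real.log X) (N ^ tN η n * Poly.bet 1 ^ lN η n)
    (Fintype.card (Nd (mN η n) (dN η n)) : ℝ) (T : ℝ) ((qN η n : ℝ) * sN η n / (T : ℝ))
    (Gh (mN η n) (dN η n) T k (sN η n) (tN η n) (uN η n))
    (Gn (mN η n) (dN η n) T k (sN η n)) (mN η n : ℝ) N (dN η n)
    hη0 (by linarith) hc0 hc1 hcη hc b5 b6 b2 b1 (by positivity)
    (by rw [hpow] at f5; exact f5) (by positivity) (by rw [← hnX]; exact g3) (by positivity)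
    (by
      refine f3.trans ?_
      rw [hpow]
      apply mul_le_mul_of_nonneg_left _ (by norm_num)
      apply Real.exp_le_exp.2
      have h1 : 0 ≤ η * X := by positivity
      linarith)
    (by rw [← hpow]; exact f4)
    (by unfold Gh; positivity)
    (by rw [hpow] at g1; refine g1.trans (le_of_eq ?_); congr 1; ring)
    (by unfold Gn; positivity)
    (by
      refine g2.trans (le_of_eq ?_)
      rw [hnX, ← Real.exp_nat_mul]
      norm_num)
    (by positivity) m2 (by linarith) f2 d1 d2 b3 b4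
  rw [hpow]
  refine le_trans (le_of_eq ?_) (hres.trans (le_of_eq ?_))
  · unfold Er
    ring
  · congr 1
    ring

end Pool.Agent.CPG
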