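import Pool.Agent.CPG.StP

/-!
Project CPG (MP_5e85fc_lc), module PRG: the total weight and the number of the hints.
-/

set_option autoImplicit false

namespace Pool.Agent.CPG

open Pool.Agent.Heads Pool.Agent.NQ2 Filter

namespace PRGx

open Asymptotics

/-- Powers are smaller than exponentials. -/
theorem G (k : ℕ) (C δ : ℝ) (hδ : 0 < δ) :
    ∀ᶠ x : ℝ in atTop, C * (1 + x) ^ k ≤ Real.exp (δ * x) := by
  have hpos : (0 : ℝ) < |C| * 2 ^ k + 1 := by positivity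
  have h := (isLittleO_pow_exp_pos_mul_atTop (k := k) hδ).def (c := 1 / (|C| * 2 ^ k + 1))
    (by positivity)
  filter_upwards [h, eventually_ge_atTop (1 : ℝ)] with x hx hx1
  have hx0 : (0 : ℝ) ≤ x := by linarith
  rw [Real.norm_of_nonneg (by positivity), Real.norm_of_nonneg (Real.exp_pos _).le] at hx
  have h1 : (1 + x) ^ k ≤ 2 ^ k * x ^ k := by
    rw [← mul_pow]
    exact pow_le_pow_left₀ (by linarith) (by linarith) k
  calc C * (1 + x) ^ k ≤ |C| * (1 + x) ^ k :=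
        mul_le_mul_of_nonneg_right (le_abs_self C) (by positivity)
    _ ≤ |C| * (2 ^ k * x ^ k) := mul_le_mul_of_nonneg_left h1 (abs_nonneg _)
    _ = (|C| * 2 ^ k) * x ^ k := by ring
    _ ≤ (|C| * 2 ^ k) * (1 / (|C| * 2 ^ k + 1) * Real.exp (δ * x)) :=
        mul_le_mul_of_nonneg_left hx (by positivity)
    _ = (|C| * 2 ^ k) / (|C| * 2 ^ k + 1) * Real.exp (δ * x) := by ring
    _ ≤ 1 * Real.exp (δ * x) := by
        apply mul_le_mul_of_nonneg_right _ (Real.exp_pos _).le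
        rw [div_le_one hpos]
        linarith
    _ = Real.exp (δ * x) := one_mul _

/-- The estimates, with the quantities as real numbers. -/
theorem est (n X η V M w T S k r : ℝ) (hn : 1 ≤ n) (hX : 1 ≤ X) (h0 : 0 < η) (h1 : η ≤ 1 / 80)
    (hV0 : 0 ≤ V) (hV : V ≤ n ^ (η / 2)) (hM0 : 0 ≤ M) (hM : M ≤ X)
    (hw0 : 0 ≤ w) (hw : w ≤ 2 * n ^ (-(1 / 2 - η))) (hT0 : 0 ≤ T)
    (hT : T ≤ 3 * n ^ (1 - 19 * η)) (hS0 : 0 ≤ S) (hS : S ≤ 2 * n ^ (1 / 2 - 15 * η))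
    (hk0 : 0 ≤ k) (hk : k ≤ X) (hr : r ≤ n ^ (-(2 * η)))
    (g1 : 24 * X ^ 2 ≤ n ^ (15 * η)) (g2 : 16 * X ≤ n ^ (12 * η))
    (g3 : 6 * X ≤ n ^ (η / 2)) (g4 : 16 * X ^ 3 ≤ n ^ ((1 : ℝ) / 2)) :
    V * (2 * M) * (T * k ^ 2 * (2 * w ^ 2) + 2 * S * k * (2 * w) + r) ≤ n ^ (-η) ∧
    V * (2 * M) * (T * k ^ 2 + 2 * S * k + 1) ≤ n ^ (2 : ℝ) := by
  have hn0 : 0 < n := by linarith
  have E : ∀ a b : ℝ, n ^ a * n ^ b = n ^ (a + b) := fun a b => (Real.rpow_add hn0 a b).symm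
  have P : ∀ a : ℝ, 0 < n ^ a := fun a => Real.rpow_pos_of_pos hn0 a
  have L : ∀ a b : ℝ, a ≤ b → n ^ a ≤ n ^ b := fun a b h =>
    Real.rpow_le_rpow_of_exponent_le hn h
  have hX0 : 0 ≤ X := by linarith
  have hVM : V * (2 * M) ≤ n ^ (η / 2) * (2 * X) :=
    mul_le_mul hV (by linarith) (by linarith) (P _).le
  have hVM0 : 0 ≤ V * (2 * M) := by positivity
  have hk2 : k ^ 2 ≤ X ^ 2 := pow_le_pow_left₀ hk0 hk 2
  have hTk : T * k ^ 2 ≤ 3 * n ^ (1 - 19 * η) * X ^ 2 :=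
    mul_le_mul hT hk2 (by positivity) (by have := P (1 - 19 * η); positivity)
  have hSk : 2 * S * k ≤ 4 * n ^ (1 / 2 - 15 * η) * X := by
    have : 2 * S ≤ 4 * n ^ (1 / 2 - 15 * η) := by linarith
    exact mul_le_mul this hk hk0 (by have := P (1 / 2 - 15 * η); positivity)
  have hw2 : 2 * w ^ 2 ≤ 8 * n ^ (-(1 - 2 * η)) := by
    have h2 : w ^ 2 ≤ (2 * n ^ (-(1 / 2 - η))) ^ 2 := pow_le_pow_left₀ hw0 hw 2
    have h3 : (2 * n ^ (-(1 / 2 - η))) ^ 2 = 4 * n ^ (-(1 - 2 * η)) := by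
      rw [mul_pow, sq (n ^ (-(1 / 2 - η))), E]
      norm_num
      congr 1
      ring
    rw [h3] at h2
    linarith
  have t1 : T * k ^ 2 * (2 * w ^ 2) ≤ n ^ (-(2 * η)) := by
    calc T * k ^ 2 * (2 * w ^ 2) ≤
        3 * n ^ (1 - 19 * η) * X ^ 2 * (8 * n ^ (-(1 - 2 * η))) :=
          mul_le_mul hTk hw2 (by positivity) (by have := P (1 - 19 * η); positivity)
      _ = 24 * X ^ 2 * (n ^ (1 - 19 * η) * n ^ (-(1 - 2 * η))) := by ring
      _ = 24 * X ^ 2 * n ^ (-(17 * η)) := by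
          rw [E]; congr 2; ring
      _ ≤ n ^ (15 * η) * n ^ (-(17 * η)) := mul_le_mul_of_nonneg_right g1 (P _).le
      _ = n ^ (-(2 * η)) := by rw [E]; congr 1; ring
  have t2 : 2 * S * k * (2 * w) ≤ n ^ (-(2 * η)) := by
    calc 2 * S * k * (2 * w) ≤
        4 * n ^ (1 / 2 - 15 * η) * X * (2 * (2 * n ^ (-(1 / 2 - η)))) :=
          mul_le_mul hSk (by linarith) (by positivity)
            (by have := P (1 / 2 - 15 * η); positivity)
      _ = 16 * X * (n ^ (1 / 2 - 15 * η) * n ^ (-(1 / 2 - η))) := by ring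
      _ = 16 * X * n ^ (-(14 * η)) := by rw [E]; congr 2; ring
      _ ≤ n ^ (12 * η) * n ^ (-(14 * η)) := mul_le_mul_of_nonneg_right g2 (P _).le
      _ = n ^ (-(2 * η)) := by rw [E]; congr 1; ring
  constructor
  · calc V * (2 * M) * (T * k ^ 2 * (2 * w ^ 2) + 2 * S * k * (2 * w) + r) ≤
        V * (2 * M) * (3 * n ^ (-(2 * η))) :=
          mul_le_mul_of_nonneg_left (by linarith) hVM0
      _ ≤ n ^ (η / 2) * (2 * X) * (3 * n ^ (-(2 * η))) :=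
          mul_le_mul_of_nonneg_right hVM (by have := P (-(2 * η)); positivity)
      _ = 6 * X * (n ^ (η / 2) * n ^ (-(2 * η))) := by ring
      _ = 6 * X * n ^ (-(3 / 2 * η)) := by rw [E]; congr 2; ring
      _ ≤ n ^ (η / 2) * n ^ (-(3 / 2 * η)) := mul_le_mul_of_nonneg_right g3 (P _).le
      _ = n ^ (-η) := by rw [E]; congr 1; ring
  · have u1 : n ^ (1 - 19 * η) ≤ n ^ (1 : ℝ) := L _ _ (by linarith)
    have u2 : n ^ (1 / 2 - 15 * η) ≤ n ^ (1 : ℝ) := L _ _ (by linarith)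
    have u3 : 1 ≤ n ^ (1 : ℝ) := Real.one_le_rpow hn (by norm_num)
    have hXX : X ≤ X ^ 2 := by nlinarith
    have hX1 : 1 ≤ X ^ 2 := by nlinarith
    have s1 : T * k ^ 2 ≤ 3 * (n ^ (1 : ℝ) * X ^ 2) := by
      refine hTk.trans ?_
      have := mul_le_mul_of_nonneg_right u1 (show 0 ≤ X ^ 2 by positivity)
      linarith
    have s2 : 2 * S * k ≤ 4 * (n ^ (1 : ℝ) * X ^ 2) := by
      refine hSk.trans ?_
      have h3 := mul_le_mul u2 hXX hX0 (P 1).le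
      linarith
    have s3 : 1 ≤ n ^ (1 : ℝ) * X ^ 2 := by
      have h3 := mul_le_mul u3 hX1 zero_le_one (P 1).le
      linarith
    calc V * (2 * M) * (T * k ^ 2 + 2 * S * k + 1) ≤
        V * (2 * M) * (8 * (n ^ (1 : ℝ) * X ^ 2)) :=
          mul_le_mul_of_nonneg_left (by linarith) hVM0
      _ ≤ n ^ (η / 2) * (2 * X) * (8 * (n ^ (1 : ℝ) * X ^ 2)) :=
          mul_le_mul_of_nonneg_right hVM (by have := P 1; positivity)
      _ = 16 * X ^ 3 * (n ^ (η / 2) * n ^ (1 : ℝ)) := by ring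
      _ ≤ n ^ ((1 : ℝ) / 2) * (n ^ (η / 2) * n ^ (1 : ℝ)) :=
          mul_le_mul_of_nonneg_right g4 (mul_pos (P _) (P _)).le
      _ = n ^ ((1 : ℝ) / 2 + (η / 2 + 1)) := by rw [E, E]
      _ ≤ n ^ (2 : ℝ) := L _ _ (by linarith)

end PRGx

/-- **PRG** -/
theorem t_PRG (hPRA : PRA_Stmt) (hNDE : NDE_Stmt) : PRG_Stmt := by
  intro η h0 h1
  have hL : Tendsto (fun n : ℕ => Real.log (n : ℝ)) atTop atTop :=
    Real.tendsto_log_atTop.comp tendsto_natCast_atTop_atTop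
  filter_upwards [hPRA η h0 h1, hL.eventually (PRGx.G 2 24 (15 * η) (by positivity)),
    hL.eventually (PRGx.G 1 16 (12 * η) (by positivity)),
    hL.eventually (PRGx.G 1 6 (η / 2) (by positivity)),
    hL.eventually (PRGx.G 3 16 ((1 : ℝ) / 2) (by norm_num)),
    hL.eventually (eventually_ge_atTop (1 : ℝ)), eventually_ge_atTop 1] with
    n hP g1 g2 g3 g4 hX hn T k hk hT
  obtain ⟨⟨a1, a2, a3, a4⟩, ⟨b1, b2, b3⟩, ⟨c1, c2, c3⟩, ⟨d1, d2, d3, d4⟩, ⟨e1, e2, e3⟩,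
    ⟨f1, f2⟩⟩ := hP
  have hn1 : (1 : ℝ) ≤ n := by exact_mod_cast hn
  have hn0 : (0 : ℝ) < n := by linarith
  have X0 : 0 ≤ Real.log n := by linarith
  have ex : ∀ a : ℝ, Real.exp (a * Real.log n) = (n : ℝ) ^ a := fun a => by
    rw [Real.rpow_def_of_pos hn0, mul_comm]
  rw [ex] at g1 g2 g3 g4
  have m0 : 0 < mN η n := by omega
  have hV1 := (hNDE (mN η n) m0).1 (dN η n)
  have hV : (Fintype.card (Nd (mN η n) (dN η n)) : ℝ) ≤ (n : ℝ) ^ (η / 2) := by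
    refine le_trans ?_ b1
    exact_mod_cast hV1
  obtain ⟨w, hw⟩ : ∃ w : ℝ, w = (1 / 2) ^ mN η n := ⟨_, rfl⟩
  have hw0 : 0 ≤ w := by rw [hw]; positivity
  have hww : (2 : ℝ) ^ mN η n * w = 1 := by
    rw [hw, ← mul_pow]; norm_num
  have hw1 : w ≤ 2 * (n : ℝ) ^ (-(1 / 2 - η)) := by
    have h3 := mul_le_mul_of_nonneg_right a4 hw0
    have h4 : 2 * (2 : ℝ) ^ mN η n * w = 2 := by rw [mul_assoc, hww]; norm_num
    rw [h4] at h3
    have h5 := mul_le_mul_of_nonneg_right h3 (Real.rpow_pos_of_pos hn0 (-(1 / 2 - η))).le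
    have h6 : (n : ℝ) ^ (1 / 2 - η) * w * (n : ℝ) ^ (-(1 / 2 - η)) = w := by
      have : (n : ℝ) ^ (1 / 2 - η) * (n : ℝ) ^ (-(1 / 2 - η)) = 1 := by
        rw [← Real.rpow_add hn0]; simp
      calc _ = w * ((n : ℝ) ^ (1 / 2 - η) * (n : ℝ) ^ (-(1 / 2 - η))) := by ring
        _ = w := by rw [this, mul_one]
    rw [h6] at h5
    exact h5
  have p1 : (1 / 2 : ℝ) ^ (2 * mN η n - 1) = 2 * w ^ 2 := by
    have h3 : (1 / 2 : ℝ) ^ (2 * mN η n) = (1 / 2) ^ (2 * mN η n - 1) * (1 / 2) := by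
      rw [← pow_succ]; congr 1; omega
    have h4 : (1 / 2 : ℝ) ^ (2 * mN η n) = w ^ 2 := by
      rw [hw, ← pow_mul, mul_comm]
    linarith
  have p2 : (1 / 2 : ℝ) ^ (mN η n - 1) = 2 * w := by
    have h3 : (1 / 2 : ℝ) ^ mN η n = (1 / 2) ^ (mN η n - 1) * (1 / 2) := by
      rw [← pow_succ]; congr 1; omega
    rw [hw]
    linarith
  have q1 : (1 : ℝ) * (1 + Real.log n) ^ 2 ≥ (Real.log n) ^ 2 := by nlinarith
  have key := PRGx.est (n : ℝ) (Real.log n) η (Fintype.card (Nd (mN η n) (dN η n)) : ℝ)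
    (mN η n : ℝ) w (T : ℝ) (sN η n : ℝ) (k : ℝ) ((uN η n : ℝ) / tN η n) hn1 hX h0 h1
    (Nat.cast_nonneg _) hV (Nat.cast_nonneg _) a2 hw0 hw1 (Nat.cast_nonneg _) hT
    (Nat.cast_nonneg _) f2 (Nat.cast_nonneg _) hk d4 (by nlinarith) (by linarith)
    (by linarith) (by
      refine le_trans ?_ g4
      have h3 : (Real.log n) ^ 3 ≤ (1 + Real.log n) ^ 3 :=
        pow_le_pow_left₀ X0 (by linarith) 3
      linarith)
  refine ⟨?_, ?_, ?_⟩
  · unfold Gh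
    rw [p1, p2]
    exact key.1
  · unfold Gn
    refine key.2.trans (le_of_eq ?_)
    rw [← Real.rpow_natCast]
    norm_num
  · refine hV.trans ?_
    calc (n : ℝ) ^ (η / 2) ≤ (n : ℝ) ^ (1 : ℝ) :=
          Real.rpow_le_rpow_of_exponent_le hn1 (by linarith)
      _ = n := Real.rpow_one _

end Pool.Agent.CPG
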