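import Pool.Agent.CPG.StP

/-!
Project CPG (MP_5e85fc_lc): module PRL, the length of the words.
-/

set_option autoImplicit false

namespace Pool.Agent.CPG

open Pool.Agent.Heads Pool.Agent.NQ2 Filter

theorem t_PRL (hPRA : PRA_Stmt) (hNDE : NDE_Stmt) : PRL_Stmt := by
  intro η h0 h1
  have hlim : ∀ᶠ n : ℕ in atTop, (14 : ℝ) ≤ (n : ℝ) ^ (3 / 2 * η) :=
    ((tendsto_rpow_atTop (by positivity : (0 : ℝ) < 3 / 2 * η)).comp
      tendsto_natCast_atTop_atTop).eventually_ge_atTop 14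
  filter_upwards [hPRA η h0 h1, eventually_ge_atTop 1, hlim] with n hn hn1 h14
  obtain ⟨⟨hm2, -, hmy, -⟩, ⟨hd, -, -⟩, ⟨-, -, hl⟩, -⟩ := hn
  have hn1' : (1 : ℝ) ≤ n := by exact_mod_cast hn1
  have hn0 : (0 : ℝ) < n := by linarith
  set y : ℝ := (n : ℝ) ^ (1 / 2 - η) with hy
  have hy1 : 1 ≤ y := Real.one_le_rpow hn1' (by linarith)
  have hb := (hNDE (mN η n) (by omega)).2 (lN η n) (2 * lN η n) (dN η n)
  have hb' : (treeLen (mN η n) (lN η n) (2 * lN η n) (dN η n) : ℝ) ≤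
      (2 * (mN η n : ℝ)) ^ (dN η n + 1) *
        (2 * ((2 : ℝ) ^ mN η n * (1 + 2 * lN η n + lN η n) + 1 + 2 ^ mN η n + 1)) := by
    have := (Nat.cast_le (α := ℝ)).mpr hb
    simpa [listLen] using this
  have hl0 : (0 : ℝ) ≤ lN η n := Nat.cast_nonneg _
  have hp0 : (0 : ℝ) ≤ (2 : ℝ) ^ mN η n := by positivity
  have h7 : (2 : ℝ) ^ mN η n * (1 + 2 * lN η n + lN η n) + 1 + 2 ^ mN η n + 1 ≤ 7 * y ^ 2 := by
    have h3 : (2 : ℝ) ^ mN η n * (1 + 2 * lN η n + lN η n) ≤ y * (1 + 3 * y) := by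
      have h4 : (1 + 2 * lN η n + lN η n : ℝ) ≤ 1 + 3 * y := by linarith
      exact mul_le_mul hmy h4 (by positivity) (by linarith)
    nlinarith
  have hX : (0 : ℝ) ≤ (n : ℝ) ^ (η / 2) := by positivity
  have h8 : (2 * (mN η n : ℝ)) ^ (dN η n + 1) *
        (2 * ((2 : ℝ) ^ mN η n * (1 + 2 * lN η n + lN η n) + 1 + 2 ^ mN η n + 1)) ≤
      (n : ℝ) ^ (η / 2) * (2 * (7 * y ^ 2)) :=
    mul_le_mul hd (by linarith) (by positivity) hX
  have hy2 : y ^ 2 = (n : ℝ) ^ (1 - 2 * η) := by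
    rw [hy, ← Real.rpow_natCast, ← Real.rpow_mul hn0.le]
    congr 1
    push_cast
    ring
  have h9 : (n : ℝ) ^ (η / 2) * (2 * (7 * y ^ 2)) = 14 * (n : ℝ) ^ (1 - 3 / 2 * η) := by
    rw [hy2]
    have : (n : ℝ) ^ (1 - 3 / 2 * η) = (n : ℝ) ^ (η / 2) * (n : ℝ) ^ (1 - 2 * η) := by
      rw [← Real.rpow_add hn0]
      congr 1
      ring
    rw [this]
    ring
  have h10 : 14 * (n : ℝ) ^ (1 - 3 / 2 * η) ≤ n := by
    have h11 : (n : ℝ) ^ (3 / 2 * η) * (n : ℝ) ^ (1 - 3 / 2 * η) = n := by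
      rw [← Real.rpow_add hn0]
      have : 3 / 2 * η + (1 - 3 / 2 * η) = 1 := by ring
      rw [this, Real.rpow_one]
    calc 14 * (n : ℝ) ^ (1 - 3 / 2 * η)
        ≤ (n : ℝ) ^ (3 / 2 * η) * (n : ℝ) ^ (1 - 3 / 2 * η) :=
          mul_le_mul_of_nonneg_right h14 (by positivity)
      _ = n := h11
  have hfin : (treeLen (mN η n) (lN η n) (2 * lN η n) (dN η n) : ℝ) ≤ (n : ℝ) := by
    calc _ ≤ _ := hb'
      _ ≤ _ := h8
      _ = _ := h9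
      _ ≤ _ := h10
  exact_mod_cast hfin

end Pool.Agent.CPG
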