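import Pool.Agent.CPG.StP

/-!
Project CPG (MP_5e85fc_lc), module PRN: the error of one inner product beats the number of the
transcripts with few visits.
-/

set_option autoImplicit false

namespace Pool.Agent.CPG

open Pool.Agent.Heads Pool.Agent.NQ2 Filter

namespace PRNx

theorem bet_one : Poly.bet 1 = Real.sqrt (1 / 2) := by
  show Real.sqrt ((1 + Poly.bet 0) / 2) = _
  have : Poly.bet 0 = 0 := rfl
  rw [this]
  norm_num

theorem bet_le : Poly.bet 1 ≤ Real.exp (-(17 / 50 : ℝ)) := by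
  rw [bet_one]
  have h2 : Real.log 2 = -Real.log (1 / 2 : ℝ) := by
    rw [one_div, Real.log_inv]; ring
  have hs : Real.sqrt (1 / 2 : ℝ) = Real.exp (-(Real.log 2 / 2)) := by
    rw [Real.sqrt_eq_rpow, Real.rpow_def_of_pos (by norm_num), h2]
    congr 1
    ring
  rw [hs, Real.exp_le_exp]
  have := Real.log_two_gt_d9
  linarith

end PRNx

/-- **PRN** -/
theorem t_PRN (hPRA : PRA_Stmt) : PRN_Stmt := by
  intro η c h0 h1 hc
  have hL : Tendsto (fun n : ℕ => Real.log (n : ℝ)) atTop atTop :=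
    Real.tendsto_log_atTop.comp tendsto_natCast_atTop_atTop
  have hLL : Tendsto (fun n : ℕ => Real.log (Real.log (n : ℝ))) atTop atTop :=
    Real.tendsto_log_atTop.comp hL
  have hP : Tendsto (fun n : ℕ => (n : ℝ) ^ (1 / 4 - η)) atTop atTop :=
    (tendsto_rpow_atTop (by linarith : 0 < 1 / 4 - η)).comp tendsto_natCast_atTop_atTop
  filter_upwards [hPRA η h0 h1, hL.eventually (eventually_ge_atTop (5 : ℝ)),
    hLL.eventually (eventually_ge_atTop (20 * c)), hLL.eventually (eventually_ge_atTop (1 : ℝ)),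
    hP.eventually (eventually_ge_atTop (25 / 3 : ℝ)), eventually_ge_atTop 1] with
    n hA hX hY hY1 hn4 hn N hN1 hN
  obtain ⟨-, -, ⟨c1, c2, c3⟩, ⟨d1, d2, d3, d4⟩, -, -⟩ := hA
  set X := Real.log (n : ℝ) with hXd
  set Y := Real.log X with hYd
  set l := lN η n
  set t := tN η n
  have hn0 : (0 : ℝ) < n := by exact_mod_cast hn
  have hY0 : 0 < Y := by linarith
  have hX0 : 0 < X := by linarith
  have hl0 : (0 : ℝ) < l := by exact_mod_cast c1
  have ht0 : (0 : ℝ) ≤ t := Nat.cast_nonneg _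
  -- the number of transcripts
  have e1 : N ≤ Real.exp (Real.log 2 + c * X ^ 2 / Y) := by
    rw [Real.exp_add, Real.exp_log (by norm_num)]
    exact hN
  have e2 : N ^ t ≤ Real.exp (t * (Real.log 2 + c * X ^ 2 / Y)) := by
    rw [Real.exp_nat_mul]
    exact pow_le_pow_left₀ (by linarith) e1 t
  have e3 : (t : ℝ) * (Real.log 2 + c * X ^ 2 / Y) ≤ 1 / 10 * l := by
    have hlog2 : Real.log 2 ≤ 1 := by
      have := Real.log_two_lt_d9; linarith
    have hlog0 : 0 ≤ Real.log 2 := Real.log_nonneg (by norm_num)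
    have hcY : 0 ≤ c * X ^ 2 / Y := by positivity
    have s1 : (t : ℝ) * (Real.log 2 + c * X ^ 2 / Y) ≤
        (l : ℝ) / X ^ 2 * (Real.log 2 + c * X ^ 2 / Y) :=
      mul_le_mul_of_nonneg_right d2 (by linarith)
    have s2 : (l : ℝ) / X ^ 2 * (Real.log 2 + c * X ^ 2 / Y) =
        (l : ℝ) * (Real.log 2 / X ^ 2 + c / Y) := by
      field_simp
    have s3 : Real.log 2 / X ^ 2 ≤ 1 / 20 := by
      rw [div_le_div_iff₀ (by positivity) (by norm_num)]
      nlinarith
    have s4 : c / Y ≤ 1 / 20 := by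
      rw [div_le_div_iff₀ hY0 (by norm_num)]
      linarith
    calc (t : ℝ) * (Real.log 2 + c * X ^ 2 / Y) ≤ (l : ℝ) * (Real.log 2 / X ^ 2 + c / Y) := by
          rw [← s2]; exact s1
      _ ≤ (l : ℝ) * (1 / 20 + 1 / 20) := mul_le_mul_of_nonneg_left (by linarith) hl0.le
      _ = 1 / 10 * (l : ℝ) := by ring
  -- the inner product
  have e4 : Poly.bet 1 ^ l ≤ Real.exp (l * (-(17 / 50 : ℝ))) := by
    rw [Real.exp_nat_mul]
    exact pow_le_pow_left₀ (Poly.bet_nonneg 1) PRNx.bet_le l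
  have e5 : (n : ℝ) ^ (1 / 4 : ℝ) ≤ 6 / 50 * (n : ℝ) ^ (1 / 2 - η) := by
    have : (n : ℝ) ^ (1 / 2 - η) = (n : ℝ) ^ (1 / 4 : ℝ) * (n : ℝ) ^ (1 / 4 - η) := by
      rw [← Real.rpow_add hn0]
      congr 1
      ring
    rw [this]
    have hp : 0 < (n : ℝ) ^ (1 / 4 : ℝ) := Real.rpow_pos_of_pos hn0 _
    nlinarith
  calc N ^ t * Poly.bet 1 ^ l ≤
      Real.exp (t * (Real.log 2 + c * X ^ 2 / Y)) * Real.exp (l * (-(17 / 50 : ℝ))) :=
        mul_le_mul e2 e4 (pow_nonneg (Poly.bet_nonneg 1) _) (Real.exp_pos _).le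
    _ = Real.exp (t * (Real.log 2 + c * X ^ 2 / Y) + l * (-(17 / 50 : ℝ))) :=
        (Real.exp_add _ _).symm
    _ ≤ Real.exp (-(n : ℝ) ^ (1 / 4 : ℝ)) := by
        rw [Real.exp_le_exp]
        have hl2 : (n : ℝ) ^ (1 / 2 - η) / 2 ≤ l := c2
        linarith

end Pool.Agent.CPG
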