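import Pool.Agent.CPG.StP

/-!
Project CPG, module PRT: the consequences of the restrictions on the automaton.
-/

set_option autoImplicit false

namespace Pool.Agent.CPG

open Pool.Agent.Heads Pool.Agent.NQ2 Filter

theorem t_PRT (hPRA : PRA_Stmt) : PRT_Stmt := by
  intro η c h0 h1 hc0 hc1
  have hYt : Tendsto (fun n : ℕ => Real.log (Real.log (n : ℝ))) atTop atTop :=
    Real.tendsto_log_atTop.comp (Real.tendsto_log_atTop.comp tendsto_natCast_atTop_atTop)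
  have hXt : Tendsto (fun n : ℕ => Real.log (n : ℝ)) atTop atTop :=
    Real.tendsto_log_atTop.comp tendsto_natCast_atTop_atTop
  have hPt : Tendsto (fun n : ℕ => (n : ℝ) ^ (η / 4)) atTop atTop :=
    (tendsto_rpow_atTop (by positivity)).comp tendsto_natCast_atTop_atTop
  filter_upwards [hPRA η h0 h1, hYt.eventually_ge_atTop 1, hXt.eventually_ge_atTop 1,
    hPt.eventually_ge_atTop 3, eventually_ge_atTop 1] with n hP hY hX h3 hn
  obtain ⟨-, -, ⟨hl0, hl1, hl2⟩, -, ⟨hq0, -, hq1⟩, ⟨hs1, -⟩⟩ := hP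
  intro k t Q N hQ hQN hN ht
  have hn1 : (1 : ℝ) ≤ (n : ℝ) := by exact_mod_cast hn
  have hn0 : (0 : ℝ) < (n : ℝ) := by linarith
  have hX0 : 0 < Real.log (n : ℝ) := by linarith
  have hY0 : 0 < Real.log (Real.log (n : ℝ)) := by linarith
  -- the number of heads
  have hk : (k : ℝ) ≤ Real.log n := by
    have h4 : (n : ℝ) ^ k ≤ Q * ((n : ℝ) + 2) ^ k := by
      have h5 : (n : ℝ) ^ k ≤ ((n : ℝ) + 2) ^ k := pow_le_pow_left₀ hn0.le (by linarith) k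
      have h6 : 0 ≤ ((n : ℝ) + 2) ^ k := by positivity
      nlinarith
    have h5 : (k : ℝ) * Real.log n ≤
        c * (Real.log n) ^ 2 / Real.log (Real.log n) := by
      have h6 := Real.log_le_log (by positivity) (h4.trans hQN)
      rwa [Real.log_pow, Real.log_exp] at h6
    have h6 : c * (Real.log n) ^ 2 / Real.log (Real.log n) ≤ (Real.log n) ^ 2 := by
      rw [div_le_iff₀ hY0]
      have h7 : 0 ≤ (Real.log (n : ℝ)) ^ 2 := by positivity
      nlinarith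
    have h7 : (k : ℝ) * Real.log n ≤ Real.log n * Real.log n := by
      have h8 := h5.trans h6
      rwa [pow_two] at h8
    exact le_of_mul_le_mul_right h7 hX0
  -- the number of configurations
  have hNN : N ≤ 2 * Real.exp (c * (Real.log n) ^ 2 / Real.log (Real.log n)) := by
    have h4 : 2 * Q * ((n : ℝ) + 2) ^ k = 2 * (Q * ((n : ℝ) + 2) ^ k) := by ring
    rw [h4] at hN
    linarith
  -- the number of windows
  have hlR : (0 : ℝ) < (lN η n : ℝ) := by exact_mod_cast hl0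
  have hp1 : (n : ℝ) ^ (3 / 2 - 20 * η) = (n : ℝ) ^ (1 - 19 * η) * (n : ℝ) ^ (1 / 2 - η) := by
    rw [← Real.rpow_add hn0]
    congr 1
    ring
  have hp2 : 1 ≤ (n : ℝ) ^ (1 - 19 * η) := Real.one_le_rpow hn1 (by linarith)
  have hp3 : 0 < (n : ℝ) ^ (1 / 2 - η) := by positivity
  have hT : (((t / lN η n + 1 : ℕ) : ℕ) : ℝ) ≤ 3 * (n : ℝ) ^ (1 - 19 * η) := by
    have h4 : ((t / lN η n : ℕ) : ℝ) ≤ (t : ℝ) / (lN η n : ℝ) := Nat.cast_div_le
    have h5 : (t : ℝ) / (lN η n : ℝ) ≤ 2 * (n : ℝ) ^ (1 - 19 * η) := by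
      rw [div_le_iff₀ hlR]
      calc (t : ℝ) ≤ (n : ℝ) ^ (3 / 2 - 20 * η) := ht
        _ = (n : ℝ) ^ (1 - 19 * η) * (n : ℝ) ^ (1 / 2 - η) := hp1
        _ = 2 * (n : ℝ) ^ (1 - 19 * η) * ((n : ℝ) ^ (1 / 2 - η) / 2) := by ring
        _ ≤ 2 * (n : ℝ) ^ (1 - 19 * η) * (lN η n : ℝ) :=
          mul_le_mul_of_nonneg_left hl1 (by positivity)
    push_cast
    linarith
  refine ⟨hk, hNN, hT, ?_⟩
  have hT0 : (0 : ℝ) < ((t / lN η n + 1 : ℕ) : ℝ) := by positivity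
  rw [le_div_iff₀ hT0]
  have h4 : (n : ℝ) ^ (η / 4) * ((t / lN η n + 1 : ℕ) : ℝ) ≤
      (n : ℝ) ^ (η / 4) * (3 * (n : ℝ) ^ (1 - 19 * η)) :=
    mul_le_mul_of_nonneg_left hT (by positivity)
  have h5 : (n : ℝ) ^ (η / 4) * (3 * (n : ℝ) ^ (1 - 19 * η)) ≤
      (n : ℝ) ^ (η / 4) * ((n : ℝ) ^ (η / 4) * (n : ℝ) ^ (1 - 19 * η)) :=
    mul_le_mul_of_nonneg_left (mul_le_mul_of_nonneg_right h3 (by positivity)) (by positivity)
  have h6 : (n : ℝ) ^ (η / 4) * ((n : ℝ) ^ (η / 4) * (n : ℝ) ^ (1 - 19 * η)) =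
      (n : ℝ) ^ (1 / 2 - 7 / 2 * η) * (n : ℝ) ^ (1 / 2 - 15 * η) := by
    rw [← Real.rpow_add hn0, ← Real.rpow_add hn0, ← Real.rpow_add hn0]
    congr 1
    ring
  have h7 : (n : ℝ) ^ (1 / 2 - 7 / 2 * η) * (n : ℝ) ^ (1 / 2 - 15 * η) ≤
      (qN η n : ℝ) * (sN η n : ℝ) :=
    mul_le_mul hq1 hs1 (by positivity) (by positivity)
  linarith

end Pool.Agent.CPG
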