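import Pool.Agent.CPG.St

/-!
# CPG, module SMP

Good sample times exist.
-/

set_option autoImplicit false

namespace Pool.Agent.CPG.SMPx

open Pool.Agent.Heads Pool.Agent.NQ2

lemma ind_true {P : Prop} (h : P) : ind P = 1 := by
  unfold ind
  exact if_pos h

lemma ind_false {P : Prop} (h : ¬ P) : ind P = 0 := by
  unfold ind
  exact if_neg h

lemma ind_nonneg (P : Prop) : 0 ≤ ind P := by
  by_cases h : P
  · rw [ind_true h]
    exact zero_le_one
  · rw [ind_false h]

lemma ind_forall {J : Type} [Fintype J] (P : J → Prop) : ind (∀ j, P j) = ∏ j, ind (P j) := by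
  by_cases h : ∀ j, P j
  · rw [ind_true h]
    symm
    exact Finset.prod_eq_one fun j _ => ind_true (h j)
  · rw [ind_false h]
    push Not at h
    obtain ⟨j, hj⟩ := h
    symm
    exact Finset.prod_eq_zero (Finset.mem_univ j) (ind_false hj)

lemma ind_le_sum {I : Type} [Fintype I] {P : Prop} (Q : I → Prop) (h : P → ∃ i, Q i) :
    ind P ≤ ∑ i, ind (Q i) := by
  by_cases hP : P
  · obtain ⟨i, hi⟩ := h hP
    rw [ind_true hP, ← ind_true hi]
    exact Finset.single_le_sum (f := fun i => ind (Q i)) (fun j _ => ind_nonneg _)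
      (Finset.mem_univ i)
  · rw [ind_false hP]
    exact Finset.sum_nonneg fun j _ => ind_nonneg _

lemma avg_mono {X : Type} [Fintype X] {f g : X → ℝ} (h : ∀ x, f x ≤ g x) : avg f ≤ avg g :=
  div_le_div_of_nonneg_right (Finset.sum_le_sum fun x _ => h x) (Nat.cast_nonneg _)

lemma avg_sum {X I : Type} [Fintype X] [Fintype I] (f : I → X → ℝ) :
    avg (fun x => ∑ i, f i x) = ∑ i, avg (f i) := by
  unfold avg
  rw [Finset.sum_comm, Finset.sum_div]

lemma avg_le_const {X : Type} [Fintype X] [Nonempty X] {f : X → ℝ} {c : ℝ}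
    (h : ∀ x, f x ≤ c) : avg f ≤ c := by
  have hc : (0 : ℝ) < Fintype.card X := by exact_mod_cast Fintype.card_pos
  unfold avg
  rw [div_le_iff₀ hc]
  calc ∑ x, f x ≤ ∑ _x : X, c := Finset.sum_le_sum fun x _ => h x
    _ = c * Fintype.card X := by
      rw [Finset.sum_const, Finset.card_univ, nsmul_eq_mul, mul_comm]

lemma avg_comm {X Y : Type} [Fintype X] [Fintype Y] (f : X → Y → ℝ) :
    avg (fun x => avg fun y => f x y) = avg fun y => avg fun x => f x y := by
  unfold avg
  rw [← Finset.sum_div, ← Finset.sum_div, Finset.sum_comm, div_right_comm]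

lemma exists_le_avg {X : Type} [Fintype X] [Nonempty X] (f : X → ℝ) : ∃ x, f x ≤ avg f := by
  by_contra h
  push Not at h
  obtain ⟨x, -, hx⟩ := Finset.exists_min_image Finset.univ f Finset.univ_nonempty
  have hc : (0 : ℝ) < Fintype.card X := by exact_mod_cast Fintype.card_pos
  have h1 : f x ≤ avg f := by
    unfold avg
    rw [le_div_iff₀ hc]
    calc f x * Fintype.card X = ∑ _x : X, f x := by
          rw [Finset.sum_const, Finset.card_univ, nsmul_eq_mul, mul_comm]
      _ ≤ ∑ y, f y := Finset.sum_le_sum fun y hy => hx y hy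
  exact absurd (h x) (not_lt.2 h1)

/-- The samples which miss a set with at least `q` elements. -/
lemma miss {T S q : ℕ} (hT : 0 < T) (A : Finset (Fin T)) (hA : q ≤ A.card) :
    avg (fun ρ : Fin S → Fin T => ind (∀ i, ρ i ∉ A)) ≤ Real.exp (-((q : ℝ) * S / T)) := by
  have hT' : (0 : ℝ) < T := by exact_mod_cast hT
  have hAT : (A.card : ℝ) ≤ T := by
    have h := A.card_le_univ
    rw [Fintype.card_fin] at h
    exact_mod_cast h
  have hqA : (q : ℝ) ≤ A.card := by exact_mod_cast hA
  have e1 : ∑ ρ : Fin S → Fin T, ind (∀ i, ρ i ∉ A) = ((T : ℝ) - A.card) ^ S := by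
    have e2 : ∑ t : Fin T, ind (t ∉ A) = (T : ℝ) - A.card := by
      classical
      have e3 : ∀ t : Fin T, ind (t ∉ A) = 1 - if t ∈ A then (1 : ℝ) else 0 := by
        intro t
        by_cases h : t ∈ A
        · rw [ind_false (not_not.2 h), if_pos h, sub_self]
        · rw [ind_true h, if_neg h, sub_zero]
      rw [Finset.sum_congr rfl fun t _ => e3 t, Finset.sum_sub_distrib, Finset.sum_const,
        Finset.card_univ, Fintype.card_fin, nsmul_eq_mul, mul_one, Finset.sum_ite_mem,
        Finset.univ_inter, Finset.sum_const, nsmul_eq_mul, mul_one]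
    rw [← e2, Fintype.sum_pow]
    exact Finset.sum_congr rfl fun ρ _ => ind_forall _
  unfold avg
  rw [e1, Fintype.card_fun, Fintype.card_fin, Fintype.card_fin]
  push_cast
  rw [← div_pow]
  have h1 : ((T : ℝ) - A.card) / T ≤ Real.exp (-((q : ℝ) / T)) := by
    have h2 : ((T : ℝ) - A.card) / T ≤ -((q : ℝ) / T) + 1 := by
      rw [div_le_iff₀ hT']
      have e : (-((q : ℝ) / T) + 1) * T = T - q := by
        field_simp
        ring
      rw [e]
      linarith
    exact h2.trans (Real.add_one_le_exp _)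
  calc (((T : ℝ) - A.card) / T) ^ S ≤ Real.exp (-((q : ℝ) / T)) ^ S :=
        pow_le_pow_left₀ (div_nonneg (by linarith) hT'.le) h1 S
    _ = Real.exp (-((q : ℝ) * S / T)) := by
      rw [← Real.exp_nat_mul]
      congr 1
      ring

/-- The first `q` times. -/
lemma cnt_first (Q : ℕ → Prop) (q n : ℕ) :
    cnt (fun j => Q j ∧ cnt Q j < q) n = min (cnt Q n) q := by
  induction n with
  | zero => rw [cnt_zero, cnt_zero, Nat.zero_min]
  | succ n ih =>
    rw [cnt_succ, cnt_succ, ih]
    by_cases h : Q n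
    · by_cases h' : cnt Q n < q
      · rw [if_pos h, if_pos ⟨h, h'⟩]
        omega
      · rw [if_pos h, if_neg fun t => h' t.2]
        omega
    · rw [if_neg h, if_neg fun t => h t.1, add_zero, add_zero]

lemma cnt_pos {Q : ℕ → Prop} {n : ℕ} (h : 0 < cnt Q n) : ∃ j < n, Q j := by
  induction n with
  | zero =>
    rw [cnt_zero] at h
    omega
  | succ n ih =>
    by_cases hn : Q n
    · exact ⟨n, by omega, hn⟩
    · rw [cnt_succ_of_not _ _ hn] at h
      obtain ⟨j, hj, hj'⟩ := ih h
      exact ⟨j, by omega, hj'⟩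

open scoped Classical in
/-- The first `q` times from `j0` on. -/
noncomputable def fst (P : ℕ → Prop) (T q j0 : ℕ) : Finset (Fin T) :=
  Finset.univ.filter fun t : Fin T =>
    j0 ≤ t.1 ∧ P t.1 ∧ cnt (fun j => P (j0 + j)) (t.1 - j0) < q

lemma cnt_le_card {T : ℕ} (R : ℕ → Prop) (n j0 : ℕ) (A : Finset (Fin T))
    (h : ∀ j < n, R j → ∃ t ∈ A, t.1 = j0 + j) : cnt R n ≤ A.card := by
  classical
  have h1 : ∀ j ∈ (Finset.range n).filter R, ∃ t ∈ A, t.1 = j0 + j := by
    intro j hj
    rw [Finset.mem_filter, Finset.mem_range] at hj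
    exact h j hj.1 hj.2
  have h2 : ((Finset.range n).filter R).card ≤ A.card := by
    by_cases hT : Nonempty (Fin T)
    · choose! f hf using h1
      apply Finset.card_le_card_of_injOn f
      · intro j hj
        exact (hf j hj).1
      · intro j hj j' hj' he
        have e1 := (hf j hj).2
        have e2 := (hf j' hj').2
        rw [he] at e1
        omega
    · have h3 : (Finset.range n).filter R = ∅ := by
        rw [Finset.eq_empty_iff_forall_notMem]
        intro j hj
        obtain ⟨t, -, -⟩ := h1 j hj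
        exact hT ⟨t⟩
      rw [h3, Finset.card_empty]
      exact Nat.zero_le _
  unfold cnt
  convert h2

lemma fst_card (P : ℕ → Prop) (T q j0 n : ℕ) (h : j0 + n ≤ T)
    (hq : q ≤ cnt (fun j => P (j0 + j)) n) : q ≤ (fst P T q j0).card := by
  classical
  have h1 : cnt (fun j => P (j0 + j) ∧ cnt (fun j => P (j0 + j)) j < q) n = q := by
    rw [cnt_first (fun j => P (j0 + j)) q n, min_eq_right hq]
  refine h1.symm.le.trans ?_
  apply cnt_le_card _ n j0
  intro j hj hR
  refine ⟨⟨j0 + j, by omega⟩, ?_, rfl⟩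
  unfold fst
  rw [Finset.mem_filter]
  refine ⟨Finset.mem_univ _, Nat.le_add_right _ _, hR.1, ?_⟩
  show cnt (fun j => P (j0 + j)) (j0 + j - j0) < q
  rw [Nat.add_sub_cancel_left]
  exact hR.2

lemma fst_lt (P : ℕ → Prop) (T q j0 n : ℕ) (hq : q ≤ cnt (fun j => P (j0 + j)) n)
    (t : Fin T) (ht : t ∈ fst P T q j0) : j0 ≤ t.1 ∧ t.1 < j0 + n ∧ P t.1 := by
  classical
  unfold fst at ht
  rw [Finset.mem_filter] at ht
  obtain ⟨-, h1, h2, h3⟩ := ht
  refine ⟨h1, ?_, h2⟩
  by_contra hcon
  have h4 : n ≤ t.1 - j0 := by omega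
  have h5 := cnt_mono (fun j => P (j0 + j)) h4
  omega

end Pool.Agent.CPG.SMPx

namespace Pool.Agent.CPG

open Pool.Agent.Heads Pool.Agent.NQ2 SMPx

/-- SMP: good sample times exist. -/
theorem t_SMP : SMP_Stmt := by
  intro k m d l T S q M hT hq
  have : NeZero T := ⟨by omega⟩
  set P : Inp m d l → Nd m d × Bool × Fin T → ℕ → Prop := fun x i j =>
    cv M x i.1.1 i.2.1 (M.run x 0 M.c0 j) with hP
  set Q : Inp m d l → (Fin S → Fin T) → Nd m d × Bool × Fin T → Prop := fun x ρ i =>
    q ≤ (fst (P x i) T q i.2.2).card ∧ ∀ j, ρ j ∉ fst (P x i) T q i.2.2 with hQ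
  have hmain : ∀ x i, avg (fun ρ : Fin S → Fin T => ind (Q x ρ i)) ≤
      Real.exp (-((q : ℝ) * S / T)) := by
    intro x i
    by_cases h : q ≤ (fst (P x i) T q i.2.2).card
    · refine le_trans (le_of_eq ?_) (miss hT (fst (P x i) T q i.2.2) h)
      congr 1
      funext ρ
      have e : Q x ρ i ↔ ∀ j, ρ j ∉ fst (P x i) T q i.2.2 := by
        rw [hQ]
        exact and_iff_right h
      rw [propext e]
    · have e : (fun ρ : Fin S → Fin T => ind (Q x ρ i)) = fun _ => 0 := by
        funext ρ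
        exact ind_false fun t => h t.1
      rw [e]
      unfold avg
      rw [Finset.sum_const_zero, zero_div]
      exact (Real.exp_pos _).le
  obtain ⟨ρ, hρ⟩ := exists_le_avg fun ρ : Fin S → Fin T =>
    avg fun x : Inp m d l => ∑ i, ind (Q x ρ i)
  refine ⟨fun i => (ρ i : ℕ), ?_⟩
  have h1 : avg (fun x : Inp m d l => ind (¬ Smp M x T q fun i => (ρ i : ℕ))) ≤
      avg fun x : Inp m d l => ∑ i, ind (Q x ρ i) := by
    apply avg_mono
    intro x
    apply ind_le_sum
    intro hS
    unfold Smp at hS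
    push Not at hS
    obtain ⟨v, s, j0, n, hn, hc, hno⟩ := hS
    obtain ⟨j, hj, hcv⟩ := cnt_pos (lt_of_lt_of_le hq hc)
    have hv : v.length ≤ d := hcv.1
    refine ⟨(⟨v, hv⟩, s, ⟨j0, by omega⟩), ?_, ?_⟩
    · exact fst_card _ T q j0 n hn hc
    · intro i hi
      obtain ⟨h1, h2, h3⟩ := fst_lt _ T q j0 n hc (ρ i) hi
      exact hno i h1 h2 h3
  refine h1.trans (hρ.trans ?_)
  rw [avg_comm]
  apply avg_le_const
  intro x
  rw [avg_sum]
  calc ∑ i, avg (fun ρ : Fin S → Fin T => ind (Q x ρ i))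
      ≤ ∑ _i : Nd m d × Bool × Fin T, Real.exp (-((q : ℝ) * S / T)) :=
        Finset.sum_le_sum fun i _ => hmain x i
    _ = 2 * (Fintype.card (Nd m d) : ℝ) * T * Real.exp (-((q : ℝ) * S / T)) := by
      rw [Finset.sum_const, Finset.card_univ, Fintype.card_prod, Fintype.card_prod,
        Fintype.card_bool, Fintype.card_fin, nsmul_eq_mul]
      push_cast
      ring

end Pool.Agent.CPG
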