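import Pool.Agent.CPG.Defs

/-!
Project CPG (MP_5e85fc_lc, context-free power gap): the statements of the modules of parts 1 and 2,
with complete proofs in words. Paper proof: note 2908 of the team database (three hostile readings:
helper10, helper81, helper16). `N` is always the number of configurations of the block machine.
-/

set_option autoImplicit false

namespace Pool.Agent.CPG

open Pool.Agent.Heads Pool.Agent.NQ2 Filter

/-! ### Part 1: the lower bound for block machines -/

/-- LIN (80 lines; Lindsey's lemma). Proof: `ind (ip y z = a) = (1 + σ * χ) / 2` with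
`χ = (-1) ^ (number of the t with y t && z t)` and `σ = ± 1`. `Poly.gip 1 Finset.univ` (with
`τ = Fin l`, file `Pool/Agent/Lib_helper16/Poly/Gip.lean`; see `EQ1x.chi_eq`, `EQ1x.row` in
`Pool/Agent/NQ2/EQ1.lean` for the same computation) bounds
`|∑ x, Poly.sg univ x * ∏ i, P i x| ≤ (2 ^ l) ^ 2 * bet 1 ^ l`, where `P i` must not depend on `x i`:
take `P 0 x = P true (x 1)`, `P 1 x = P false (x 0)`; pass from `Fin 2 → Fin l → Bool` to pairs
(`finTwoArrowEquiv`). -/
def LIN_Stmt : Prop :=
  ∀ (l : ℕ) (P : Bool → (Fin l → Bool) → ℝ) (a : Bool), (∀ s y, 0 ≤ P s y ∧ P s y ≤ 1) →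
    avg (fun y : (Fin l → Bool) × (Fin l → Bool) =>
      P false y.1 * P true y.2 * ind (ip y.1 y.2 = a)) ≤
    avg (fun y : (Fin l → Bool) × (Fin l → Bool) => P false y.1 * P true y.2) / 2 +
      Poly.bet 1 ^ l

/-- DPN (80 lines). Which blocks a bit and an index depend on. Proof: copy
`Pool/Agent/NQ2/DEP.lean` (the same four statements for NQ2). -/
def DPN_Stmt : Prop :=
  ∀ (m d l : ℕ),
    (∀ (x x' : Inp m d l) (v : List (Dr m)),
      (∀ z : Zt m d, v <:+ z.1.1 → x z = x' z) → btD x v = btD x' v) ∧
    (∀ (x x' : Inp m d l) (v : List (Dr m)) (s : Bool),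
      (∀ z : Zt m d, v <:+ z.1.1 → v ≠ z.1.1 → x z = x' z) → idx x v s = idx x' v s) ∧
    (∀ (x : Inp m d l) (v : List (Dr m)) (hv : v.length ≤ d),
      btD x v = ip (x (⟨v, hv⟩, false, idx x v false)) (x (⟨v, hv⟩, true, idx x v true))) ∧
    (∀ (x : Inp m d l) (v : List (Dr m)) (s : Bool) (b : Fin m), v.length < d →
      idx x v s b = btD x ((s, b) :: v))

/-- TWO (200 lines; two-party machines with few visits), hypothesis `LIN_Stmt`. `F` is a machine with
two inputs `y`, `z`; in the configuration `c` it sees `y` only if `cov c false`, and `z` only if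
`cov c true`. `R y z` is its run. GOOD runs: never both covered before the time `n`, and fewer than
`th` visits (times `j < n` with one of the two covered). Proof.
(i) For `g : Fin th → C` define the run `D g : ℕ → C × ℕ` (configuration, number of visits so far) by
`D g 0 = (c0, 0)` and, with `D g j = (c, i)`: if `cov c` holds for some side (and `j < n`) then
`D g (j + 1) = (g i, i + 1)` (`g i := c0` if `i ≥ th`), else `D g (j + 1) = (F j c y0 z0, i)` for fixed
arbitrary `y0`, `z0`. If `R y z` has fewer than `th` visits then there is `g` with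
`R y z j = (D g j).1` for all `j ≤ n` (`g i` = the configuration after the visit number `i`; use
`hloc` at the times without a visit). So the set `S` of the transcripts `fun j : Fin (n+1) => R y z j`
of the good runs has at most `N ^ th` elements (image of a function on `Fin th → C`).
(ii) For `τ ∈ S`, the indicator of `transcript of R y z = τ` is `P false y * P true z` with
`P s = ` indicator of `τ 0 = c0 ∧ ∀ j < n, ¬ cov (τ j) (!s) → F j (τ j) (…) = τ (j + 1)` (a step of a
good `τ` does not see `y` or does not see `z`: put the step into the factor of the side which it may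
see; a step which sees neither goes to any factor; `P false` only uses `y`: the other argument is
arbitrary by `hloc`).
(iii) The left side is `∑ τ ∈ S, avg (ind (transcript = τ) * ind (ip y z = a τ)) * B τ`
(a transcript in `S` is good), LIN bounds each summand by `B τ * (avg (ind (transcript = τ)) / 2 +
bet 1 ^ l)`; `∑ τ ∈ S, avg (ind (transcript = τ)) * B τ ≤ avg (B (transcript))`. -/
def TWO_Stmt : Prop :=
  ∀ (l : ℕ) (C : Type) [Fintype C] (F : ℕ → C → (Fin l → Bool) → (Fin l → Bool) → C)
    (cov : C → Bool → Prop) (c0 : C) (R : (Fin l → Bool) → (Fin l → Bool) → ℕ → C) (n th : ℕ)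
    (B : (Fin (n + 1) → C) → ℝ) (a : (Fin (n + 1) → C) → Bool),
    (∀ j c y y' z z', (cov c false → y = y') → (cov c true → z = z') → F j c y z = F j c y' z') →
    (∀ y z, R y z 0 = c0) → (∀ y z j, R y z (j + 1) = F j (R y z j) y z) →
    (∀ τ, 0 ≤ B τ ∧ B τ ≤ 1) →
    avg (fun y : (Fin l → Bool) × (Fin l → Bool) =>
      ind (((∀ j < n, ¬ ∀ s, cov (R y.1 y.2 j) s) ∧
        cnt (fun j => ∃ s, cov (R y.1 y.2 j) s) n < th) ∧
        ip y.1 y.2 = a fun j => R y.1 y.2 j) * B fun j => R y.1 y.2 j) ≤
    avg (fun y : (Fin l → Bool) × (Fin l → Bool) => B fun j => R y.1 y.2 j) / 2 +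
      (Fintype.card C : ℝ) ^ th * Poly.bet 1 ^ l

/-- J1 (150 lines), hypotheses `TWO_Stmt`, `DPN_Stmt`. If the node `u` is hidden, its bit is almost
uniform even if the transcript and the blocks of all other nodes are known.
Proof. For an input `x` and `y, z : Fin l → Bool` let `U x y z` be the input `x` with the block
`(u, false, idx x u false)` replaced by `y` and `(u, true, idx x u true)` by `z`. As `idx · u ·` does
not depend on the blocks of `u` (DPN 2), `idx (U x y z) u = idx x u`, and
`(x, (y, z)) ↦ (U x y z, the two old contents)` is an involution of `Inp × (pairs)`; so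
`avg f = avg over x of avg over (y, z) of f (U x y z)` (see `sum_upd` in `NQ2/J1.lean`, `NQ2/EQ1.lean`
for the same trick). For fixed `x` apply TWO with `F j c y z = M.F (j0 + j) c (U x y z)`,
`cov c s = cv M x u s c`, `R y z j = M.run (U x y z) j0 c0 j`, `B tr` and `a tr` as given
(`B tr (U x y z) = B tr x`, as the changed blocks are blocks of `u`); `cv M (U x y z) u = cv M x u`;
`btD (U x y z) u = ip y z` (DPN 3); `hloc` is the field `loc` of `M`: two inputs `U x y z`,
`U x y' z'` differ only in the two blocks. -/
def J1_Stmt : Prop :=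
  ∀ (k m d l : ℕ) (M : BM k (Zt m d) (Fin l → Bool)) (j0 n th : ℕ) (c0 : M.C) (u : Nd m d)
    (B : (Fin (n + 1) → M.C) → Inp m d l → ℝ) (a : (Fin (n + 1) → M.C) → Bool),
    (∀ tr x, 0 ≤ B tr x ∧ B tr x ≤ 1) →
    (∀ tr x x', (∀ z : Zt m d, z.1 ≠ u → x z = x' z) → B tr x = B tr x') →
    avg (fun x : Inp m d l =>
      ind (Hid M x u.1 j0 c0 n th ∧ btD x u.1 = a fun j => M.run x j0 c0 j) *
        B (fun j => M.run x j0 c0 j) x) ≤
    avg (fun x : Inp m d l => B (fun j => M.run x j0 c0 j) x) / 2 +
      (Fintype.card M.C : ℝ) ^ th * Poly.bet 1 ^ l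

/-- JNT (150 lines), hypotheses `J1_Stmt`, `DPN_Stmt`. A family of nodes, no one in the subtree of
another. Proof: induction on `U.card` as in `NQ2/JOINT.lean`. Let `i ∈ U` have the largest `tau i`
(`Finset.exists_max_image`), `U' = U.erase i`. Apply J1 with `u = u i`, `n = tau i`,
`B tr x = ind (for all i' ∈ U' : EvU of i', expressed by the prefix of tr up to tau i')`,
`a tr =` the bit number `b i` of the index of the block covered by head `hd i` in the last entry of
`tr` (if there is one; otherwise anything, and the event fails: put `ind (covered)` also into `B`, or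
use `false`). For `i' ∈ U'` the event reads `idx x (u i')` and `btD x (u i')`, which depend only on
blocks of nodes with the suffix `u i'` (DPN), and `u i` does not have this suffix: so `B` does not
depend on the blocks of `u i`. So the average is at most `(average for U') / 2 + N ^ th * bet ^ l`
(`1/2 * (rest) ≤ rest`). -/
def JNT_Stmt : Prop :=
  ∀ (k m d l th : ℕ) (M : BM k (Zt m d) (Fin l → Bool)) (j0 : ℕ) (c0 : M.C) (ι : Type)
    (U : Finset ι) (u : ι → List (Dr m)) (tau : ι → ℕ) (hd : ι → Fin k) (b : ι → Fin m),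
    (∀ i ∈ U, (u i).length ≤ d) →
    (∀ i ∈ U, ∀ i' ∈ U, i ≠ i' → ¬ (u i <:+ u i')) →
    avg (fun x : Inp m d l => ind (∀ i ∈ U, EvU M j0 c0 x (u i) (tau i) (hd i) (b i) th)) ≤
      (1 / 2) ^ U.card + (U.card : ℝ) * ((Fintype.card M.C : ℝ) ^ th * Poly.bet 1 ^ l)

/-- PBL (80 lines), hypothesis `NQ2.PEB_Stmt` (proved: `Pool/Agent/NQ2/PEB.lean`). Transfer to the
directions `Dr m`. Proof: `2 * m = (2 * m - 1) + 1`; an equivalence `φ : Dr m ≃ Fin (2 * m - 1 + 1)`
(`Fintype.equivOfCardEq`); apply `PEB_Stmt (2 * m - 1) d T` to `R' v j = R (v.map φ.symm) j` and map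
the nodes back with `List.map φ.symm`; `(i :: v).map φ.symm = φ.symm i :: v.map φ.symm`;
suffixes are preserved by `List.IsSuffix.map` (in both directions as `φ` is injective). -/
def PBL_Stmt : Prop :=
  ∀ (m d T : ℕ) (R : List (Dr m) → ℕ → Prop), 0 < m → (∀ v j, R v j → j < T) → (∃ j, R [] j) →
    (∃ (v : List (Dr m)) (e : Dr m) (tau : ℕ), v.length < d ∧ tau < T ∧ R v tau ∧
      ∀ i, i ≠ e → ∀ j < tau, ¬ R (i :: v) j) ∨
    (∃ (j0 : ℕ) (v : Fin d → List (Dr m)) (e : Fin d → Dr m) (tau : Fin d → ℕ),
      j0 ≤ T ∧
      (∀ t, (v t).length < d ∧ j0 + tau t < T ∧ R (v t) (j0 + tau t) ∧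
        ∀ i, i ≠ e t → ∀ j < tau t, ¬ R (i :: v t) (j0 + j)) ∧
      ∀ t t' i i', i ≠ e t → i' ≠ e t' → (t, i) ≠ (t', i') → ¬ ((i :: v t) <:+ (i' :: v t')))

/-- P1 (100 lines). No point event during `n` steps: the node is hidden. Proof: put
`P j = ∃ s, cv M x v s (M.run x 0 c0 j)`; `M.run x j0 (M.run x 0 c0 j0) j = M.run x 0 c0 (j0 + j)`
(`run_add`). No co-visit: clear. If there were at least `th` visits in `[j0, j0 + n)`, then, as
`cnt P (j0 + ·) - cnt P j0` goes from `0` up in steps of `0` or `1`, for every `r` with `1 ≤ r ≤ th`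
there is `j < n` with `P (j0 + j)` and `cnt P (j0 + j) + 1 = cnt P j0 + r` (induction on `n`, or the
least `j` with `cnt P (j0 + (j + 1)) = cnt P j0 + r`); choose `r` with
`(cnt P j0 + r) % th = ofs o v` (`ofs o v < th`, `0 < th` because `o` exists and `[]` is a node):
a point event, contradiction. -/
def P1_Stmt : Prop :=
  ∀ (k m d l th : ℕ) (M : BM k (Zt m d) (Fin l → Bool)) (x : Inp m d l) (o : Nd m d → Fin th)
    (v : List (Dr m)) (j0 n : ℕ), (∀ j < n, ¬ Rq M x o v (j0 + j)) →
    Hid M x v j0 (M.run x 0 M.c0 j0) n th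

/-- P2 (80 lines). A point event at the time `j0 + tau`: a co-visit, or a bad offset, or a right block
covered at a sample time. Proof: not a co-visit: visit and
`(nv M x v (j0 + tau) + 1) % th = ofs o v`. Let `i = nv M x v (j0 + tau) + 1 - nv M x v j0 ≥ 1`
(`cnt_mono`), the number of visits in `[j0, j0 + tau]`. If `i < th'` the offset is bad. Otherwise
`cnt (visit at j0 + ·) (tau + 1) ≥ th' ≥ 2 q` (`cnt_add`), and by `cnt_or_le` (`(∃ s, p s) ↔
p false ∨ p true`) one side has at least `q` covers in `tau + 1` steps from `j0`: `Smp`. -/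
def P2_Stmt : Prop :=
  ∀ (k m d l th S : ℕ) (M : BM k (Zt m d) (Fin l → Bool)) (x : Inp m d l) (o : Nd m d → Fin th)
    (ρ : Fin S → ℕ) (v : List (Dr m)) (j0 tau T th' q : ℕ), 2 * q ≤ th' → j0 + tau < T →
    Smp M x T q ρ → Rq M x o v (j0 + tau) →
    (∀ s, cv M x v s (M.run x 0 M.c0 (j0 + tau))) ∨
    Bad th th' (nv M x v j0) (ofs o v) ∨
    ∃ (s : Bool) (i : Fin S), j0 ≤ ρ i ∧ ρ i ≤ j0 + tau ∧ cv M x v s (M.run x 0 M.c0 (ρ i))

/-- SMP (150 lines). Good sample times. Proof: (i) abstract: `X` finite, `I` a finite index type,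
`A : X → I → Finset (Fin T)`, every `A x i` is empty or has at least `q` elements... For one set `A`
of at least `q` elements the fraction of the `ρ : Fin S → Fin T` which miss it is
`((T - |A|) / T) ^ S ≤ (1 - q / T) ^ S ≤ exp (- q / T) ^ S = exp (- (q * S / T))`
(`Real.add_one_le_exp`; `q ≤ |A| ≤ T`). Exchange the averages over `x` and `ρ`: there is `ρ` for
which the average over `x` of the indicator some of the sets of size `≥ q` is missed is at most
`|I| * exp (- (q * S / T))`.
(ii) `I = Nd m d × Bool × Fin T`, `A x (v, s, j0) =` the first `q` times `j ≥ j0`, `j < T`, with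
`cv M x v s (M.run x 0 c0 j)`, if there are so many (else `A = ∅`, no condition). If `Smp` fails for
`(v, s, j0, n)`: if `n = 0` or `q = 0` then ... `q = 0`: assume `0 < q` (hypothesis of the statement);
so `n > 0`, `j0 < T`, `v` is a node (`cv` needs `v.length ≤ d`), the first `q` cover times from `j0`
on are in `[j0, j0 + n)`, and no `ρ i` is one of them. (Simpler: let `A x (v, s, j0)` be the set of
cover times in `[j0, j0 + n)` for the LEAST `n` with `q ≤ cnt … n`; for larger `n` the interval is
larger.) -/
def SMP_Stmt : Prop :=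
  ∀ (k m d l T S q : ℕ) (M : BM k (Zt m d) (Fin l → Bool)), 0 < T → 0 < q →
    ∃ ρ : Fin S → ℕ, avg (fun x : Inp m d l => ind (¬ Smp M x T q ρ)) ≤
      2 * (Fintype.card (Nd m d) : ℝ) * T * Real.exp (-((q : ℝ) * S / T))

/-- OFF (100 lines). Independent offsets. Proof: for one `v` the number of `a : Fin th` with
`Bad th th' n a` is at most `th'` (the image of `i ↦ (n + i) % th`, `i < th'`); product over `v ∈ W`:
`avg` of a product of functions of different coordinates of `V → Fin th` is the product of the
averages (`Finset.prod_univ_sum`/`Fintype.piFinset`; or count: the set of the `o` is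
`Fintype.piFinset (fun v => if v ∈ W then bad set else univ)`, `Fintype.card_piFinset`). -/
def OFF_Stmt : Prop :=
  ∀ (V : Type) [Fintype V] [DecidableEq V] (th th' : ℕ) (W : Finset V) (n : V → ℕ), 0 < th →
    avg (fun o : V → Fin th => ind (∀ v ∈ W, Bad th th' (n v) (o v))) ≤
      ((th' : ℝ) / th) ^ W.card

/-- HNT (250 lines), hypotheses `JNT_Stmt`, `OFF_Stmt`. The probability of a family of hints. Proof.
Let `A` be the set of the `t` with a hint of the first two kinds and `W` the others. The nodes
`(η t).1`, `t ∈ W`, are distinct: for `t ≠ t'` with the same node `v` there is `i` different from the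
two directions `(η t).2.1`, `(η t').2.1` (there are `2 m ≥ 4` directions), and then
`i :: v <:+ i :: v` contradicts `Sep`. Let `ι` be the subtype of the pairs `(t, i) : Fin G × Dr m`,
`t ∈ A`, `i ≠ (η t).2.1`, and `i.1 = s` if the hint `t` is of the second kind with the side `s`;
`u (t, i) = i :: (η t).1.1`, `tau (t, i)` = `tau` or `ρ i' - j0`, `hd (t, i) = h i.1` or `h`,
`b (t, i) = i.2`. For fixed `x` the average over `o` of the indicator of all events is at most
`ind (all EvU) * (th' / th) ^ W.card` (the events of `A` do not use `o`; OFF with the set of the nodes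
of `W`, and `n v = nv M x v j0`). Average over `x` by JNT (`U = univ`; lengths `≤ d`: if some
`(η t).1` with `t ∈ A` has length `≥ d` the event is empty and the left side is `0`):
`(th' / th) ^ W.card * ((1/2) ^ card ι + card ι * (N ^ th * bet ^ l))`. The number of the `i` for
`t ∈ A` is `2 m - 1` for the first kind and at least `m - 1` for the second, at most `2 m` in both
cases; so `(1/2) ^ card ι * (th' / th) ^ W.card ≤ ∏ t, wt (…)`, and `card ι ≤ 2 m G`,
`(th' / th) ^ _ ≤ 1`. (`avg` over a product is the average of the averages.) -/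
def HNT_Stmt : Prop :=
  ∀ (k m d l th th' T S G : ℕ) (M : BM k (Zt m d) (Fin l → Bool)) (ρ : Fin S → ℕ) (j0 : ℕ)
    (c : M.C) (η : Fin G → Ht m d T k S), 2 ≤ m → 0 < th → th' ≤ th → Sep η →
    avg (fun xo : Inp m d l × (Nd m d → Fin th) =>
      ind (∀ t, HEv M xo.1 xo.2 th' ρ j0 c (η t))) ≤
    (∏ t, wt m th th' (η t).2.2) + 2 * m * G * ((Fintype.card M.C : ℝ) ^ th * Poly.bet 1 ^ l)

/-- COV (150 lines), hypotheses `PBL_Stmt`, `P1_Stmt`, `P2_Stmt`, `DPN_Stmt`. Proof: apply PBL to
`R v j = (j < T ∧ Rq M x o v j)`. For one group `(v, e, tau)` at the time `j0` (case A: `j0 = 0`):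
`P2` for `v` gives three cases.
Co-visit at `j0 + tau`: `cv M x v s` gives heads `h s` with
`cov (run (j0 + tau)) (h s) = some (v, s, idx x v s)`; hint `(v, e, inl (tau, h))` (`tau < T`): for
`i ≠ e` there is no `Rq` of `i :: v` in `[j0, j0 + tau)`, so `Hid` by `P1`, and bit number `i.2` of
`idx x v i.1` is `btD x (i :: v)` (DPN 4, `v.length < d`).
Bad offset: hint `(v, e, inr (inr ()))` (`ofs o v = o v`).
Sample time: `cv M x v s` at the time `ρ i`: a head `h`; hint `(v, e, inr (inl (s, i, h)))`; as
`ρ i - j0 ≤ tau`, `Hid` up to `ρ i - j0` (`Hid.mono`), `j0 + (ρ i - j0) = ρ i`, and the same argument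
for all `(s, b) ≠ e`.
`M.run x j0 (M.run x 0 c0 j0) n = M.run x 0 c0 (j0 + n)` (`run_add`). In case B, `Sep` is the last
clause of PBL. -/
def COV_Stmt : Prop :=
  ∀ (k m d l th th' q T S : ℕ) (M : BM k (Zt m d) (Fin l → Bool)) (ρ : Fin S → ℕ)
    (x : Inp m d l) (o : Nd m d → Fin th), 0 < m → 2 * q ≤ th' → Smp M x T q ρ →
    (∃ j < T, Rq M x o [] j) →
    (∃ η : Ht m d T k S, HEv M x o th' ρ 0 M.c0 η) ∨
    (∃ j0 ≤ T, ∃ η : Fin d → Ht m d T k S, Sep η ∧
      ∀ t, HEv M x o th' ρ j0 (M.run x 0 M.c0 j0) (η t))

/-- ABS (200 lines), hypotheses `J1_Stmt`, `P1_Stmt`, `SMP_Stmt`, `HNT_Stmt`, `COV_Stmt`. The lower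
bound for block machines. Proof: `ρ` from SMP. The average over `x` is the average over the pairs
`(x, o)`. The event the output is right is contained in the union of:
(1) no `Rq M x o [] j`, `j < T`: then `Hid M x [] 0 c0 T th` (P1 with `j0 = 0`), and
`btD x [] = decide (M.out (run T))`: `J1` with `u = []`, `B = 1`: at most `1/2 + N ^ th * bet ^ l`
(the event does not depend on `o`);
(2) not `Smp`: `2 #V T exp (- (q S / T))`;
(3) case A of COV: union over all hints `η`, HNT with `G = 1` (`Sep` holds: `i :: v <:+ i' :: v`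
implies `i = i'` by lengths): `∑ η, (wt η + 2 m * 1 * N ^ th * bet ^ l) =
Gh + Gn * (2 m (N ^ th bet ^ l))` (`∑ η, wt η = Gh`, number of the hints `= Gn`: `Fintype.sum_prod_type`,
`Fintype.sum_sum_type`, `Fintype.card_prod`, …);
(4) case B: union over `j0 ∈ Finset.range (T + 1)`, `c : M.C` and the `η` with `Sep η`; HNT with
`G = d`, `∑ η : Fin d → Ht, ∏ t, wt (η t) = Gh ^ d` (`Finset.prod_univ_sum` / `Fintype.piFinset_univ`,
`Finset.sum_pow'`), the number of the `η` is `Gn ^ d`. -/
def ABS_Stmt : Prop :=
  ∀ (k m d l th th' q T S : ℕ) (M : BM k (Zt m d) (Fin l → Bool)), 2 ≤ m → 0 < T → 0 < q →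
    0 < th → th' ≤ th → 2 * q ≤ th' →
    avg (fun x : Inp m d l => ind (M.out (M.run x 0 M.c0 T) ↔ btD x [] = true)) ≤
      1 / 2 + Er m d l T k S th th' q (Fintype.card M.C)

/-! ### Part 2: words -/

/-- LEN (80 lines). The lengths. Proof as in `NQ2/LEN.lean`: `List.length_flatMap`,
`∑ b < m, 2 ^ b = 2 ^ m - 1`; induction on the height. -/
def LEN_Stmt : Prop :=
  ∀ (m l ga : ℕ),
    (∀ (s : Bool) (f : Fin l → Bool), (blockW ga s f).length = 1 + ga + l) ∧
    (∀ (s : Bool) (D : Idx m → Fin l → Bool), (listW ga s D).length = listLen m l ga) ∧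
    (∀ (x : List (Dr m) → Bool → Idx m → Fin l → Bool) (h : ℕ) (v : List (Dr m)),
      (treeW ga x h v).length = treeLen m l ga h) ∧
    (∀ (x : List (Dr m) → Bool → Idx m → Fin l → Bool) (d n : ℕ), treeLen m l ga d ≤ n →
      (wordW ga d n x).length = n)

/-- LAY (250 lines). Every cell of the word depends on at most one block, and the cells of two
different blocks have distance more than `ga`. Proof as in `NQ2/LAY.lean`: work with templates, lists
over `Lt ⊕ (Zt m d × Fin l)` (a letter, or a data bit of a block); `eval x` sends an entry to a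
letter; templates for a block, a list, a tree (recursively as in `treeW`; nodes `v` with
`v.length + h = d`) and the word, so that `wordW ga d n (ext x) = template.map (eval x)` for all `x`;
`own (q + 1) = some z` if the entry number `q` of the template is a data bit of `z`, else `none`
(`own 0 = none`). A template is good if two data bits of different blocks have distance `> ga`, and it
has a lead if no data bit is among the first `ga + 1` entries. `A ++ B` is good if `A`, `B` are good
and `B` has a lead, and it has a lead if both have leads; a block template is good and has a lead (its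
first `ga + 1` entries are the mark and `fill`s); a template without data bits is good and has a
lead. -/
def LAY_Stmt : Prop :=
  ∀ (m d l ga n : ℕ), ∃ own : ℕ → Option (Zt m d),
    (∀ q (x x' : Inp m d l), (∀ z, own q = some z → x z = x' z) →
      tape (wordW ga d n (ext x)) q = tape (wordW ga d n (ext x')) q) ∧
    ∀ q q' z z', own q = some z → own q' = some z' → z ≠ z' → q + ga < q' ∨ q' + ga < q

/-- INJ (130 lines), hypotheses `LEN_Stmt`, `NQ2.DIG_Stmt`. The word determines the input. Proof as
in `NQ2/INJ.lean`: `treeW ga x d []` and `treeW ga x' d []` have the same length (LEN) so they are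
equal (`List.append_inj`); by induction on the height `h`, equality of `treeW ga x h v` and
`treeW ga x' h v` gives, again by `List.append_inj` and the equal lengths of corresponding pieces,
equality of all lists in the subtree, hence of all blocks `x u s (bitsOf m j)`, `j < 2 ^ m`, hence
(every index is `bitsOf m (val a)`, DIG) of all `x u s a`, for all `u` with suffix `v` and length
`≤ v.length + h`. Every word `u` of length `≤ d` occurs. (`0 < m` is not needed: for `m = 0` there is
only the node `[]`.) -/
def INJ_Stmt : Prop :=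
  ∀ (m d l ga n : ℕ) (x x' : Inp m d l),
    wordW ga d n (ext x) = wordW ga d n (ext x') → x = x'

/-- NDE (80 lines). Proof as in `NQ2/NODE.lean`: the number of words of length `j` over `Dr m` is
`(2 m) ^ j`, `∑ j ≤ d, r ^ j ≤ r ^ (d + 1)` for `r = 2 m ≥ 2`; with
`A = 2 * (listLen m l ga + 2 ^ m + 1)`, `treeLen 0 ≤ A` and `treeLen (h + 1) ≤ A + 2 m * treeLen h`,
so `treeLen h ≤ A * ∑ i ≤ h, (2 m) ^ i`. -/
def NDE_Stmt : Prop :=
  ∀ m : ℕ, 0 < m → (∀ d, Fintype.card (Nd m d) ≤ (2 * m) ^ (d + 1)) ∧
    ∀ l ga h, treeLen m l ga h ≤ (2 * m) ^ (h + 1) * (2 * (listLen m l ga + 2 ^ m + 1))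

/-- ACC (250 lines), hypothesis `NQ2.DIG_Stmt`. The machine finds the bit of the root. `run` of a
concatenation is the composition (`List.foldl_append`). Proof. Steps:
(B0) in the modes `S` and `K` a block's `fill`s and bits change nothing.
(B1) the list of the side `s` from the state `(f, S)` with the stack `un ^ a ++ mk :: σ`,
`a = val A < 2 ^ m` (`A : Idx m`): the blocks `0, …, a - 1` pop one unit each (mode `S`), the block
`a` pops the marker and goes to the mode `B s` with the flag `false`; for `s = false` its bits are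
pushed: stack `bt (f (l-1)) :: … :: bt (f 0) :: σ` (`f = D A`, `bitsOf m a = A` by DIG), the later
blocks only set the mode `K`, `en` sets the mode `S`: final stack
`(List.ofFn f).reverse.map bt ++ σ`. For `s = true` with `σ = (List.ofFn g).reverse.map bt ++ σ'`:
the bits are read in reverse order and each pops its partner: final stack `σ'`, flag
`xor` of all `g t && f t`, i.e. `ip g f` (lemma: folding `xor` over `List.ofFn` is the parity of the
number of `true`s; the order does not matter).
(T) by induction on `h`: `run stp (treeW ga x h v) ((f, S), σ) = ((bt x h v, S), σ)` for all `f`,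
`σ`, `v`: `op` pushes `mk`; for `b = 0, …, m - 1` the subtree restores the stack and gives the flag
`bt x h ((s, b) :: v)`, and the `2 ^ b` pads push `2 ^ b` units if the flag is `true`: in all
`val (fun b => bt x h ((s, b) :: v))` units (`val` as in NQ2: a sum over `Fin m`; the list
`List.finRange m`); then (B1) for `s = false` (the pushed block stays on the stack, `σ` replaced by
`(List.ofFn f).reverse.map bt ++ σ` for the second half) and `s = true`. Height `0`: only `op`,
`a = 0`, `bitsOf m 0 = fun _ => false`.
(W) the `fill`s at the end change nothing. -/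
def ACC_Stmt : Prop :=
  ∀ (m l ga d n : ℕ) (x : List (Dr m) → Bool → Idx m → Fin l → Bool),
    wordW ga d n x ∈ Lang ↔ bt x d [] = true

end Pool.Agent.CPG
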