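import Pool.Agent.CPG.St

/-!
Project CPG (MP_5e85fc_lc, context-free power gap): the statements of the modules of part 3
(parameters) and the statements of the small auxiliary modules.
-/

set_option autoImplicit false

namespace Pool.Agent.CPG

open Pool.Agent.Heads Pool.Agent.NQ2 Filter

/-! ### Small modules for ABS and ACC -/

/-- WTS (60 lines). Sums over hints. Proof: `Fintype.sum_prod_type`, `Fintype.sum_sum_type`,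
`Finset.sum_const`, `Fintype.card_prod`, `Fintype.card_sum`, `Fintype.card_fun`;
`Finset.prod_univ_sum` with `Fintype.piFinset_univ` for the power. -/
def WTS_Stmt : Prop :=
  ∀ (m d T k S th th' : ℕ),
    (∑ η : Ht m d T k S, wt m th th' η.2.2 = Gh m d T k S th th') ∧
    ((Fintype.card (Ht m d T k S) : ℝ) = Gn m d T k S) ∧
    (∀ G : ℕ, ∑ η : Fin G → Ht m d T k S, ∏ t, wt m th th' (η t).2.2 =
      Gh m d T k S th th' ^ G) ∧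
    (∀ G : ℕ, (Fintype.card (Fin G → Ht m d T k S) : ℝ) = Gn m d T k S ^ G)

/-- ACB (150 lines), hypothesis `NQ2.DIG_Stmt`. The machine on the list of one side: (B0), (B1) in the
doc string of `ACC_Stmt`. Proof: `listW` is the `flatMap` over `List.range (2 ^ m)`; split it as
`List.range a ++ a :: (rest)` with `a = val A < 2 ^ m` (`List.range_eq_range'`, `List.range'_append`,
or an induction from the left on the blocks with a generalised statement: for `j ≤ a` the blocks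
`0 … j - 1` pop `j` units). Skipped block in mode `S` with top `un`: pop, mode `S` (the `fill`s and
bits change nothing in the modes `S` and `K`). The block `a`: top `mk`, pop, mode `B s`, flag `false`,
`bitsOf m a = A` (DIG 2). Later blocks: mode `K`. `en`: mode `S`. For `s = true` the bits of `D A` are
read from `l - 1` down to `0`, and each pops its partner `bt (g t)`; the flag is the `xor` of all
`g t && D A t`: generalise to two lists of the same length, `fold xor` is the parity of the number of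
`true`s in `List.zipWith`, `List.ofFn`, reverse does not change it; `ip` by
`Finset.card_filter`/`List.countP` or induction on `l` (`Fin.sum_univ_castSucc`). -/
def ACB_Stmt : Prop :=
  ∀ (m l ga : ℕ) (D : Idx m → Fin l → Bool) (A : Idx m) (f : Bool) (σ : List Sk),
    RLT.run stp (listW ga false D)
        ((f, Md.S), List.replicate (val A) Sk.un ++ Sk.mk :: σ) =
      ((false, Md.S), (List.ofFn (D A)).reverse.map Sk.bt ++ σ) ∧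
    ∀ g : Fin l → Bool,
      RLT.run stp (listW ga true D)
          ((f, Md.S), List.replicate (val A) Sk.un ++
            Sk.mk :: ((List.ofFn g).reverse.map Sk.bt ++ σ)) =
        ((ip g (D A), Md.S), σ)

/-! ### Part 3: parameters

All logarithms are natural; `n ^ a` is a real power; `0 < η ≤ 1 / 80` (`e = 20 η`). -/

/-- The length of the contents (and of the windows). -/
noncomputable def lN (η : ℝ) (n : ℕ) : ℕ := ⌊(n : ℝ) ^ (1 / 2 - η)⌋₊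

/-- The number of bits of an index. -/
noncomputable def mN (η : ℝ) (n : ℕ) : ℕ := ⌊(1 / 2 - η) * Real.log n / Real.log 2⌋₊

/-- The depth. -/
noncomputable def dN (η : ℝ) (n : ℕ) : ℕ := ⌊η / 4 * Real.log n / Real.log (Real.log n)⌋₊

/-- The threshold of the visits. -/
noncomputable def tN (η : ℝ) (n : ℕ) : ℕ := ⌊(lN η n : ℝ) / (Real.log n) ^ 2⌋₊

/-- The small threshold. -/
noncomputable def uN (η : ℝ) (n : ℕ) : ℕ := ⌊(tN η n : ℝ) * (n : ℝ) ^ (-(2 * η))⌋₊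

/-- Half of the small threshold. -/
noncomputable def qN (η : ℝ) (n : ℕ) : ℕ := uN η n / 2

/-- The number of sample times. -/
noncomputable def sN (η : ℝ) (n : ℕ) : ℕ := ⌈(n : ℝ) ^ (1 / 2 - 15 * η)⌉₊

/-- PRA (200 lines). Basic facts. Proof. Put `X = log n`, `Y = log X`; powers of `X` are below
`n ^ ε` (`isLittleO_log_rpow_atTop`, or `Real.log_le_rpow_div`), `Y → ∞`, `Y ≤ X`.
`m`: `(1/2 - η) / log 2 ≤ 0.5 / 0.69 < 1`, so `mN ≤ X`; `2 ^ mN = exp (mN * log 2)` and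
`mN ≤ (1/2 - η) X / log 2 < mN + 1` (`Nat.floor_le`, `Nat.lt_floor_add_one`).
`(2 mN) ^ (dN + 1) ≤ exp ((dN + 1) * log (2 X)) ≤ exp ((η/4 * X / Y + 1) * (Y + log 2))
= exp (η/4 * X + (η/4 * log 2) * X / Y + Y + log 2) ≤ exp (η/2 * X)` for large `n`.
`dN ≥ η/4 * X / Y - 1 ≥ η/8 * X / Y` for large `n` (`X / Y → ∞`).
`lN ≥ y - 1 ≥ y / 2`, `y = n ^ (1/2 - η)`. `tN ≥ lN / X ^ 2 - 1 ≥ y / (4 X ^ 2)`.
`uN / tN ≤ n ^ (-2 η)` from `Nat.floor_le`; `uN ≥ tN * n ^ (-2 η) - 1 ≥ n ^ (1/2 - 3 η) / (8 X ^ 2)`,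
`qN ≥ uN / 2 - 1/2 ≥ n ^ (1/2 - 7/2 η)` for large `n`. `sN ≤ n ^ (1/2 - 15 η) + 1 ≤ 2 …`
(`1/2 - 15 η ≥ 5/16 > 0`). -/
def PRA_Stmt : Prop :=
  ∀ η : ℝ, 0 < η → η ≤ 1 / 80 → ∀ᶠ n : ℕ in atTop,
    (2 ≤ mN η n ∧ (mN η n : ℝ) ≤ Real.log n ∧
      (2 : ℝ) ^ mN η n ≤ (n : ℝ) ^ (1 / 2 - η) ∧ (n : ℝ) ^ (1 / 2 - η) ≤ 2 * (2 : ℝ) ^ mN η n) ∧
    ((2 * (mN η n : ℝ)) ^ (dN η n + 1) ≤ (n : ℝ) ^ (η / 2) ∧
      η / 8 * Real.log n / Real.log (Real.log n) ≤ dN η n ∧ (dN η n : ℝ) ≤ Real.log n) ∧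
    (0 < lN η n ∧ (n : ℝ) ^ (1 / 2 - η) / 2 ≤ lN η n ∧ (lN η n : ℝ) ≤ (n : ℝ) ^ (1 / 2 - η)) ∧
    (0 < tN η n ∧ (tN η n : ℝ) ≤ lN η n / (Real.log n) ^ 2 ∧ uN η n ≤ tN η n ∧
      (uN η n : ℝ) / tN η n ≤ (n : ℝ) ^ (-(2 * η))) ∧
    (0 < qN η n ∧ 2 * qN η n ≤ uN η n ∧ (n : ℝ) ^ (1 / 2 - 7 / 2 * η) ≤ qN η n) ∧
    ((n : ℝ) ^ (1 / 2 - 15 * η) ≤ sN η n ∧ (sN η n : ℝ) ≤ 2 * (n : ℝ) ^ (1 / 2 - 15 * η))

/-- PRL (80 lines), hypotheses `PRA_Stmt`, `NDE_Stmt`. The length. Proof: `treeLen ≤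
(2 m) ^ (d + 1) * (2 * (listLen + 2 ^ m + 1))`, `listLen = 2 ^ m * (1 + 2 l + l) + 1`; with
`y = n ^ (1/2 - η) ≥ 1`: `listLen + 2 ^ m + 1 ≤ y (1 + 3 y) + y + 2 ≤ 7 y ^ 2 = 7 n ^ (1 - 2 η)`; in all
at most `14 n ^ (1 - 3/2 η) ≤ n` for large `n`. -/
def PRL_Stmt : Prop :=
  ∀ η : ℝ, 0 < η → η ≤ 1 / 80 → ∀ᶠ n : ℕ in atTop,
    treeLen (mN η n) (lN η n) (2 * lN η n) (dN η n) ≤ n

/-- PRG (150 lines), hypotheses `PRA_Stmt`, `NDE_Stmt`. The total weight and the number of the hints.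
Proof. With `X = log n`: `#V * 2 m ≤ n ^ (η/2) * 2 X` (NDE, PRA). `(1/2) ^ (2 m - 1) = 2 / (2 ^ m) ^ 2
≤ 8 n ^ (-(1 - 2 η))`, `(1/2) ^ (m - 1) = 2 / 2 ^ m ≤ 4 n ^ (-(1/2 - η))` (`m ≥ 2`). So
`T k ^ 2 (1/2) ^ (2m-1) ≤ 24 X ^ 2 n ^ (-17 η)`, `2 S k (1/2) ^ (m-1) ≤ 16 X n ^ (-14 η)`,
`th'/th ≤ n ^ (-2 η)`; the sum is `≤ 3 n ^ (-2 η)` for large `n`, and
`6 X n ^ (-3/2 η) ≤ n ^ (- η)`. `Gn ≤ n ^ (η/2) * 2 X * (3 n X ^ 2 + 4 n X + 1) ≤ n ^ 2`. Also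
`#V ≤ n`. -/
def PRG_Stmt : Prop :=
  ∀ η : ℝ, 0 < η → η ≤ 1 / 80 → ∀ᶠ n : ℕ in atTop, ∀ T k : ℕ,
    (k : ℝ) ≤ Real.log n → (T : ℝ) ≤ 3 * (n : ℝ) ^ (1 - 19 * η) →
    Gh (mN η n) (dN η n) T k (sN η n) (tN η n) (uN η n) ≤ (n : ℝ) ^ (-η) ∧
    Gn (mN η n) (dN η n) T k (sN η n) ≤ (n : ℝ) ^ 2 ∧
    (Fintype.card (Nd (mN η n) (dN η n)) : ℝ) ≤ n

/-- PRN (100 lines), hypothesis `PRA_Stmt`. Proof. `bet 1 = sqrt (1/2)` (`Poly.bet`), so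
`bet 1 ^ l = exp (- l * log 2 / 2) ≤ exp (- 0.34 l)`. With `X = log n`, `Y = log X`:
`N ^ th ≤ exp (th * (log 2 + c X ^ 2 / Y)) ≤ exp (l * (log 2 / X ^ 2 + c / Y)) ≤ exp (0.1 l)` for
large `n` (`Y → ∞`). Product `≤ exp (- 0.24 l) ≤ exp (- 0.12 n ^ (1/2 - η)) ≤ exp (- n ^ (1/4))`. -/
def PRN_Stmt : Prop :=
  ∀ η c : ℝ, 0 < η → η ≤ 1 / 80 → 0 < c → ∀ᶠ n : ℕ in atTop, ∀ N : ℝ, 1 ≤ N →
    N ≤ 2 * Real.exp (c * (Real.log n) ^ 2 / Real.log (Real.log n)) →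
    N ^ tN η n * Poly.bet 1 ^ lN η n ≤ Real.exp (-(n : ℝ) ^ (1 / 4 : ℝ))

/-- PRT (80 lines), hypothesis `PRA_Stmt`. The consequences of the restrictions on the automaton, and
the error of the sample times. Proof. `(n + 2) ^ k ≥ n ^ k = exp (k X)`, `Q ≥ 1`: `k X ≤ c X ^ 2 / Y`,
so `k ≤ X` for `Y ≥ 1`, `c ≤ 1`. `T = t / l + 1 ≤ 2 n ^ (3/2 - 20 η) / n ^ (1/2 - η) + 1 ≤
3 n ^ (1 - 19 η)` (`Nat.cast_div_le`; `1 - 19 η > 0`). `q S / T ≥ n ^ (1/2 - 7/2 η) n ^ (1/2 - 15 η) /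
(3 n ^ (1 - 19 η)) = n ^ (η/2) / 3 ≥ n ^ (η/4)` for large `n`. -/
def PRT_Stmt : Prop :=
  ∀ η c : ℝ, 0 < η → η ≤ 1 / 80 → 0 < c → c ≤ 1 → ∀ᶠ n : ℕ in atTop, ∀ (k t : ℕ) (Q N : ℝ),
    1 ≤ Q → Q * ((n : ℝ) + 2) ^ k ≤
      Real.exp (c * (Real.log n) ^ 2 / Real.log (Real.log n)) →
    N ≤ 2 * Q * ((n : ℝ) + 2) ^ k → (t : ℝ) ≤ (n : ℝ) ^ (3 / 2 - 20 * η) →
    (k : ℝ) ≤ Real.log n ∧
    N ≤ 2 * Real.exp (c * (Real.log n) ^ 2 / Real.log (Real.log n)) ∧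
    (((t / lN η n + 1 : ℕ) : ℕ) : ℝ) ≤ 3 * (n : ℝ) ^ (1 - 19 * η) ∧
    (n : ℝ) ^ (η / 4) ≤ (qN η n : ℝ) * sN η n / ((t / lN η n + 1 : ℕ) : ℝ)

/-- PRF (200 lines), hypotheses `PRA_Stmt`, `PRL_Stmt`, `PRG_Stmt`, `PRN_Stmt`, `PRT_Stmt`. The choice
of the parameters. Proof. `η = e / 20`, `c = η ^ 2 / 16`, and for large `n` the numbers
`dN, mN, lN, la = lN, tN, uN, qN, sN`. Let `E = N ^ th * bet 1 ^ l ≤ exp (- n ^ (1/4))` (PRN). With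
`X = log n`, `Y = log X`, the five terms of `Er`:
`E`; `2 #V T exp (- (q S / T)) ≤ 2 n * 3 n * exp (- n ^ (η/4))`; `Gh ≤ n ^ (-η)`;
`Gn * 2 m * E ≤ n ^ 2 * 2 X * exp (- n ^ (1/4))`;
`(T + 1) N Gh ^ d ≤ (4 n) * 2 exp (c X ^ 2 / Y) * exp (- η X d)` and `d ≥ η/8 * X / Y`: at most
`exp (log 8 + X - (η ^ 2 / 16) X ^ 2 / Y) ≤ n ^ (-η)` for large `n` (`X / Y → ∞`);
`(T + 1) N Gn ^ d * (2 m d E) ≤ (4 n) * 2 exp (c X ^ 2 / Y) * exp (2 X ^ 2) * 2 X ^ 2 *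
exp (- n ^ (1/4)) ≤ exp (4 X ^ 2 - n ^ (1/4))` for large `n` (`Gn ≤ n ^ 2`, `d ≤ X`).
Every term is `≤ n ^ (-η)` for large `n`; in all `≤ 6 n ^ (-η) ≤ n ^ (-c)`. -/
def PAR_Stmt : Prop :=
  ∀ e : ℝ, 0 < e → e ≤ 1 / 4 → ∃ c : ℝ, 0 < c ∧ ∀ᶠ n : ℕ in atTop,
    ∃ d m l la th th' q S : ℕ,
    2 ≤ m ∧ 0 < la ∧ 0 < q ∧ 0 < th ∧ th' ≤ th ∧ 2 * q ≤ th' ∧ treeLen m l (2 * la) d ≤ n ∧
    ∀ (k t : ℕ) (Q N : ℝ), 1 ≤ Q → Q * ((n : ℝ) + 2) ^ k ≤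
        Real.exp (c * (Real.log n) ^ 2 / Real.log (Real.log n)) →
      1 ≤ N → N ≤ 2 * Q * ((n : ℝ) + 2) ^ k → (t : ℝ) ≤ (n : ℝ) ^ (3 / 2 - e) →
      Er m d l (t / la + 1) k S th th' q N ≤ (n : ℝ) ^ (-c)

end Pool.Agent.CPG
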