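import Pool.Agent.CPG.St

/-!
Project CPG, module TWO: two-party machines with few visits.
-/

set_option autoImplicit false

namespace Pool.Agent.CPG

open Pool.Agent.Heads Pool.Agent.NQ2

namespace TWOx

lemma ind_true {P : Prop} (h : P) : ind P = 1 := by
  classical
  unfold ind
  rw [if_pos h]

lemma ind_false {P : Prop} (h : ¬ P) : ind P = 0 := by
  classical
  unfold ind
  rw [if_neg h]

lemma ind_nonneg (P : Prop) : 0 ≤ ind P := by
  by_cases h : P
  · rw [ind_true h]
    exact zero_le_one
  · rw [ind_false h]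

lemma ind_le_one (P : Prop) : ind P ≤ 1 := by
  by_cases h : P
  · rw [ind_true h]
  · rw [ind_false h]
    exact zero_le_one

lemma ind_and (P Q : Prop) : ind (P ∧ Q) = ind P * ind Q := by
  by_cases h : P <;> by_cases h' : Q
  · rw [ind_true h, ind_true h', ind_true ⟨h, h'⟩, one_mul]
  · rw [ind_false h', ind_false fun x => h' x.2, mul_zero]
  · rw [ind_false h, ind_false fun x => h x.1, zero_mul]
  · rw [ind_false h, ind_false fun x => h x.1, zero_mul]

lemma ind_congr {P Q : Prop} (h : P ↔ Q) : ind P = ind Q := by rw [propext h]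

lemma avg_mono {X : Type} [Fintype X] {f g : X → ℝ} (h : ∀ x, f x ≤ g x) : avg f ≤ avg g := by
  unfold avg
  exact div_le_div_of_nonneg_right (Finset.sum_le_sum fun x _ => h x) (Nat.cast_nonneg _)

lemma avg_sum {X I : Type} [Fintype X] (S : Finset I) (f : I → X → ℝ) :
    avg (fun x => ∑ i ∈ S, f i x) = ∑ i ∈ S, avg (f i) := by
  unfold avg
  rw [Finset.sum_comm, Finset.sum_div]

lemma avg_mul {X : Type} [Fintype X] (c : ℝ) (f : X → ℝ) :
    avg (fun x => f x * c) = avg f * c := by
  unfold avg
  rw [← Finset.sum_mul]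
  ring

section run

variable {l : ℕ} {C : Type} (F : ℕ → C → (Fin l → Bool) → (Fin l → Bool) → C)
  (cov : C → Bool → Prop) (c0 : C)

open scoped Classical in
/-- the run with the answers `g` -/
noncomputable def D (th : ℕ) (g : Fin th → C) : ℕ → C × ℕ
  | 0 => (c0, 0)
  | j + 1 =>
    if ∃ s, cov (D th g j).1 s then
      (if h : (D th g j).2 < th then g ⟨(D th g j).2, h⟩ else c0, (D th g j).2 + 1)
    else (F j (D th g j).1 (fun _ => false) (fun _ => false), (D th g j).2)

lemma exists_g
    (hloc : ∀ j c y y' z z', (cov c false → y = y') → (cov c true → z = z') →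
      F j c y z = F j c y' z')
    (r : ℕ → C) (y z : Fin l → Bool) (hr0 : r 0 = c0) (hr : ∀ j, r (j + 1) = F j (r j) y z)
    (n th : ℕ) (hv : cnt (fun j => ∃ s, cov (r j) s) n < th) :
    ∃ g : Fin th → C, ∀ j ≤ n, D F cov c0 th g j = (r j, cnt (fun j => ∃ s, cov (r j) s) j) := by
  classical
  set V : ℕ → Prop := fun j => ∃ s, cov (r j) s with hV
  refine ⟨fun i => if h : ∃ j, V j ∧ cnt V j = (i : ℕ) then r (h.choose + 1) else c0, ?_⟩
  intro j
  induction j with
  | zero =>
    intro _
    rw [cnt_zero, hr0]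
    rfl
  | succ j ih =>
    intro hj
    have ih := ih (by omega)
    rw [D, ih]
    by_cases hVj : V j
    · have h1 : cnt V j < th := by
        have h := cnt_succ_of V j hVj
        have h' := cnt_mono V hj
        omega
      have h2 : ∃ j', V j' ∧ cnt V j' = cnt V j := ⟨j, hVj, rfl⟩
      have h3 : h2.choose = j := by
        obtain ⟨ha, hb⟩ := h2.choose_spec
        by_contra hne
        rcases lt_or_gt_of_ne hne with h | h
        · have h4 := cnt_succ_of V _ ha
          have h5 := cnt_mono V (show h2.choose + 1 ≤ j from h)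
          omega
        · have h4 := cnt_succ_of V _ hVj
          have h5 := cnt_mono V (show j + 1 ≤ h2.choose from h)
          omega
      rw [if_pos (show ∃ s, cov (r j, cnt V j).1 s from hVj)]
      rw [cnt_succ_of V j hVj]
      refine Prod.ext ?_ rfl
      simp only
      rw [dif_pos h1, dif_pos h2, h3]
    · rw [if_neg (show ¬ ∃ s, cov (r j, cnt V j).1 s from hVj)]
      rw [cnt_succ_of_not V j hVj]
      refine Prod.ext ?_ rfl
      simp only
      rw [hr]
      refine hloc _ _ _ _ _ _ (fun h => ?_) (fun h => ?_)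
      · exact absurd ⟨false, h⟩ hVj
      · exact absurd ⟨true, h⟩ hVj

variable (R : (Fin l → Bool) → (Fin l → Bool) → ℕ → C)

/-- few visits and no visit of both -/
def Good (th n : ℕ) (y : (Fin l → Bool) × (Fin l → Bool)) : Prop :=
  (∀ j < n, ¬ ∀ s, cov (R y.1 y.2 j) s) ∧ cnt (fun j => ∃ s, cov (R y.1 y.2 j) s) n < th

/-- the transcript -/
def tr (n : ℕ) (y : (Fin l → Bool) × (Fin l → Bool)) : Fin (n + 1) → C := fun j => R y.1 y.2 j

open scoped Classical in
/-- the transcripts of the good runs -/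
noncomputable def S (th n : ℕ) : Finset (Fin (n + 1) → C) :=
  (Finset.univ.filter fun y => Good cov R th n y).image (tr R n)

lemma card_S [Fintype C]
    (hloc : ∀ j c y y' z z', (cov c false → y = y') → (cov c true → z = z') →
      F j c y z = F j c y' z')
    (hR0 : ∀ y z, R y z 0 = c0) (hR : ∀ y z j, R y z (j + 1) = F j (R y z j) y z) (th n : ℕ) :
    (S cov R th n).card ≤ Fintype.card C ^ th := by
  classical
  have h1 : S cov R th n ⊆
      Finset.univ.image fun g : Fin th → C => fun j : Fin (n + 1) => (D F cov c0 th g j).1 := by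
    intro τ hτ
    unfold S at hτ
    rw [Finset.mem_image] at hτ
    obtain ⟨y, hy, rfl⟩ := hτ
    rw [Finset.mem_filter] at hy
    obtain ⟨g, hg⟩ := exists_g F cov c0 hloc (R y.1 y.2) y.1 y.2 (hR0 _ _) (hR _ _) n th hy.2.2
    rw [Finset.mem_image]
    refine ⟨g, Finset.mem_univ _, ?_⟩
    funext j
    rw [hg j (by omega)]
    rfl
  refine (Finset.card_le_card h1).trans (Finset.card_image_le.trans (le_of_eq ?_))
  rw [Finset.card_univ, Fintype.card_fun, Fintype.card_fin]

lemma tr_iff
    (hloc : ∀ j c y y' z z', (cov c false → y = y') → (cov c true → z = z') →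
      F j c y z = F j c y' z')
    (hR0 : ∀ y z, R y z 0 = c0) (hR : ∀ y z j, R y z (j + 1) = F j (R y z j) y z) (n : ℕ)
    (τ : Fin (n + 1) → C) (h0 : τ 0 = c0) (hτ : ∀ j : Fin n, ¬ ∀ s, cov (τ j.castSucc) s)
    (y : (Fin l → Bool) × (Fin l → Bool)) :
    tr R n y = τ ↔
      (∀ j : Fin n, ¬ cov (τ j.castSucc) true →
        F j (τ j.castSucc) y.1 (fun _ => false) = τ j.succ) ∧
      (∀ j : Fin n, ¬ cov (τ j.castSucc) false →
        F j (τ j.castSucc) (fun _ => false) y.2 = τ j.succ) := by
  have key : tr R n y = τ ↔ ∀ j : Fin n, F j (τ j.castSucc) y.1 y.2 = τ j.succ := by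
    constructor
    · rintro rfl j
      show F j (R y.1 y.2 j) y.1 y.2 = R y.1 y.2 (j + 1)
      rw [hR]
    · intro h
      have h2 : ∀ j : ℕ, ∀ hj : j < n + 1, R y.1 y.2 j = τ ⟨j, hj⟩ := by
        intro j
        induction j with
        | zero => intro hj; rw [hR0]; exact h0.symm
        | succ j ih =>
          intro hj
          rw [hR, ih (by omega)]
          exact h ⟨j, by omega⟩
      funext j
      exact h2 j j.2
  rw [key]
  constructor
  · intro h
    refine ⟨fun j hj => ?_, fun j hj => ?_⟩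
    · rw [← h j]
      exact hloc _ _ _ _ _ _ (fun _ => rfl) (fun h => absurd h hj)
    · rw [← h j]
      exact hloc _ _ _ _ _ _ (fun h => absurd h hj) (fun _ => rfl)
  · rintro ⟨h1, h2⟩ j
    by_cases ht : cov (τ j.castSucc) true
    · have hf : ¬ cov (τ j.castSucc) false := by
        intro hf
        exact hτ j fun s => by cases s <;> assumption
      rw [← h2 j hf]
      exact hloc _ _ _ _ _ _ (fun h => absurd h hf) (fun _ => rfl)
    · rw [← h1 j ht]
      exact hloc _ _ _ _ _ _ (fun _ => rfl) (fun h => absurd h ht)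

end run

end TWOx

open TWOx in
/-- MODULE TWO -/
theorem t_TWO (hLIN : LIN_Stmt) : TWO_Stmt := by
  classical
  intro l C _ F cov c0 R n th B a hloc hR0 hR hB
  have hbet : 0 ≤ Poly.bet 1 ^ l := pow_nonneg (Poly.bet_nonneg 1) _
  -- the good transcripts
  have hS : ∀ τ ∈ S cov R th n, τ 0 = c0 ∧ ∀ j : Fin n, ¬ ∀ s, cov (τ j.castSucc) s := by
    intro τ hτ
    unfold S at hτ
    rw [Finset.mem_image] at hτ
    obtain ⟨y, hy, rfl⟩ := hτ
    rw [Finset.mem_filter] at hy
    exact ⟨hR0 _ _, fun j => hy.2.1 j j.2⟩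
  -- one transcript
  have h1 : ∀ τ ∈ S cov R th n,
      avg (fun y : (Fin l → Bool) × (Fin l → Bool) =>
        ind (tr R n y = τ) * ind (ip y.1 y.2 = a τ)) ≤
      avg (fun y : (Fin l → Bool) × (Fin l → Bool) => ind (tr R n y = τ)) / 2 +
        Poly.bet 1 ^ l := by
    intro τ hτ
    obtain ⟨h0, hc⟩ := hS τ hτ
    have h2 := hLIN l (fun s y => if s = true then
        ind (∀ j : Fin n, ¬ cov (τ j.castSucc) false →
          F j (τ j.castSucc) (fun _ => false) y = τ j.succ)
      else ind (∀ j : Fin n, ¬ cov (τ j.castSucc) true →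
          F j (τ j.castSucc) y (fun _ => false) = τ j.succ)) (a τ) (by
      intro s y
      cases s
      · simp only [Bool.false_eq_true, if_false]
        exact ⟨ind_nonneg _, ind_le_one _⟩
      · simp only [if_true]
        exact ⟨ind_nonneg _, ind_le_one _⟩)
    simp only [Bool.false_eq_true, if_false, if_true] at h2
    have h3 : ∀ y : (Fin l → Bool) × (Fin l → Bool), ind (tr R n y = τ) =
        ind (∀ j : Fin n, ¬ cov (τ j.castSucc) true →
          F j (τ j.castSucc) y.1 (fun _ => false) = τ j.succ) *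
        ind (∀ j : Fin n, ¬ cov (τ j.castSucc) false →
          F j (τ j.castSucc) (fun _ => false) y.2 = τ j.succ) := by
      intro y
      rw [← ind_and]
      exact ind_congr (tr_iff F cov c0 R hloc hR0 hR n τ h0 hc y)
    simp only [h3]
    exact h2
  -- the left side
  have h2 : avg (fun y : (Fin l → Bool) × (Fin l → Bool) =>
      ind (((∀ j < n, ¬ ∀ s, cov (R y.1 y.2 j) s) ∧
        cnt (fun j => ∃ s, cov (R y.1 y.2 j) s) n < th) ∧
        ip y.1 y.2 = a fun j => R y.1 y.2 j) * B fun j => R y.1 y.2 j) ≤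
      ∑ τ ∈ S cov R th n, avg (fun y : (Fin l → Bool) × (Fin l → Bool) =>
        ind (tr R n y = τ) * ind (ip y.1 y.2 = a τ)) * B τ := by
    have e : ∑ τ ∈ S cov R th n, avg (fun y : (Fin l → Bool) × (Fin l → Bool) =>
        ind (tr R n y = τ) * ind (ip y.1 y.2 = a τ)) * B τ =
        avg (fun y : (Fin l → Bool) × (Fin l → Bool) => ∑ τ ∈ S cov R th n,
          (ind (tr R n y = τ) * ind (ip y.1 y.2 = a τ)) * B τ) := by
      rw [avg_sum]
      exact Finset.sum_congr rfl fun τ _ => (avg_mul _ _).symm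
    rw [e]
    refine avg_mono fun y => ?_
    have hnn : ∀ τ ∈ S cov R th n,
        0 ≤ (ind (tr R n y = τ) * ind (ip y.1 y.2 = a τ)) * B τ := fun τ _ =>
      mul_nonneg (mul_nonneg (ind_nonneg _) (ind_nonneg _)) (hB τ).1
    by_cases hg : Good cov R th n y ∧ ip y.1 y.2 = a fun j => R y.1 y.2 j
    · have hmem : tr R n y ∈ S cov R th n := by
        unfold S
        exact Finset.mem_image_of_mem _ (Finset.mem_filter.2 ⟨Finset.mem_univ _, hg.1⟩)
      refine le_trans (le_of_eq ?_) (Finset.single_le_sum hnn hmem)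
      rw [ind_true (show ((∀ j < n, ¬ ∀ s, cov (R y.1 y.2 j) s) ∧
        cnt (fun j => ∃ s, cov (R y.1 y.2 j) s) n < th) ∧
        ip y.1 y.2 = a fun j => R y.1 y.2 j from hg), ind_true rfl,
        ind_true (show ip y.1 y.2 = a (tr R n y) from hg.2), one_mul, one_mul, one_mul]
      rfl
    · rw [ind_false (show ¬ (((∀ j < n, ¬ ∀ s, cov (R y.1 y.2 j) s) ∧
        cnt (fun j => ∃ s, cov (R y.1 y.2 j) s) n < th) ∧
        ip y.1 y.2 = a fun j => R y.1 y.2 j) from hg), zero_mul]
      exact Finset.sum_nonneg hnn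
  -- the main part of the right side
  have h3 : ∑ τ ∈ S cov R th n,
      avg (fun y : (Fin l → Bool) × (Fin l → Bool) => ind (tr R n y = τ)) * B τ ≤
      avg (fun y : (Fin l → Bool) × (Fin l → Bool) => B fun j => R y.1 y.2 j) := by
    have e : ∑ τ ∈ S cov R th n,
        avg (fun y : (Fin l → Bool) × (Fin l → Bool) => ind (tr R n y = τ)) * B τ =
        avg (fun y : (Fin l → Bool) × (Fin l → Bool) => ∑ τ ∈ S cov R th n,
          ind (tr R n y = τ) * B τ) := by
      rw [avg_sum]
      exact Finset.sum_congr rfl fun τ _ => (avg_mul _ _).symm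
    rw [e]
    refine avg_mono fun y => ?_
    by_cases hm : tr R n y ∈ S cov R th n
    · rw [Finset.sum_eq_single_of_mem _ hm (fun τ _ hne => by
        rw [ind_false (fun h => hne h.symm), zero_mul]), ind_true rfl, one_mul]
      exact le_refl _
    · rw [Finset.sum_eq_zero (fun τ hτ => by
        rw [ind_false (fun h => hm (by rw [h]; exact hτ)), zero_mul])]
      exact (hB _).1
  have hcard : ((S cov R th n).card : ℝ) ≤ (Fintype.card C : ℝ) ^ th := by
    exact_mod_cast card_S F cov c0 R hloc hR0 hR th n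
  calc _ ≤ ∑ τ ∈ S cov R th n, avg (fun y : (Fin l → Bool) × (Fin l → Bool) =>
        ind (tr R n y = τ) * ind (ip y.1 y.2 = a τ)) * B τ := h2
    _ ≤ ∑ τ ∈ S cov R th n,
        ((avg (fun y : (Fin l → Bool) × (Fin l → Bool) => ind (tr R n y = τ)) * B τ) / 2 +
          Poly.bet 1 ^ l) := by
        refine Finset.sum_le_sum fun τ hτ => ?_
        have h4 := mul_le_mul_of_nonneg_right (h1 τ hτ) (hB τ).1
        have h5 : Poly.bet 1 ^ l * B τ ≤ Poly.bet 1 ^ l := by
          calc _ ≤ Poly.bet 1 ^ l * 1 := mul_le_mul_of_nonneg_left (hB τ).2 hbet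
            _ = _ := mul_one _
        refine h4.trans ?_
        rw [add_mul]
        have h6 : avg (fun y : (Fin l → Bool) × (Fin l → Bool) => ind (tr R n y = τ)) / 2 * B τ =
          (avg (fun y : (Fin l → Bool) × (Fin l → Bool) => ind (tr R n y = τ)) * B τ) / 2 := by
          ring
        rw [h6]
        linarith
    _ = (∑ τ ∈ S cov R th n,
        avg (fun y : (Fin l → Bool) × (Fin l → Bool) => ind (tr R n y = τ)) * B τ) / 2 +
          ((S cov R th n).card : ℝ) * Poly.bet 1 ^ l := by
        rw [Finset.sum_add_distrib, Finset.sum_const, nsmul_eq_mul, Finset.sum_div]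
    _ ≤ _ := by
        have h4 := mul_le_mul_of_nonneg_right hcard hbet
        linarith

end Pool.Agent.CPG
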