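import Pool.Agent.CPG.Fin

/-!
Project CPG (MP_5e85fc_lc): the final theorem from the module statements.
-/

set_option autoImplicit false

namespace Pool.Agent.CPG

open Pool.Agent.Heads Pool.Agent.NQ2 Filter Asymptotics

/-! ### No automaton in the time of the bound -/

/-- `L` is accepted by a two-way deterministic `k`-head finite automaton in time `f`. -/
def DTime {α : Type} (k : ℕ) (f : ℕ → ℝ) (L : Set (List α)) : Prop :=
  ∃ M : FA α k, M.Det ∧ M.lang = L ∧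
    ∀ w ∈ L, ∃ t : ℕ, (t : ℝ) ≤ f w.length ∧ NQ2.AcceptsIn M w t

/-- `L` is accepted by a two-way probabilistic `k`-head finite automaton in time `f` with error at
most `1 / 3`. -/
def RTime {α : Type} (k : ℕ) (f : ℕ → ℝ) (L : Set (List α)) : Prop :=
  ∃ M : RFA α k, ∀ w : List α,
    (w ∈ L → 2 / 3 ≤ M.pr w ⌊f w.length⌋₊) ∧ (w ∉ L → M.pr w ⌊f w.length⌋₊ ≤ 1 / 3)

/-- A lower bound on average with small advantage excludes acceptance in this time. -/
theorem not_time {α : Type} {L : Set (List α)} {k : ℕ} {f : ℕ → ℝ}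
    (h : ∀ q : ℕ, 1 ≤ q → ∃ n : ℕ, ∃ H : Finset (List α), H.Nonempty ∧ (∀ w ∈ H, w.length = n) ∧
      ∃ b : ℝ, b < 1 / 6 ∧ AvgLow L H k ⌊f n⌋₊ (fun r => r = q) (1 / 2 + b)) :
    ¬ DTime k f L ∧ ¬ RTime k f L := by
  classical
  constructor
  · rintro ⟨M, hM, hL, hacc⟩
    have hQ : 1 ≤ Nat.card M.Q := by
      haveI : Nonempty M.Q := ⟨M.start⟩
      haveI := M.finQ
      exact Nat.card_pos
    obtain ⟨n, H, hne, hlen, b, hb, hA⟩ := h _ hQ
    have h4 := hA.1 M hM rfl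
    have h5 : {w | w ∈ H ∧ (w ∈ L ↔ NQ2.AcceptsIn M w ⌊f n⌋₊)} = (H : Set (List α)) := by
      ext w
      constructor
      · exact fun h => h.1
      · intro hw
        refine ⟨hw, ?_, fun h => by rw [← hL]; exact h.mem⟩
        intro hwL
        obtain ⟨t, ht1, ht2⟩ := hacc w hwL
        rw [hlen w hw] at ht1
        exact ht2.mono (Nat.le_floor ht1)
    rw [h5, Set.ncard_coe_finset] at h4
    have h6 : (0 : ℝ) < H.card := by exact_mod_cast hne.card_pos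
    nlinarith
  · rintro ⟨M, hM⟩
    have hQ : 1 ≤ Nat.card M.Q := by
      haveI : Nonempty M.Q := ⟨M.start⟩
      haveI := M.finQ
      exact Nat.card_pos
    obtain ⟨n, H, hne, hlen, b, hb, hA⟩ := h _ hQ
    have h4 := hA.2 M rfl
    have h5 : ∀ w ∈ H, (2 / 3 : ℝ) ≤ M.right L w ⌊f n⌋₊ := by
      intro w hw
      obtain ⟨a1, a2⟩ := hM w
      rw [hlen w hw] at a1 a2
      unfold RFA.right
      split_ifs with hwL
      · exact a1 hwL
      · have := a2 hwL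
        linarith
    have h6 : (H.card : ℝ) * (2 / 3) ≤ ∑ w ∈ H, M.right L w ⌊f n⌋₊ := by
      rw [← nsmul_eq_mul, ← Finset.sum_const]
      exact Finset.sum_le_sum h5
    have h7 : (0 : ℝ) < H.card := by exact_mod_cast hne.card_pos
    nlinarith

lemma avgLow_mono {α : Type} {L : Set (List α)} {H : Finset (List α)} {k t : ℕ}
    {P P' : ℕ → Prop} {b : ℝ} (h : AvgLow L H k t P b) (hP : ∀ q, P' q → P q) :
    AvgLow L H k t P' b :=
  ⟨fun M hM hq => h.1 M hM (hP _ hq), fun M hq => h.2 M (hP _ hq)⟩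

/-- The lower bound for all numbers of heads at once. -/
def LowA {α : Type} (L : Set (List α)) : Prop :=
  ∀ e : ℝ, 0 < e → ∃ c : ℝ, 0 < c ∧ ∀ᶠ n : ℕ in atTop, ∃ H : Finset (List α), H.Nonempty ∧
    (∀ w ∈ H, w.length = n) ∧ ∀ k t : ℕ, (t : ℝ) ≤ (n : ℝ) ^ (3 / 2 - e) →
      AvgLow L H k t (fun q => (q : ℝ) * ((n : ℝ) + 2) ^ k ≤
        Real.exp (c * (Real.log n) ^ 2 / Real.log (Real.log n))) (1 / 2 + (n : ℝ) ^ (-c))

theorem not_of_lowA {α : Type} {L : Set (List α)} (h : LowA L) (k : ℕ) (f : ℕ → ℝ) (e : ℝ)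
    (he : 0 < e) (hf : f =O[atTop] (fun n : ℕ => (n : ℝ) ^ (3 / 2 - e))) :
    ¬ DTime k f L ∧ ¬ RTime k f L := by
  obtain ⟨c, hc, h⟩ := h (e / 2) (by linarith)
  have hO : ∀ᶠ n : ℕ in atTop, f n ≤ (n : ℝ) ^ (3 / 2 - e / 2) := by
    obtain ⟨C, hC⟩ := hf.bound
    have h1 : ∀ᶠ n : ℕ in atTop, C ≤ (n : ℝ) ^ (e / 2) := by
      have : Tendsto (fun n : ℕ => (n : ℝ) ^ (e / 2)) atTop atTop :=
        (tendsto_rpow_atTop (by linarith)).comp tendsto_natCast_atTop_atTop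
      exact this.eventually_ge_atTop C
    filter_upwards [hC, h1, eventually_ge_atTop 1] with n h1 h2 h3
    have hn0 : (0 : ℝ) < n := by exact_mod_cast h3
    rw [Real.norm_of_nonneg (Real.rpow_nonneg hn0.le _)] at h1
    calc f n ≤ ‖f n‖ := le_abs_self _
      _ ≤ C * (n : ℝ) ^ (3 / 2 - e) := h1
      _ ≤ (n : ℝ) ^ (e / 2) * (n : ℝ) ^ (3 / 2 - e) :=
          mul_le_mul_of_nonneg_right h2 (Real.rpow_nonneg hn0.le _)
      _ = (n : ℝ) ^ (3 / 2 - e / 2) := by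
          rw [← Real.rpow_add hn0]
          congr 1
          ring
  have hsmall : ∀ᶠ n : ℕ in atTop, (n : ℝ) ^ (-c) < 1 / 6 := by
    have : Tendsto (fun n : ℕ => (n : ℝ) ^ (-c)) atTop (nhds 0) :=
      (tendsto_rpow_neg_atTop hc).comp tendsto_natCast_atTop_atTop
    exact this.eventually_lt_const (by norm_num)
  refine not_time fun q _ => ?_
  obtain ⟨n, h1, h2, h3, ⟨H, hne, hlen, hH⟩⟩ := (hO.and (hsmall.and
    ((poly_le_bnd c hc q k).and h))).exists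
  refine ⟨n, H, hne, hlen, _, h2, avgLow_mono (hH k ⌊f n⌋₊ ?_) ?_⟩
  · rcases le_or_gt 0 (f n) with h0 | h0
    · exact (Nat.floor_le h0).trans h1
    · rw [Nat.floor_of_nonpos h0.le]
      push_cast
      exact Real.rpow_nonneg (Nat.cast_nonneg n) _
  · rintro r rfl
    exact h3

/-- The conclusion. -/
theorem top (hABS : ABS_Stmt) (hGM : GMACH_Stmt) (hDF : DFAC_Stmt) (hLEN : LEN_Stmt)
    (hLAY : LAY_Stmt) (hINJ : INJ_Stmt) (hPAR : PAR_Stmt) (hACC : ACC_Stmt) (hRTP : RLT.S_RTP) :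
    ∃ (α : Type) (_ : Finite α) (L : Set (List α)),
      (∃ P : PDA α 1, P.Det ∧ P.lang = L ∧
        ∀ w t c, P.Reach w t c → c.pos 0 = min t (w.length + 1) ∧ t ≤ w.length + 2) ∧
      LowA L ∧
      (∀ (k : ℕ) (f : ℕ → ℝ) (e : ℝ), 0 < e →
        (f =O[atTop] fun n : ℕ => (n : ℝ) ^ (3 / 2 - e)) → ¬ DTime k f L ∧ ¬ RTime k f L) := by
  have hA : LowA Lang := fun e he => lang_low hABS hGM hDF hLEN hLAY hINJ hPAR hACC e he
  refine ⟨Lt, Lt.finite, Lang, ?_, hA, fun k f e he hf => not_of_lowA hA k f e he hf⟩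
  obtain ⟨P, h1, h2, h3⟩ := hRTP Lt (Bool × Md) Sk stp (false, Md.S) (fun q _ => q.1)
  exact ⟨P, h1, h2, h3⟩

end Pool.Agent.CPG
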