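import Pool.Agent.CPG.StP

/-!
Project CPG, module WTS: sums over hints.
-/

set_option autoImplicit false

namespace Pool.Agent.CPG

open Pool.Agent.Heads Pool.Agent.NQ2

namespace WTSx

lemma sum_kd (m T k S th th' : ℕ) :
    ∑ κ : Kd T k S, wt m th th' κ =
      T * (k : ℝ) ^ 2 * (1 / 2) ^ (2 * m - 1) + 2 * S * k * (1 / 2) ^ (m - 1) + (th' : ℝ) / th := by
  rw [Fintype.sum_sum_type, Fintype.sum_sum_type]
  have h1 : ∑ x : Fin T × (Bool → Fin k), wt m th th' (Sum.inl x : Kd T k S) =
      T * (k : ℝ) ^ 2 * (1 / 2) ^ (2 * m - 1) := by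
    have : ∀ x : Fin T × (Bool → Fin k),
        wt m th th' (Sum.inl x : Kd T k S) = (1 / 2) ^ (2 * m - 1) := fun _ => rfl
    simp only [this]
    rw [Finset.sum_const, Finset.card_univ, nsmul_eq_mul, Fintype.card_prod, Fintype.card_fun,
      Fintype.card_fin, Fintype.card_fin, Fintype.card_bool]
    push_cast
    ring
  have h2 : ∑ x : Bool × Fin S × Fin k, wt m th th' (Sum.inr (Sum.inl x) : Kd T k S) =
      2 * S * k * (1 / 2) ^ (m - 1) := by
    have : ∀ x : Bool × Fin S × Fin k,
        wt m th th' (Sum.inr (Sum.inl x) : Kd T k S) = (1 / 2) ^ (m - 1) := fun _ => rfl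
    simp only [this]
    rw [Finset.sum_const, Finset.card_univ, nsmul_eq_mul, Fintype.card_prod, Fintype.card_prod,
      Fintype.card_fin, Fintype.card_fin, Fintype.card_bool]
    push_cast
    ring
  have h3 : ∑ x : Unit, wt m th th' (Sum.inr (Sum.inr x) : Kd T k S) = (th' : ℝ) / th := by
    have : ∀ x : Unit, wt m th th' (Sum.inr (Sum.inr x) : Kd T k S) = (th' : ℝ) / th :=
      fun _ => rfl
    simp only [this]
    rw [Finset.sum_const, Finset.card_univ, nsmul_eq_mul]
    simp
  rw [h1, h2, h3]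
  ring

lemma sum_ht (m d T k S th th' : ℕ) :
    ∑ η : Ht m d T k S, wt m th th' η.2.2 = Gh m d T k S th th' := by
  have h1 : ∑ η : Ht m d T k S, wt m th th' η.2.2 =
      ∑ _v : Nd m d, ∑ _e : Dr m, ∑ κ : Kd T k S, wt m th th' κ := by
    rw [Fintype.sum_prod_type]
    refine Finset.sum_congr rfl fun v _ => ?_
    rw [Fintype.sum_prod_type]
  rw [h1, Finset.sum_const, Finset.sum_const, sum_kd, Finset.card_univ, Finset.card_univ,
    nsmul_eq_mul, nsmul_eq_mul, Fintype.card_prod, Fintype.card_fin, Fintype.card_bool]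
  unfold Gh
  push_cast
  ring

lemma card_ht (m d T k S : ℕ) : (Fintype.card (Ht m d T k S) : ℝ) = Gn m d T k S := by
  rw [Fintype.card_prod, Fintype.card_prod, Fintype.card_prod, Fintype.card_sum,
    Fintype.card_sum, Fintype.card_prod, Fintype.card_prod, Fintype.card_prod, Fintype.card_fun]
  simp only [Fintype.card_fin, Fintype.card_bool, Fintype.card_unit]
  unfold Gn
  push_cast
  ring

end WTSx

open WTSx in
/-- MODULE WTS -/
theorem t_WTS : WTS_Stmt := by
  classical
  intro m d T k S th th'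
  refine ⟨sum_ht m d T k S th th', card_ht m d T k S, fun G => ?_, fun G => ?_⟩
  · rw [← sum_ht, ← Fintype.piFinset_univ,
      ← Finset.prod_univ_sum (fun _ : Fin G => (Finset.univ : Finset (Ht m d T k S)))
        (fun _ η => wt m th th' η.2.2), Finset.prod_const, Finset.card_univ, Fintype.card_fin]
  · rw [Fintype.card_fun, Fintype.card_fin, Nat.cast_pow, card_ht]

end Pool.Agent.CPG
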